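import Pool.Agent.Lib.MP_c3a607_gt.Rp.Grp

namespace Pool.Agent.Lib.MP_c3a607_gt.Rp

open MeasureTheory Set Matrix Real Topology

variable {k l : ℕ}

/-- Average of f over the group. -/
noncomputable def avg (f : Sp k l → ℝ) (x : Sp k l) : ℝ := ∫ g, f (gact g⁻¹ x) ∂(mu k l)

theorem gact_inv_cont : Continuous fun p : So k l × Sp k l => gact p.1⁻¹ p.2 :=
  gact_cont.comp (continuous_fst.inv.prodMk continuous_snd)

theorem avg_pair_cont {f : Sp k l → ℝ} (hf : Continuous f) :
    Continuous fun p : So k l × Sp k l => f (gact p.1⁻¹ p.2) := hf.comp gact_inv_cont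

theorem avg_slice_cont {f : Sp k l → ℝ} (hf : Continuous f) (x : Sp k l) :
    Continuous fun g : So k l => f (gact g⁻¹ x) := by
  have e : Continuous fun g : So k l => (g, x) := Continuous.prodMk_left x
  exact Continuous.comp (g := fun p : So k l × Sp k l => f (gact p.1⁻¹ p.2)) (avg_pair_cont hf) e

theorem avg_integrable {f : Sp k l → ℝ} (hf : Continuous f) (x : Sp k l) :
    Integrable (fun g : So k l => f (gact g⁻¹ x)) (mu k l) :=
  (avg_slice_cont hf x).integrable_of_hasCompactSupport (HasCompactSupport.of_compactSpace _)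

theorem avg_cont {f : Sp k l → ℝ} (hf : Continuous f) : Continuous (avg f) := by
  have h : Continuous (Function.uncurry fun (x : Sp k l) (g : So k l) => f (gact g⁻¹ x)) := by
    have e : Continuous fun p : Sp k l × So k l => (p.2, p.1) := continuous_swap
    exact Continuous.comp (g := fun p : So k l × Sp k l => f (gact p.1⁻¹ p.2)) (avg_pair_cont hf) e
  have h2 := continuous_parametric_integral_of_continuous (μ := mu k l) h isCompact_univ
  simp only [Measure.restrict_univ] at h2
  exact h2

theorem avg_pos {f : Sp k l → ℝ} (hf : Continuous f)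
    (hpos : ∀ x ∈ Metric.sphere (0 : Sp k l) 1, 0 < f x) :
    ∀ x ∈ Metric.sphere (0 : Sp k l) 1, 0 < avg f x := by
  intro x hx
  unfold avg
  rw [integral_pos_iff_support_of_nonneg (fun g => (hpos _ (gact_mem _ hx)).le)
    (avg_integrable hf x)]
  have : Function.support (fun g : So k l => f (gact g⁻¹ x)) = univ := by
    ext g
    simp [(hpos _ (gact_mem g⁻¹ hx)).ne']
  rw [this]
  simp

theorem avg_even {f : Sp k l → ℝ} (he : ∀ x ∈ Metric.sphere (0 : Sp k l) 1, f (-x) = f x) :
    ∀ x ∈ Metric.sphere (0 : Sp k l) 1, avg f (-x) = avg f x := by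
  intro x hx
  unfold avg
  refine integral_congr_ae (Filter.Eventually.of_forall fun g => ?_)
  simp only
  rw [gact_neg, he _ (gact_mem _ hx)]

theorem avg_gact (f : Sp k l → ℝ) (h : So k l) (x : Sp k l) : avg f (gact h x) = avg f x := by
  unfold avg
  rw [← integral_mul_left_eq_self (fun g => f (gact g⁻¹ (gact h x))) h]
  refine integral_congr_ae (Filter.Eventually.of_forall fun g => ?_)
  simp only
  rw [_root_.mul_inv_rev, gact_mul, gact_inv_gact]

end Pool.Agent.Lib.MP_c3a607_gt.Rp
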