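import Pool.Agent.Lib.MP_c3a607_gt.Rp.Avg

namespace Pool.Agent.Lib.MP_c3a607_gt.Rp

open MeasureTheory Set Matrix Real Topology

variable {k l : ℕ}

/-- The metric f² G. -/
noncomputable def conf (f : Sp k l → ℝ) (G : Sp k l → Matrix (Idx k l) (Idx k l) ℝ) :
    Sp k l → Matrix (Idx k l) (Idx k l) ℝ := fun x => f x ^ 2 • G x

theorem form_conf (f : Sp k l → ℝ) (G : Sp k l → Matrix (Idx k l) (Idx k l) ℝ) (x v w : Sp k l) :
    form (conf f G) x v w = f x ^ 2 * form G x v w := by
  unfold form conf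
  rw [Matrix.smul_mulVec, dotProduct_smul, smul_eq_mul]

theorem conf_metric {f : Sp k l → ℝ} {G : Sp k l → Matrix (Idx k l) (Idx k l) ℝ}
    (hG : IsMetric G) (hf : ContinuousOn f (Metric.sphere 0 1))
    (hpos : ∀ x ∈ Metric.sphere (0 : Sp k l) 1, 0 < f x)
    (he : ∀ x ∈ Metric.sphere (0 : Sp k l) 1, f (-x) = f x) : IsMetric (conf f G) where
  cont := (hf.pow 2).smul hG.cont
  symm := fun x hx => by
    have := hG.symm x hx
    unfold conf Matrix.IsSymm
    rw [Matrix.transpose_smul, this.eq]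
  pos := fun x hx v hv hv0 => by
    rw [form_conf]
    exact mul_pos (pow_pos (hpos x hx) 2) (hG.pos x hx v hv hv0)
  even := fun x hx v w hv hw => by
    rw [form_conf, form_conf, he x hx, hG.even x hx v w hv hw]

theorem conf_invariant {f : Sp k l → ℝ} {G : Sp k l → Matrix (Idx k l) (Idx k l) ℝ}
    (hI : Invariant G) (h : ∀ (g : So k l) (x : Sp k l), f (gact g x) = f x) :
    Invariant (conf f G) := by
  intro A hA hA1 B hB hB1 x hx v w hv hw
  rw [form_conf, form_conf, hI A hA hA1 B hB hB1 x hx v w hv hw, ← gact_eq hA hA1 hB hB1 x, h]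

end Pool.Agent.Lib.MP_c3a607_gt.Rp
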