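import Pool.Agent.Lib.MP_c3a607_gt.Rp.Conf

namespace Pool.Agent.Lib.MP_c3a607_gt.Rp

open MeasureTheory Set Matrix Real Topology

variable {k l : ℕ}

theorem dens_conf {f : Sp k l → ℝ} {G : Sp k l → Matrix (Idx k l) (Idx k l) ℝ} {x : Sp k l}
    (hx : x ∈ Metric.sphere (0 : Sp k l) 1) (hf : 0 < f x) (hkl : 1 ≤ k + l) :
    dens (conf f G) x = f x ^ (k + l - 1) * dens G x := by
  have h1 : x.ofLp ⬝ᵥ x.ofLp = 1 := by
    have h2 : inner ℝ x x = (1 : ℝ) := by
      rw [real_inner_self_eq_norm_sq]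
      have : ‖x‖ = 1 := by simpa using hx
      rw [this]; norm_num
    rw [EuclideanSpace.inner_eq_star_dotProduct] at h2
    simpa using h2
  set X : Matrix (Idx k l) (Idx k l) ℝ := Matrix.vecMulVec x.ofLp x.ofLp with hX
  have hXX : X * X = X := by
    rw [hX, Matrix.vecMulVec_mul_vecMulVec, h1, one_smul]
  have hP : proj x = 1 - X := rfl
  have hPP : proj x * proj x = proj x := by
    rw [hP, sub_mul, mul_sub, mul_sub, hXX]; simp
  have hPX : proj x * X = 0 := by rw [hP, sub_mul, hXX]; simp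
  have hXP : X * proj x = 0 := by rw [hP, mul_sub, hXX]; simp
  have hfac : proj x * (f x ^ 2 • G x) * proj x + X =
      (f x ^ 2 • proj x + X) * (proj x * G x * proj x + X) := by
    rw [add_mul, mul_add, mul_add, smul_mul_assoc, smul_mul_assoc, ← Matrix.mul_assoc (proj x) (proj x * G x) (proj x),
      ← Matrix.mul_assoc (proj x) (proj x) (G x), hPP, hPX, hXX, ← Matrix.mul_assoc X (proj x * G x) (proj x),
      ← Matrix.mul_assoc X (proj x) (G x), hXP, mul_smul_comm, smul_mul_assoc]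
    simp
  have hdet : (f x ^ 2 • proj x + X).det = (f x ^ 2) ^ (k + l - 1) := by
    have hc : f x ^ 2 ≠ 0 := pow_ne_zero _ hf.ne'
    have e : f x ^ 2 • proj x + X = f x ^ 2 • (1 + ((1 - f x ^ 2) / f x ^ 2) • X) := by
      rw [hP, smul_sub, smul_add, smul_smul, mul_div_cancel₀ _ hc, sub_smul, one_smul]
      abel
    have hX' : ((1 - f x ^ 2) / f x ^ 2) • X =
        Matrix.replicateCol Unit (((1 - f x ^ 2) / f x ^ 2) • x.ofLp) * Matrix.replicateRow Unit x.ofLp := by
      rw [← Matrix.vecMulVec_eq, Matrix.smul_vecMulVec]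
    rw [e, Matrix.det_smul, hX', Matrix.det_one_add_replicateCol_mul_replicateRow, dotProduct_smul,
      h1, Fintype.card_sum, Fintype.card_fin, Fintype.card_fin]
    obtain ⟨m, hm⟩ := Nat.exists_eq_add_of_le' hkl
    have e2 : f x ^ 2 * (1 + (1 - f x ^ 2) / f x ^ 2) = 1 := by
      field_simp
      ring
    rw [hm, Nat.add_sub_cancel, pow_succ, mul_assoc, smul_eq_mul, mul_one, e2, mul_one]
  unfold dens conf
  rw [hfac, Matrix.det_mul, hdet, Real.sqrt_mul (by positivity), ← pow_mul, mul_comm 2, pow_mul,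
    Real.sqrt_sq (by positivity)]

end Pool.Agent.Lib.MP_c3a607_gt.Rp
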