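import Pool.Agent.Lib.MP_c3a607_gt.Rp.GeoBasic

namespace Pool.Agent.Lib.MP_c3a607_gt.Rp

open Set Real MeasureTheory Matrix

variable {k l : ℕ}

private theorem dens_act_orth {A : Matrix (Fin k) (Fin k) ℝ}
    (hA : A ∈ Matrix.orthogonalGroup (Fin k) ℝ)
    {B : Matrix (Fin l) (Fin l) ℝ} (hB : B ∈ Matrix.orthogonalGroup (Fin l) ℝ) :
    (Matrix.fromBlocks A 0 0 B) * (Matrix.fromBlocks A 0 0 B).transpose = 1 := by
  have hA' : A * A.transpose = 1 := by
    have := Matrix.mem_unitaryGroup_iff.mp hA
    rwa [Matrix.star_eq_conjTranspose, Matrix.conjTranspose_eq_transpose_of_trivial] at this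
  have hB' : B * B.transpose = 1 := by
    have := Matrix.mem_unitaryGroup_iff.mp hB
    rwa [Matrix.star_eq_conjTranspose, Matrix.conjTranspose_eq_transpose_of_trivial] at this
  rw [Matrix.fromBlocks_transpose, Matrix.fromBlocks_multiply]
  simp [hA', hB']

private theorem dens_act_perp {x : Sp k l} (hx : x ∈ Metric.sphere (0 : Sp k l) 1)
    (v : Idx k l → ℝ) :
    inner ℝ x (WithLp.toLp 2 (proj x *ᵥ v) : Sp k l) = 0 := by
  have h1 : x.ofLp ⬝ᵥ x.ofLp = 1 := by
    have h2 : inner ℝ x x = (1 : ℝ) := by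
      rw [real_inner_self_eq_norm_sq]
      have : ‖x‖ = 1 := by simpa using hx
      rw [this]; norm_num
    rw [EuclideanSpace.inner_eq_star_dotProduct] at h2
    simpa using h2
  rw [EuclideanSpace.inner_eq_star_dotProduct]
  simp only [star_trivial]
  rw [proj, Matrix.sub_mulVec, Matrix.one_mulVec, Matrix.vecMulVec_mulVec, sub_dotProduct]
  rw [op_smul_eq_smul, smul_dotProduct, h1, smul_eq_mul, mul_one,
    dotProduct_comm x.ofLp v, sub_self]

/-- The density is invariant: with M = fromBlocks A 0 0 B, proj (M x) = M proj(x) Mᵀ, and the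
matrix of dens at M x is M (matrix of dens at x) Mᵀ (compare the two bilinear forms). -/
theorem dens_act {G : Sp k l → Matrix (Idx k l) (Idx k l) ℝ} (hI : Invariant G)
    {A : Matrix (Fin k) (Fin k) ℝ} (hA : A ∈ Matrix.orthogonalGroup (Fin k) ℝ) (hA1 : A.det = 1)
    {B : Matrix (Fin l) (Fin l) ℝ} (hB : B ∈ Matrix.orthogonalGroup (Fin l) ℝ) (hB1 : B.det = 1)
    {x : Sp k l} (hx : x ∈ Metric.sphere (0 : Sp k l) 1) : dens G (act A B x) = dens G x := by
  set M : Matrix (Idx k l) (Idx k l) ℝ := Matrix.fromBlocks A 0 0 B with hM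
  have hMM : M * M.transpose = 1 := dens_act_orth hA hB
  have hMM' : M.transpose * M = 1 := mul_eq_one_comm.mp hMM
  have hy : (act A B x).ofLp = M *ᵥ x.ofLp := rfl
  have hvv : Matrix.vecMulVec (act A B x).ofLp (act A B x).ofLp
      = M * Matrix.vecMulVec x.ofLp x.ofLp * M.transpose := by
    rw [hy, Matrix.mul_vecMulVec, Matrix.vecMulVec_mul, Matrix.vecMul_transpose]
  have hproj : proj (act A B x) = M * proj x * M.transpose := by
    rw [proj, proj, hvv, mul_sub, sub_mul, mul_one, hMM]
  have hPt : (proj x).transpose = proj x := by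
    rw [proj, Matrix.transpose_sub, Matrix.transpose_one, Matrix.transpose_vecMulVec]
  have key : proj x * (M.transpose * G (act A B x) * M) * proj x = proj x * G x * proj x := by
    ext a b
    have hv := dens_act_perp hx (Pi.single a 1)
    have hw := dens_act_perp hx (Pi.single b 1)
    have h := hI A hA hA1 B hB hB1 x hx _ _ hv hw
    simp only [form, act] at h
    rw [← hM] at h
    have e1 : ∀ N : Matrix (Idx k l) (Idx k l) ℝ,
        (proj x * N * proj x) a b
          = (proj x *ᵥ Pi.single a 1) ⬝ᵥ (N *ᵥ (proj x *ᵥ Pi.single b 1)) := by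
      intro N
      rw [Matrix.mulVec_mulVec, ← Matrix.vecMul_transpose, hPt, ← Matrix.dotProduct_mulVec,
        Matrix.mulVec_mulVec, ← mul_assoc, Matrix.mulVec_single_one, single_dotProduct, one_mul]
      rfl
    rw [e1, e1, ← h]
    set p := proj x *ᵥ Pi.single a 1
    set q := proj x *ᵥ Pi.single b 1
    rw [← Matrix.mulVec_mulVec, ← Matrix.mulVec_mulVec, Matrix.dotProduct_mulVec,
      Matrix.vecMul_transpose]
    rfl
  have hfin : proj (act A B x) * G (act A B x) * proj (act A B x)
      + Matrix.vecMulVec (act A B x).ofLp (act A B x).ofLp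
      = M * (proj x * G x * proj x + Matrix.vecMulVec x.ofLp x.ofLp) * M.transpose := by
    rw [← key, hvv, hproj]
    noncomm_ring
  have hdet : M.det * M.transpose.det = 1 := by
    rw [← Matrix.det_mul, hMM, Matrix.det_one]
  unfold dens
  rw [hfin, Matrix.det_mul, Matrix.det_mul]
  congr 1
  calc M.det * (proj x * G x * proj x + Matrix.vecMulVec x.ofLp x.ofLp).det * M.transpose.det
      = (M.det * M.transpose.det) *
        (proj x * G x * proj x + Matrix.vecMulVec x.ofLp x.ofLp).det := by ring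
    _ = _ := by rw [hdet, one_mul]

end Pool.Agent.Lib.MP_c3a607_gt.Rp
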