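import Pool.Agent.Lib.MP_c3a607_gt.Rp.ConfDens
import Pool.Agent.Lib.MP_c3a607_gt.Rp.Dens

namespace Pool.Agent.Lib.MP_c3a607_gt.Rp

open MeasureTheory Set Matrix Real Topology Pointwise Metric

variable {k l : ℕ}

/-- The area measure of the sphere. -/
noncomputable def sig (k l : ℕ) : Measure (Metric.sphere (0 : Sp k l) 1) :=
  (volume : Measure (Sp k l)).toSphere

/-- The action on the sphere. -/
noncomputable def sact (g : So k l) (x : Metric.sphere (0 : Sp k l) 1) :
    Metric.sphere (0 : Sp k l) 1 := ⟨gact g x, gact_mem g x.2⟩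

theorem sact_coe (g : So k l) (x : Metric.sphere (0 : Sp k l) 1) :
    ((sact g x : Metric.sphere (0 : Sp k l) 1) : Sp k l) = gact g x := rfl

theorem sact_cont (g : So k l) : Continuous (sact (k := k) (l := l) g) :=
  Continuous.subtype_mk ((gLin g).continuous.comp continuous_subtype_val) _

theorem sig_map (g : So k l) : (sig k l).map (sact g) = sig k l := by
  have hm : Measurable (sact (k := k) (l := l) g) := (sact_cont g).measurable
  ext s hs
  rw [Measure.map_apply hm hs]
  unfold sig
  rw [Measure.toSphere_apply' _ (hm hs), Measure.toSphere_apply' _ hs]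
  congr 1
  have hset : Ioo (0 : ℝ) 1 • ((fun θ : Metric.sphere (0 : Sp k l) 1 => (θ : Sp k l)) ''
      (sact g ⁻¹' s)) =
      (gLin g) ⁻¹' (Ioo (0 : ℝ) 1 • ((fun θ : Metric.sphere (0 : Sp k l) 1 => (θ : Sp k l)) '' s)) := by
    ext x
    simp only [Set.mem_smul, mem_image, mem_preimage, Subtype.exists]
    constructor
    · rintro ⟨r, hr, y, ⟨a, ha, has, rfl⟩, rfl⟩
      exact ⟨r, hr, gLin g a, ⟨gLin g a, gact_mem g ha, has, rfl⟩, (map_smul (gLin g) r a).symm⟩
    · rintro ⟨r, hr, y, ⟨a, ha, has, rfl⟩, h⟩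
      refine ⟨r, hr, gact g⁻¹ a, ⟨gact g⁻¹ a, gact_mem g⁻¹ ha, ?_, rfl⟩, ?_⟩
      · have : sact g ⟨gact g⁻¹ a, gact_mem g⁻¹ ha⟩ = ⟨a, ha⟩ := by
          apply Subtype.ext
          rw [sact_coe]
          exact gact_gact_inv g a
        rw [this]
        exact has
      · have h2 : gact g⁻¹ (r • a) = x := by
          rw [h]
          exact gact_inv_gact g x
        rw [← gact_smul, h2]
  have hset' : Ioo (0 : ℝ) 1 • ((↑) '' (sact g ⁻¹' s) : Set (Sp k l)) =
      (gLin g) ⁻¹' (Ioo (0 : ℝ) 1 • ((↑) '' s : Set (Sp k l))) := hset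
  rw [hset']
  exact ((gLin g).measurePreserving).measure_preimage_equiv
    (f := (gLin g).toHomeomorph.toMeasurableEquiv) _

theorem dens_gact {G : Sp k l → Matrix (Idx k l) (Idx k l) ℝ} (hI : Invariant G) (g : So k l)
    {x : Sp k l} (hx : x ∈ Metric.sphere (0 : Sp k l) 1) : dens G (gact g x) = dens G x := by
  rw [gact_def]
  exact dens_act hI g.1.1.2 g.2.1 g.1.2.2 g.2.2 hx

theorem dens_cont_sphere {G : Sp k l → Matrix (Idx k l) (Idx k l) ℝ} (hG : IsMetric G) :
    Continuous fun x : Metric.sphere (0 : Sp k l) 1 => dens G x := by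
  have h1 : Continuous fun x : Metric.sphere (0 : Sp k l) 1 => G x :=
    continuousOn_iff_continuous_domRestrict.mp hG.cont
  have h2 : Continuous fun x : Metric.sphere (0 : Sp k l) 1 => (x : Sp k l).ofLp :=
    (PiLp.continuous_ofLp 2 _).comp continuous_subtype_val
  have h3 : Continuous fun x : Metric.sphere (0 : Sp k l) 1 =>
      Matrix.vecMulVec (x : Sp k l).ofLp (x : Sp k l).ofLp := h2.matrix_vecMulVec h2
  have h4 : Continuous fun x : Metric.sphere (0 : Sp k l) 1 => proj (x : Sp k l) :=
    continuous_const.sub h3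
  exact Real.continuous_sqrt.comp ((((h4.matrix_mul h1).matrix_mul h4).add h3).matrix_det)

theorem vol_conf {f : Sp k l → ℝ} {G : Sp k l → Matrix (Idx k l) (Idx k l) ℝ}
    (hpos : ∀ x ∈ Metric.sphere (0 : Sp k l) 1, 0 < f x) (hkl : 1 ≤ k + l) :
    vol (conf f G) = (1 / 2) * ∫ x : Metric.sphere (0 : Sp k l) 1,
      f x ^ (k + l - 1) * dens G x ∂(sig k l) := by
  unfold vol sig
  congr 1
  refine integral_congr_ae (Filter.Eventually.of_forall fun x => ?_)
  exact dens_conf x.2 (hpos x x.2) hkl

theorem jensen {f : Sp k l → ℝ} (hf : Continuous f)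
    (hpos : ∀ x ∈ Metric.sphere (0 : Sp k l) 1, 0 < f x) (n : ℕ) {x : Sp k l}
    (hx : x ∈ Metric.sphere (0 : Sp k l) 1) :
    avg f x ^ n ≤ ∫ g, f (gact g⁻¹ x) ^ n ∂(mu k l) := by
  have h := (convexOn_pow (𝕜 := ℝ) n).map_integral_le (μ := mu k l)
    (f := fun g : So k l => f (gact g⁻¹ x)) (continuous_pow n).continuousOn isClosed_Ici
    (Filter.Eventually.of_forall fun g => (hpos _ (gact_mem g⁻¹ hx)).le) (avg_integrable hf x)
    (((avg_slice_cont hf x).pow n).integrable_of_hasCompactSupport
      (HasCompactSupport.of_compactSpace _))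
  exact h

theorem integral_sact {G : Sp k l → Matrix (Idx k l) (Idx k l) ℝ} (hG : IsMetric G)
    (hI : Invariant G) {f : Sp k l → ℝ} (hf : Continuous f) (n : ℕ) (g : So k l) :
    ∫ x : Metric.sphere (0 : Sp k l) 1, f (gact g⁻¹ x) ^ n * dens G x ∂(sig k l) =
      ∫ x : Metric.sphere (0 : Sp k l) 1, f x ^ n * dens G x ∂(sig k l) := by
  have hc : Continuous fun x : Metric.sphere (0 : Sp k l) 1 => f x ^ n * dens G x :=
    ((hf.comp continuous_subtype_val).pow n).mul (dens_cont_sphere hG)
  have h := integral_map (μ := sig k l) (φ := sact g⁻¹)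
    (f := fun x : Metric.sphere (0 : Sp k l) 1 => f x ^ n * dens G x)
    (sact_cont g⁻¹).measurable.aemeasurable (by rw [sig_map]; exact hc.aestronglyMeasurable)
  rw [sig_map] at h
  rw [h]
  refine integral_congr_ae (Filter.Eventually.of_forall fun x => ?_)
  simp only [sact_coe]
  rw [dens_gact hI g⁻¹ x.2]

instance (k l : ℕ) : IsFiniteMeasure (sig k l) := by unfold sig; infer_instance

/-- Averaging the conformal factor does not increase the volume. -/
theorem vol_avg_le {f : Sp k l → ℝ} {G : Sp k l → Matrix (Idx k l) (Idx k l) ℝ} (hf : Continuous f)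
    (hpos : ∀ x ∈ Metric.sphere (0 : Sp k l) 1, 0 < f x) (hG : IsMetric G) (hI : Invariant G)
    (hkl : 1 ≤ k + l) : vol (conf (avg f) G) ≤ vol (conf f G) := by
  rw [vol_conf (avg_pos hf hpos) hkl, vol_conf hpos hkl]
  refine mul_le_mul_of_nonneg_left ?_ (by norm_num)
  set n := k + l - 1
  set F : Metric.sphere (0 : Sp k l) 1 → So k l → ℝ := fun x g => f (gact g⁻¹ x) ^ n * dens G x
    with hF
  have hcF : Continuous (Function.uncurry F) := by
    refine Continuous.mul (Continuous.pow ?_ n) ((dens_cont_sphere hG).comp continuous_fst)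
    have e : Continuous fun p : Metric.sphere (0 : Sp k l) 1 × So k l => (p.2, (p.1 : Sp k l)) :=
      continuous_snd.prodMk (continuous_subtype_val.comp continuous_fst)
    exact Continuous.comp (g := fun p : So k l × Sp k l => f (gact p.1⁻¹ p.2)) (avg_pair_cont hf) e
  have hint : Integrable (Function.uncurry F) ((sig k l).prod (mu k l)) :=
    hcF.integrable_of_hasCompactSupport (HasCompactSupport.of_compactSpace _)
  have hd0 : ∀ x : Metric.sphere (0 : Sp k l) 1, 0 ≤ dens G x := fun x => Real.sqrt_nonneg _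
  calc ∫ x : Metric.sphere (0 : Sp k l) 1, avg f x ^ n * dens G x ∂(sig k l)
      ≤ ∫ x : Metric.sphere (0 : Sp k l) 1, (∫ g, F x g ∂(mu k l)) ∂(sig k l) := by
        refine integral_mono ?_ hint.integral_prod_left fun x => ?_
        · exact ((((avg_cont hf).comp continuous_subtype_val).pow n).mul
            (dens_cont_sphere hG)).integrable_of_hasCompactSupport
              (HasCompactSupport.of_compactSpace _)
        · simp only [hF]
          rw [integral_mul_const]
          exact mul_le_mul_of_nonneg_right (jensen hf hpos n x.2) (hd0 x)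
    _ = ∫ g, (∫ x : Metric.sphere (0 : Sp k l) 1, F x g ∂(sig k l)) ∂(mu k l) :=
        integral_integral_swap hint
    _ = ∫ _ : So k l, (∫ x : Metric.sphere (0 : Sp k l) 1, f x ^ n * dens G x ∂(sig k l))
          ∂(mu k l) := by
        refine integral_congr_ae (Filter.Eventually.of_forall fun g => ?_)
        exact integral_sact hG hI hf n g
    _ = _ := by simp

end Pool.Agent.Lib.MP_c3a607_gt.Rp
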