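import Pool.Agent.Lib.MP_c3a607_gt.Rp.Main

namespace Pool.Agent.Lib.MP_c3a607_gt.Rp

open Set Real MeasureTheory

theorem area_eq (i j : ℕ) :
    (1 / 2) * ((volume : Measure (Sp (i + 2) (j + 2))).toSphere univ).toReal =
      √π ^ (i + 2 + (j + 2)) / Gamma (((i + 2 + (j + 2) : ℕ) : ℝ) / 2) := by
  have hn : (0 : ℝ) < ((i + 2 + (j + 2) : ℕ) : ℝ) / 2 := by positivity
  have hcard : Fintype.card (Idx (i + 2) (j + 2)) = i + 2 + (j + 2) := by simp
  rw [Measure.toSphere_apply_univ, finrank_euclideanSpace, hcard, EuclideanSpace.volume_ball,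
    hcard, ENNReal.ofReal_one, one_pow, one_mul, ENNReal.toReal_mul, ENNReal.toReal_natCast,
    ENNReal.toReal_ofReal]
  · rw [Real.Gamma_add_one hn.ne']
    have := (Real.Gamma_pos_of_pos hn).ne'
    field_simp
  · have := (Real.Gamma_pos_of_pos (show (0 : ℝ) < ((i + 2 + (j + 2) : ℕ) : ℝ) / 2 + 1 by
      positivity)).le
    positivity

/-- The ratio of the round metric. -/
theorem round_ratio (i j : ℕ) :
    vol (roundG : Sp (i + 2) (j + 2) → Matrix (Idx (i + 2) (j + 2)) (Idx (i + 2) (j + 2)) ℝ) /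
      sys (roundG : Sp (i + 2) (j + 2) → Matrix (Idx (i + 2) (j + 2))
        (Idx (i + 2) (j + 2)) ℝ) ^ (i + 2 + (j + 2) - 1) =
      √π ^ (i + 2 + (j + 2)) / (Gamma (((i + 2 + (j + 2) : ℕ) : ℝ) / 2) *
        π ^ (i + 2 + (j + 2) - 1)) := by
  rw [round_sys, round_vol, area_eq, div_div]

/-- The round metric has the least ratio among the invariant metrics. -/
theorem le_ratio {i j : ℕ}
    {G : Sp (i + 2) (j + 2) → Matrix (Idx (i + 2) (j + 2)) (Idx (i + 2) (j + 2)) ℝ}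
    (hG : IsMetric G) (hI : Invariant G) :
    √π ^ (i + 2 + (j + 2)) / (Gamma (((i + 2 + (j + 2) : ℕ) : ℝ) / 2) *
        π ^ (i + 2 + (j + 2) - 1)) ≤ vol G / sys G ^ (i + 2 + (j + 2) - 1) := by
  have he : i + 2 + (j + 2) - 1 = i + j + 3 := by omega
  have h := main_ineq hG hI
  have hp := sys_pos hG
  rw [area_eq, div_pow, ← mul_div_assoc, div_mul_eq_mul_div, div_div] at h
  rw [he, le_div_iff₀ (by positivity), div_mul_eq_mul_div]
  exact h

end Pool.Agent.Lib.MP_c3a607_gt.Rp
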