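import Pool.Agent.Lib.MP_c3a607_gt.Rp.ConfSys
import Pool.Agent.Lib.MP_c3a607_gt.Rp.ConfVol
import Pool.Agent.Lib.MP_c3a607_gt.Rp.Final

namespace Pool.Agent.Lib.MP_c3a607_gt.Rp

open MeasureTheory Set Matrix Real Topology

variable {k l : ℕ}

theorem exists_cont_ext {f : Sp k l → ℝ} (hf : ContinuousOn f (Metric.sphere 0 1)) :
    ∃ F : Sp k l → ℝ, Continuous F ∧ ∀ x ∈ Metric.sphere (0 : Sp k l) 1, F x = f x := by
  obtain ⟨g, hg⟩ := ContinuousMap.exists_restrict_eq (Metric.isClosed_sphere (x := (0 : Sp k l)) (ε := 1))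
    ⟨_, continuousOn_iff_continuous_domRestrict.mp hf⟩
  refine ⟨g, g.continuous, fun x hx => ?_⟩
  exact congrArg (fun h => h ⟨x, hx⟩) hg

theorem sys_congr {G H : Sp k l → Matrix (Idx k l) (Idx k l) ℝ}
    (h : ∀ x ∈ Metric.sphere (0 : Sp k l) 1, G x = H x) : sys G = sys H := by
  have e : ∀ γ : ℝ → Sp k l, IsLoop γ → len G γ = len H γ := by
    intro γ hγ
    unfold len
    refine intervalIntegral.integral_congr fun s hs => ?_
    rw [uIcc_of_le zero_le_one] at hs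
    simp only [form]
    rw [h _ (hγ.mem s hs)]
  unfold sys
  congr 1
  ext r
  constructor
  · rintro ⟨γ, hγ, rfl⟩
    exact ⟨γ, hγ, e γ hγ⟩
  · rintro ⟨γ, hγ, rfl⟩
    exact ⟨γ, hγ, (e γ hγ).symm⟩

theorem vol_congr {G H : Sp k l → Matrix (Idx k l) (Idx k l) ℝ}
    (h : ∀ x ∈ Metric.sphere (0 : Sp k l) 1, G x = H x) : vol G = vol H := by
  unfold vol
  congr 1
  refine integral_congr_ae (Filter.Eventually.of_forall fun x => ?_)
  simp only [dens]
  rw [h x x.2]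

/-- The lower bound for metrics conformal to an invariant one. -/
theorem le_ratio_conf {i j : ℕ}
    {G : Sp (i + 2) (j + 2) → Matrix (Idx (i + 2) (j + 2)) (Idx (i + 2) (j + 2)) ℝ}
    (hG : IsMetric G) (hI : Invariant G) {f : Sp (i + 2) (j + 2) → ℝ}
    (hf : ContinuousOn f (Metric.sphere 0 1))
    (hpos : ∀ x ∈ Metric.sphere (0 : Sp (i + 2) (j + 2)) 1, 0 < f x)
    (he : ∀ x ∈ Metric.sphere (0 : Sp (i + 2) (j + 2)) 1, f (-x) = f x) :
    0 < sys (conf f G) ∧
    √π ^ (i + 2 + (j + 2)) / (Gamma (((i + 2 + (j + 2) : ℕ) : ℝ) / 2) *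
        π ^ (i + 2 + (j + 2) - 1)) ≤ vol (conf f G) / sys (conf f G) ^ (i + 2 + (j + 2) - 1) := by
  obtain ⟨F, hF, hFf⟩ := exists_cont_ext hf
  have hposF : ∀ x ∈ Metric.sphere (0 : Sp (i + 2) (j + 2)) 1, 0 < F x := fun x hx => by
    rw [hFf x hx]; exact hpos x hx
  have heF : ∀ x ∈ Metric.sphere (0 : Sp (i + 2) (j + 2)) 1, F (-x) = F x := fun x hx => by
    rw [hFf x hx, hFf (-x) (by simpa using hx), he x hx]
  have hc : ∀ x ∈ Metric.sphere (0 : Sp (i + 2) (j + 2)) 1, conf f G x = conf F G x := fun x hx => by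
    unfold conf
    rw [hFf x hx]
  rw [sys_congr hc, vol_congr hc]
  have hs0 : 0 < sys (conf F G) := sys_pos (conf_metric hG hF.continuousOn hposF heF)
  refine ⟨hs0, ?_⟩
  have hA : IsMetric (conf (avg F) G) :=
    conf_metric hG (avg_cont hF).continuousOn (avg_pos hF hposF) (avg_even heF)
  have hAI : Invariant (conf (avg F) G) := conf_invariant hI (avg_gact F)
  have h1 := le_ratio hA hAI
  obtain ⟨γ, hγ, _⟩ := round_half i j
  have h2 : sys (conf F G) ≤ sys (conf (avg F) G) := sys_le_avg hF hposF hG hI ⟨γ, hγ⟩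
  have h3 : vol (conf (avg F) G) ≤ vol (conf F G) := vol_avg_le hF hposF hG hI (by omega)
  have h4 : 0 ≤ vol (conf F G) := by
    unfold vol
    exact mul_nonneg (by norm_num) (integral_nonneg fun x => Real.sqrt_nonneg _)
  refine h1.trans (div_le_div₀ h4 h3 (pow_pos hs0 _) (pow_le_pow_left₀ hs0.le h2 _))

end Pool.Agent.Lib.MP_c3a607_gt.Rp
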