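import Pool.Agent.Lib.MP_c3a607_gt.Rp.Conf

namespace Pool.Agent.Lib.MP_c3a607_gt.Rp

open MeasureTheory Set Matrix Real Topology

variable {k l : ℕ}

theorem loop_orth {γ : ℝ → Sp k l} (hγ : IsLoop γ) {s : ℝ} (hs : s ∈ Ioo (0 : ℝ) 1) :
    inner ℝ (γ s) (deriv γ s) = 0 := by
  have hd : HasDerivAt γ (deriv γ s) s := (hγ.smooth.differentiable one_ne_zero s).hasDerivAt
  have h2 := hd.inner ℝ hd
  have h3 : HasDerivAt (fun t => inner ℝ (γ t) (γ t)) (0 : ℝ) s := by
    have h4 : (fun t => inner ℝ (γ t) (γ t)) =ᶠ[nhds s] fun _ => (1 : ℝ) := by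
      filter_upwards [Ioo_mem_nhds hs.1 hs.2] with t ht
      have h5 := hγ.mem t ⟨ht.1.le, ht.2.le⟩
      rw [mem_sphere_zero_iff_norm] at h5
      rw [real_inner_self_eq_norm_sq, h5]
      norm_num
    exact (hasDerivAt_const s (1 : ℝ)).congr_of_eventuallyEq h4
  have h6 := h2.unique h3
  rw [real_inner_comm (γ s) (deriv γ s)] at h6
  linarith

theorem gact_hasDeriv (g : So k l) {γ : ℝ → Sp k l} {v : Sp k l} {s : ℝ} (h : HasDerivAt γ v s) :
    HasDerivAt (fun s => gact g (γ s)) (gact g v) s := by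
  have h2 := ((gLin g).toContinuousLinearEquiv.toContinuousLinearMap.hasFDerivAt
    (x := γ s)).comp_hasDerivAt s h
  exact h2

theorem deriv_gact (g : So k l) {γ : ℝ → Sp k l} (hγ : IsLoop γ) (s : ℝ) :
    deriv (fun s => gact g (γ s)) s = gact g (deriv γ s) :=
  (gact_hasDeriv g (hγ.smooth.differentiable one_ne_zero s).hasDerivAt).deriv

theorem loop_gact (g : So k l) {γ : ℝ → Sp k l} (hγ : IsLoop γ) :
    IsLoop fun s => gact g (γ s) where
  smooth := (gLin g).toContinuousLinearEquiv.toContinuousLinearMap.contDiff.comp hγ.smooth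
  mem := fun s hs => gact_mem g (hγ.mem s hs)
  anti := by
    rw [hγ.anti, gact_neg]

theorem len_conf_gact {f : Sp k l → ℝ} {G : Sp k l → Matrix (Idx k l) (Idx k l) ℝ}
    (hI : Invariant G) (hf : ∀ x ∈ Metric.sphere (0 : Sp k l) 1, 0 ≤ f x) (g : So k l)
    {γ : ℝ → Sp k l} (hγ : IsLoop γ) :
    len (conf f G) (fun s => gact g (γ s)) = ∫ s in (0 : ℝ)..1,
      f (gact g (γ s)) * √(form G (γ s) (deriv γ s) (deriv γ s)) := by
  unfold len
  rw [intervalIntegral.integral_of_le zero_le_one, intervalIntegral.integral_of_le zero_le_one,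
    integral_Ioc_eq_integral_Ioo, integral_Ioc_eq_integral_Ioo]
  refine setIntegral_congr_fun measurableSet_Ioo fun s hs => ?_
  have hs' : s ∈ Icc (0 : ℝ) 1 := ⟨hs.1.le, hs.2.le⟩
  have ho := loop_orth hγ hs
  simp only
  rw [form_conf, deriv_gact g hγ s, form_gact hI g (hγ.mem s hs') ho ho,
    Real.sqrt_mul (sq_nonneg _), Real.sqrt_sq (hf _ (gact_mem g (hγ.mem s hs')))]

theorem len_conf {f : Sp k l → ℝ} {G : Sp k l → Matrix (Idx k l) (Idx k l) ℝ}
    (hf : ∀ x ∈ Metric.sphere (0 : Sp k l) 1, 0 ≤ f x) {γ : ℝ → Sp k l} (hγ : IsLoop γ) :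
    len (conf f G) γ = ∫ s in (0 : ℝ)..1,
      f (γ s) * √(form G (γ s) (deriv γ s) (deriv γ s)) := by
  unfold len
  rw [intervalIntegral.integral_of_le zero_le_one, intervalIntegral.integral_of_le zero_le_one,
    integral_Ioc_eq_integral_Ioo, integral_Ioc_eq_integral_Ioo]
  refine setIntegral_congr_fun measurableSet_Ioo fun s hs => ?_
  have hs' : s ∈ Icc (0 : ℝ) 1 := ⟨hs.1.le, hs.2.le⟩
  rw [form_conf, Real.sqrt_mul (sq_nonneg _), Real.sqrt_sq (hf _ (hγ.mem s hs'))]

theorem form_curve_cont {G : Sp k l → Matrix (Idx k l) (Idx k l) ℝ} (hG : IsMetric G)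
    {γ : ℝ → Sp k l} (hγ : IsLoop γ) :
    ContinuousOn (fun s => √(form G (γ s) (deriv γ s) (deriv γ s))) (Icc (0 : ℝ) 1) := by
  have hdc : Continuous (deriv γ) := hγ.smooth.continuous_deriv le_rfl
  have h1 : ContinuousOn (fun s => G (γ s)) (Icc (0 : ℝ) 1) :=
    hG.cont.comp hγ.smooth.continuous.continuousOn hγ.mem
  have h2 : ∀ a b, ContinuousOn (fun s => G (γ s) a b) (Icc (0 : ℝ) 1) := by
    intro a b
    exact (continuous_apply_apply a b).comp_continuousOn h1
  have h3 : ∀ a, ContinuousOn (fun s => (deriv γ s).ofLp a) (Icc (0 : ℝ) 1) := by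
    intro a
    exact ((continuous_apply a).comp ((PiLp.continuous_ofLp 2 _).comp hdc)).continuousOn
  refine ContinuousOn.sqrt ?_
  unfold form dotProduct Matrix.mulVec dotProduct
  refine continuousOn_finsetSum _ fun a _ => ?_
  refine (h3 a).mul ?_
  refine continuousOn_finsetSum _ fun b _ => ?_
  exact (h2 a b).mul (h3 b)

theorem len_avg {f : Sp k l → ℝ} {G : Sp k l → Matrix (Idx k l) (Idx k l) ℝ} (hf : Continuous f)
    (hpos : ∀ x ∈ Metric.sphere (0 : Sp k l) 1, 0 < f x) (hG : IsMetric G) (hI : Invariant G)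
    {γ : ℝ → Sp k l} (hγ : IsLoop γ) :
    Integrable (fun g : So k l => len (conf f G) (fun s => gact g⁻¹ (γ s))) (mu k l) ∧
    len (conf (avg f) G) γ = ∫ g, len (conf f G) (fun s => gact g⁻¹ (γ s)) ∂(mu k l) := by
  set N : ℝ → ℝ := fun s => √(form G (γ s) (deriv γ s) (deriv γ s)) with hN
  set F : ℝ → So k l → ℝ := fun s g => f (gact g⁻¹ (γ s)) * N s with hF
  have hcF : ContinuousOn (Function.uncurry F) (Icc (0 : ℝ) 1 ×ˢ univ) := by
    refine ContinuousOn.mul ?_ ?_
    · have e : Continuous fun p : ℝ × So k l => (p.2, γ p.1) :=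
        continuous_snd.prodMk (hγ.smooth.continuous.comp continuous_fst)
      exact (Continuous.comp (g := fun p : So k l × Sp k l => f (gact p.1⁻¹ p.2))
        (avg_pair_cont hf) e).continuousOn
    · exact (form_curve_cont hG hγ).comp continuousOn_fst fun p hp => hp.1
  have hint : Integrable (Function.uncurry F) ((volume.restrict (Ioc (0 : ℝ) 1)).prod (mu k l)) := by
    have h1 : IntegrableOn (Function.uncurry F) (Icc (0 : ℝ) 1 ×ˢ univ) (volume.prod (mu k l)) :=
      hcF.integrableOn_compact (isCompact_Icc.prod isCompact_univ)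
    have h2 := h1.mono_set (prod_mono_left Ioc_subset_Icc_self : Ioc (0 : ℝ) 1 ×ˢ (univ : Set (So k l)) ⊆ _)
    rw [IntegrableOn, ← Measure.prod_restrict, Measure.restrict_univ] at h2
    exact h2
  have hlen : ∀ g : So k l, len (conf f G) (fun s => gact g⁻¹ (γ s)) =
      ∫ s in Ioc (0 : ℝ) 1, F s g := by
    intro g
    rw [len_conf_gact hI (fun x hx => (hpos x hx).le) g⁻¹ hγ,
      intervalIntegral.integral_of_le zero_le_one]
  refine ⟨?_, ?_⟩
  · simp only [hlen]
    exact hint.integral_prod_right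
  · rw [len_conf (fun x hx => (avg_pos hf hpos x hx).le) hγ,
      intervalIntegral.integral_of_le zero_le_one]
    simp only [hlen]
    rw [← integral_integral_swap hint]
    refine setIntegral_congr_fun measurableSet_Ioc fun s _ => ?_
    simp only [hF]
    rw [integral_mul_const]
    rfl

/-- Averaging the conformal factor does not decrease the systole. -/
theorem sys_le_avg {f : Sp k l → ℝ} {G : Sp k l → Matrix (Idx k l) (Idx k l) ℝ} (hf : Continuous f)
    (hpos : ∀ x ∈ Metric.sphere (0 : Sp k l) 1, 0 < f x) (hG : IsMetric G) (hI : Invariant G)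
    (hex : ∃ γ : ℝ → Sp k l, IsLoop γ) : sys (conf f G) ≤ sys (conf (avg f) G) := by
  obtain ⟨γ₀, hγ₀⟩ := hex
  unfold sys
  refine le_csInf ⟨_, γ₀, hγ₀, rfl⟩ ?_
  rintro r ⟨γ, hγ, rfl⟩
  obtain ⟨h1, h2⟩ := len_avg hf hpos hG hI hγ
  rw [h2]
  have h3 : ∀ g : So k l, sInf {r | ∃ γ : ℝ → Sp k l, IsLoop γ ∧ r = len (conf f G) γ} ≤
      len (conf f G) (fun s => gact g⁻¹ (γ s)) := by
    intro g
    refine csInf_le ⟨0, ?_⟩ ⟨_, loop_gact g⁻¹ hγ, rfl⟩
    rintro r ⟨δ, _, rfl⟩
    unfold len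
    exact intervalIntegral.integral_nonneg zero_le_one fun s _ => Real.sqrt_nonneg _
  calc sInf {r | ∃ γ : ℝ → Sp k l, IsLoop γ ∧ r = len (conf f G) γ}
      = ∫ _ : So k l, sInf {r | ∃ γ : ℝ → Sp k l, IsLoop γ ∧ r = len (conf f G) γ} ∂(mu k l) := by
        simp
    _ ≤ _ := integral_mono (integrable_const _) h1 h3

end Pool.Agent.Lib.MP_c3a607_gt.Rp
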