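import Mathlib

namespace Pool.Agent.Lib.MP_c3a607_gt.Rp

open Set

/-- The curve with velocity (V1, V2) on [c', d'], prolonged by the ray in direction (r1, r2) on
the left and by the ray in direction (s1, s2) on the right, has two points which differ by
(τ, τ). -/
theorem two_points {a b : ℝ} (ha : 0 < a) (hb : 0 < b) {c' d' : ℝ} (hcd : c' ≤ d')
    {V1 V2 : ℝ → ℝ} (hV1 : ContinuousOn V1 (Icc c' d')) (hV2 : ContinuousOn V2 (Icc c' d'))
    (hpos : ∀ t ∈ Icc c' d', 0 < a * V1 t + b * V2 t)
    {r1 r2 s1 s2 : ℝ} (hr : r1 < r2) (hr' : 0 < a * r1 + b * r2)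
    (hs : s2 < s1) (hs' : 0 < a * s1 + b * s2) {τ : ℝ} (hτ : 0 < τ) :
    ∃ c d lam mu : ℝ, c' ≤ c ∧ c ≤ d ∧ d ≤ d' ∧ 0 ≤ lam ∧ 0 ≤ mu ∧
      (lam ≠ 0 → c = c') ∧ (mu ≠ 0 → d = d') ∧
      lam * r1 + mu * s1 + ∫ t in c..d, V1 t = τ ∧
      lam * r2 + mu * s2 + ∫ t in c..d, V2 t = τ := by
  -- continuous extensions
  set W1 : ℝ → ℝ := IccExtend hcd (fun t : Icc c' d' => V1 t) with hW1
  set W2 : ℝ → ℝ := IccExtend hcd (fun t : Icc c' d' => V2 t) with hW2
  have cW1 : Continuous W1 := (continuousOn_iff_continuous_domRestrict.1 hV1).Icc_extend'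
  have cW2 : Continuous W2 := (continuousOn_iff_continuous_domRestrict.1 hV2).Icc_extend'
  have eW1 : ∀ t ∈ Icc c' d', W1 t = V1 t := fun t ht => by
    rw [hW1, IccExtend_of_mem hcd _ ht]
  have eW2 : ∀ t ∈ Icc c' d', W2 t = V2 t := fun t ht => by
    rw [hW2, IccExtend_of_mem hcd _ ht]
  have i1 : ∀ x y, IntervalIntegrable W1 MeasureTheory.volume x y :=
    fun x y => cW1.intervalIntegrable x y
  have i2 : ∀ x y, IntervalIntegrable W2 MeasureTheory.volume x y :=
    fun x y => cW2.intervalIntegrable x y
  have cF1 : Continuous fun x => ∫ t in c'..x, W1 t :=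
    intervalIntegral.continuous_primitive i1 c'
  have cF2 : Continuous fun x => ∫ t in c'..x, W2 t :=
    intervalIntegral.continuous_primitive i2 c'
  let cl : ℝ → ℝ := fun s => max c' (min s d')
  have ccl : Continuous cl := by fun_prop
  let G1 : ℝ → ℝ := fun s => r1 * min (s - c') 0 + (∫ t in c'..(cl s), W1 t) + s1 * max (s - d') 0
  let G2 : ℝ → ℝ := fun s => r2 * min (s - c') 0 + (∫ t in c'..(cl s), W2 t) + s2 * max (s - d') 0
  have cG1 : Continuous G1 := by
    have := cF1.comp ccl
    simp only [G1]
    exact ((continuous_const.mul ((continuous_id.sub continuous_const).min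
      continuous_const)).add this).add
      (continuous_const.mul ((continuous_id.sub continuous_const).max continuous_const))
  have cG2 : Continuous G2 := by
    have := cF2.comp ccl
    simp only [G2]
    exact ((continuous_const.mul ((continuous_id.sub continuous_const).min
      continuous_const)).add this).add
      (continuous_const.mul ((continuous_id.sub continuous_const).max continuous_const))
  let g : ℝ → ℝ := fun s => a * G1 s + b * G2 s
  have cg : Continuous g := (continuous_const.mul cG1).add (continuous_const.mul cG2)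
  have clmem : ∀ s, cl s ∈ Icc c' d' := fun s => ⟨le_max_left _ _, max_le hcd (min_le_right _ _)⟩
  have clmono : Monotone cl := fun x y h => max_le_max le_rfl (min_le_min h le_rfl)
  have gdiff : ∀ s s', g s' - g s = (a * r1 + b * r2) * (min (s' - c') 0 - min (s - c') 0) +
      (∫ t in (cl s)..(cl s'), (a * W1 t + b * W2 t)) +
      (a * s1 + b * s2) * (max (s' - d') 0 - max (s - d') 0) := by
    intro s s'
    rw [intervalIntegral.integral_add ((i1 _ _).const_mul a) ((i2 _ _).const_mul b),
      intervalIntegral.integral_const_mul, intervalIntegral.integral_const_mul,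
      ← intervalIntegral.integral_interval_sub_left (i1 c' (cl s')) (i1 c' (cl s)),
      ← intervalIntegral.integral_interval_sub_left (i2 c' (cl s')) (i2 c' (cl s))]
    simp only [g, G1, G2]
    ring
  have gmono : StrictMono g := by
    intro s s' hss
    have key := gdiff s s'
    have A1 : 0 ≤ (a * r1 + b * r2) * (min (s' - c') 0 - min (s - c') 0) := by
      refine mul_nonneg hr'.le (sub_nonneg.2 (min_le_min (by linarith) le_rfl))
    have A3 : 0 ≤ (a * s1 + b * s2) * (max (s' - d') 0 - max (s - d') 0) := by
      refine mul_nonneg hs'.le (sub_nonneg.2 (max_le_max (by linarith) le_rfl))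
    have hcl : cl s ≤ cl s' := clmono hss.le
    have posW : ∀ t ∈ Icc (cl s) (cl s'), 0 < a * W1 t + b * W2 t := by
      intro t ht
      have ht' : t ∈ Icc c' d' := ⟨(clmem s).1.trans ht.1, ht.2.trans (clmem s').2⟩
      rw [eW1 t ht', eW2 t ht']
      exact hpos t ht'
    have A2 : 0 ≤ ∫ t in (cl s)..(cl s'), (a * W1 t + b * W2 t) :=
      intervalIntegral.integral_nonneg hcl fun t ht => (posW t ht).le
    have hpos' : 0 < g s' - g s := by
      rw [key]
      rcases lt_or_ge s c' with h1 | h1
      · have : 0 < (a * r1 + b * r2) * (min (s' - c') 0 - min (s - c') 0) := by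
          refine mul_pos hr' (sub_pos.2 ?_)
          rw [min_eq_left (by linarith : s - c' ≤ 0)]
          exact lt_min (by linarith) (by linarith)
        linarith
      · rcases lt_or_ge d' s' with h2 | h2
        · have : 0 < (a * s1 + b * s2) * (max (s' - d') 0 - max (s - d') 0) := by
            refine mul_pos hs' (sub_pos.2 ?_)
            rw [max_eq_left (by linarith : 0 ≤ s' - d')]
            exact max_lt (by linarith) (by linarith)
          linarith
        · have e1 : cl s = s := by
            simp only [cl]
            rw [min_eq_left (by linarith), max_eq_right h1]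
          have e2 : cl s' = s' := by
            simp only [cl]
            rw [min_eq_left h2, max_eq_right (by linarith)]
          have : 0 < ∫ t in (cl s)..(cl s'), (a * W1 t + b * W2 t) := by
            refine intervalIntegral.intervalIntegral_pos_of_pos_on
              (((i1 _ _).const_mul a).add ((i2 _ _).const_mul b)) (fun t ht => posW t
                ⟨ht.1.le, ht.2.le⟩) (by rw [e1, e2]; exact hss)
          linarith
    linarith
  have gc : g c' = 0 := by
    have : cl c' = c' := by simp only [cl]; rw [min_eq_left hcd, max_self]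
    simp only [g, G1, G2, this, intervalIntegral.integral_same, sub_self, min_self]
    rw [max_eq_right (by linarith : c' - d' ≤ 0)]
    ring
  have gsurj : Function.Surjective g := by
    intro y
    have lo : ∃ s, g s ≤ y := by
      refine ⟨min c' (c' + y / (a * r1 + b * r2)), ?_⟩
      set s := min c' (c' + y / (a * r1 + b * r2)) with hsdef
      have hsc : s ≤ c' := min_le_left _ _
      have key := gdiff s c'
      have e1 : cl c' = c' := by simp only [cl]; rw [min_eq_left hcd, max_self]
      have e2 : cl s = c' := by
        simp only [cl]; rw [min_eq_left (hsc.trans hcd), max_eq_left hsc]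
      rw [e1, e2, intervalIntegral.integral_same, gc, sub_self, min_self,
        min_eq_left (by linarith : s - c' ≤ 0), max_eq_right (by linarith : c' - d' ≤ 0),
        max_eq_right (by linarith : s - d' ≤ 0)] at key
      have h2 : s ≤ c' + y / (a * r1 + b * r2) := min_le_right _ _
      have h3 : (a * r1 + b * r2) * (s - c') ≤ y := by
        have : s - c' ≤ y / (a * r1 + b * r2) := by linarith
        calc (a * r1 + b * r2) * (s - c') ≤ (a * r1 + b * r2) * (y / (a * r1 + b * r2)) :=
              mul_le_mul_of_nonneg_left this hr'.le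
          _ = y := by field_simp
      linarith
    have hi : ∃ s, y ≤ g s := by
      refine ⟨max d' (d' + (y - g d') / (a * s1 + b * s2)), ?_⟩
      set s := max d' (d' + (y - g d') / (a * s1 + b * s2)) with hsdef
      have hsc : d' ≤ s := le_max_left _ _
      have key := gdiff d' s
      have e1 : cl d' = d' := by simp only [cl]; rw [min_self, max_eq_right hcd]
      have e2 : cl s = d' := by
        simp only [cl]; rw [min_eq_right hsc, max_eq_right hcd]
      rw [e1, e2, intervalIntegral.integral_same, sub_self d', max_self,
        min_eq_right (by linarith : 0 ≤ d' - c'), max_eq_left (by linarith : 0 ≤ s - d'),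
        min_eq_right (by linarith : 0 ≤ s - c')] at key
      have h2 : d' + (y - g d') / (a * s1 + b * s2) ≤ s := le_max_right _ _
      have h3 : y - g d' ≤ (a * s1 + b * s2) * (s - d') := by
        have : (y - g d') / (a * s1 + b * s2) ≤ s - d' := by linarith
        calc y - g d' = (a * s1 + b * s2) * ((y - g d') / (a * s1 + b * s2)) := by field_simp
          _ ≤ _ := mul_le_mul_of_nonneg_left this hs'.le
      linarith
    obtain ⟨s, hs1⟩ := lo
    obtain ⟨s', hs2⟩ := hi
    exact mem_range_of_exists_le_of_exists_ge cg ⟨s, hs1⟩ ⟨s', hs2⟩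
  let e : ℝ ≃o ℝ := gmono.orderIsoOfSurjective g gsurj
  let σ : ℝ → ℝ := e.symm
  have cσ : Continuous σ := e.symm.continuous
  have gσ : ∀ x, g (σ x) = x := fun x => e.apply_symm_apply x
  have σg : ∀ x, σ (g x) = x := fun x => e.symm_apply_apply x
  have σmono : StrictMono σ := e.symm.strictMono
  set K : ℝ := τ * (a + b) with hK
  have hKpos : 0 < K := by positivity
  let ψ : ℝ → ℝ := fun x => (G2 (σ (x + K)) - G1 (σ (x + K))) - (G2 (σ x) - G1 (σ x))
  have cψ : Continuous ψ := by
    have h1 : Continuous fun x => σ (x + K) := cσ.comp (continuous_id.add continuous_const)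
    exact ((cG2.comp h1).sub (cG1.comp h1)).sub ((cG2.comp cσ).sub (cG1.comp cσ))
  have left_ray : ∀ s ≤ c', G1 s = r1 * (s - c') ∧ G2 s = r2 * (s - c') := by
    intro s hsc
    have e2 : cl s = c' := by
      simp only [cl]; rw [min_eq_left (hsc.trans hcd), max_eq_left hsc]
    simp only [G1, G2, e2, intervalIntegral.integral_same]
    rw [min_eq_left (by linarith : s - c' ≤ 0), max_eq_right (by linarith : s - d' ≤ 0)]
    constructor <;> ring
  have right_ray : ∀ s, d' ≤ s → G1 s = G1 d' + s1 * (s - d') ∧ G2 s = G2 d' + s2 * (s - d') := by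
    intro s hsc
    have e2 : cl s = d' := by
      simp only [cl]; rw [min_eq_right hsc, max_eq_right hcd]
    have e1 : cl d' = d' := by simp only [cl]; rw [min_self, max_eq_right hcd]
    simp only [G1, G2, e1, e2]
    rw [min_eq_right (by linarith : 0 ≤ s - c'), max_eq_left (by linarith : 0 ≤ s - d'),
      min_eq_right (by linarith : 0 ≤ d' - c'), sub_self, max_self]
    constructor <;> ring
  have ψlo : 0 < ψ (-K) := by
    have h1 : σ (-K + K) = c' := by rw [neg_add_cancel, ← gc, σg]
    have h2 : σ (-K) < c' := by rw [← σg c', gc]; exact σmono (by linarith)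
    simp only [ψ, h1]
    rw [(left_ray c' le_rfl).1, (left_ray c' le_rfl).2, (left_ray _ h2.le).1,
      (left_ray _ h2.le).2]
    have h6 : 0 < (r2 - r1) * (c' - σ (-K)) := mul_pos (by linarith) (by linarith)
    linarith
  have ψhi : ψ (g d') < 0 := by
    have h1 : σ (g d') = d' := σg d'
    have h2 : d' < σ (g d' + K) := by
      conv_lhs => rw [← σg d']
      exact σmono (by linarith)
    simp only [ψ, h1]
    rw [(right_ray _ h2.le).1, (right_ray _ h2.le).2]
    have h6 : 0 < (s1 - s2) * (σ (g d' + K) - d') := mul_pos (by linarith) (by linarith)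
    linarith
  have hle : -K ≤ g d' := by
    have : g c' ≤ g d' := gmono.monotone hcd
    linarith [gc]
  obtain ⟨x, -, hx⟩ : ∃ x ∈ Icc (-K) (g d'), ψ x = 0 := by
    have := intermediate_value_Icc' hle cψ.continuousOn
    exact this ⟨ψhi.le, ψlo.le⟩
  set s := σ x with hsx
  set s' := σ (x + K) with hsx'
  have hss : s < s' := σmono (by linarith)
  have hg1 : g s = x := gσ x
  have hg2 : g s' = x + K := gσ (x + K)
  have hψ : (G2 s' - G1 s') - (G2 s - G1 s) = 0 := hx
  have hΔ : G1 s' - G1 s = τ := by
    have h1 : g s' - g s = K := by rw [hg1, hg2]; ring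
    simp only [g] at h1
    have h2 : G2 s' - G2 s = G1 s' - G1 s := by linarith
    have h3 : (a + b) * (G1 s' - G1 s) = (a + b) * τ := by
      have : a * (G1 s' - G1 s) + b * (G2 s' - G2 s) = K := by linarith
      rw [h2] at this
      rw [hK] at this
      linarith
    exact mul_left_cancel₀ (by positivity) h3
  have hΔ2 : G2 s' - G2 s = τ := by linarith
  have hc's' : c' < s' := by
    by_contra hcon
    push Not at hcon
    have h1 := left_ray s' hcon
    have h2 := left_ray s (hss.le.trans hcon)
    have h3 : r1 * (s' - s) = τ := by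
      have := hΔ
      rw [h1.1, h2.1] at this
      linarith
    have h4 : r2 * (s' - s) = τ := by
      have := hΔ2
      rw [h1.2, h2.2] at this
      linarith
    have h5 : (r2 - r1) * (s' - s) = 0 := by linear_combination h4 - h3
    have h6 : 0 < (r2 - r1) * (s' - s) := mul_pos (by linarith) (by linarith)
    linarith
  have hsd' : s < d' := by
    by_contra hcon
    push Not at hcon
    have h1 := right_ray s' (hcon.trans hss.le)
    have h2 := right_ray s hcon
    have h3 : s1 * (s' - s) = τ := by
      have := hΔ
      rw [h1.1, h2.1] at this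
      linarith
    have h4 : s2 * (s' - s) = τ := by
      have := hΔ2
      rw [h1.2, h2.2] at this
      linarith
    have h5 : (s1 - s2) * (s' - s) = 0 := by linear_combination h3 - h4
    have h6 : 0 < (s1 - s2) * (s' - s) := mul_pos (by linarith) (by linarith)
    linarith
  have ecl : cl s = max s c' := by
    simp only [cl]; rw [min_eq_left hsd'.le, max_comm]
  have ecl' : cl s' = min s' d' := by
    simp only [cl]; exact max_eq_right (le_min hc's'.le hcd)
  have hord : max s c' ≤ min s' d' := max_le (le_min hss.le hsd'.le) (le_min hc's'.le hcd)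
  have hI1 : (∫ t in (max s c')..(min s' d'), W1 t) = ∫ t in (max s c')..(min s' d'), V1 t := by
    refine intervalIntegral.integral_congr fun t ht => ?_
    rw [uIcc_of_le hord] at ht
    exact eW1 t ⟨(le_max_right _ _).trans ht.1, ht.2.trans (min_le_right _ _)⟩
  have hI2 : (∫ t in (max s c')..(min s' d'), W2 t) = ∫ t in (max s c')..(min s' d'), V2 t := by
    refine intervalIntegral.integral_congr fun t ht => ?_
    rw [uIcc_of_le hord] at ht
    exact eW2 t ⟨(le_max_right _ _).trans ht.1, ht.2.trans (min_le_right _ _)⟩
  have emin : min (s - c') 0 = - max 0 (c' - s) := by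
    rcases le_total s c' with h | h
    · rw [min_eq_left (by linarith), max_eq_right (by linarith)]; ring
    · rw [min_eq_right (by linarith), max_eq_left (by linarith)]; ring
  refine ⟨max s c', min s' d', max 0 (c' - s), max 0 (s' - d'), le_max_right _ _, hord,
    min_le_right _ _, le_max_left _ _, le_max_left _ _, ?_, ?_, ?_, ?_⟩
  · intro h
    refine max_eq_right ?_
    by_contra hcon
    push Not at hcon
    exact h (max_eq_left (by linarith))
  · intro h
    refine min_eq_right ?_
    by_contra hcon
    push Not at hcon
    exact h (max_eq_left (by linarith))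
  · rw [← hI1, ← intervalIntegral.integral_interval_sub_left (i1 c' (min s' d'))
      (i1 c' (max s c')), ← ecl, ← ecl']
    rw [← hΔ]
    simp only [G1]
    rw [emin, min_eq_right (by linarith : 0 ≤ s' - c'), max_eq_right (by linarith : s - d' ≤ 0),
      max_comm 0 (s' - d')]
    ring
  · rw [← hI2, ← intervalIntegral.integral_interval_sub_left (i2 c' (min s' d'))
      (i2 c' (max s c')), ← ecl, ← ecl']
    rw [← hΔ2]
    simp only [G2]
    rw [emin, min_eq_right (by linarith : 0 ≤ s' - c'), max_eq_right (by linarith : s - d' ≤ 0),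
      max_comm 0 (s' - d')]
    ring

end Pool.Agent.Lib.MP_c3a607_gt.Rp
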