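import Pool.Agent.Lib.MP_c3a607_gt.Rp.Well
import Pool.Agent.Lib.MP_c3a607_gt.Rp.TwoPoints

namespace Pool.Agent.Lib.MP_c3a607_gt.Rp

open Set Real

private theorem core_mono {T : ℝ} (hT : 0 < T) {ρ m : ℝ → ℝ}
    (cρ : ContinuousOn ρ (Ioo 0 T)) (cm : ContinuousOn m (Ioo 0 T))
    (hm : ∀ t ∈ Ioo 0 T, 0 < m t)
    (h0 : ∃ ε > 0, ∀ t, 0 < t → t < ε → t < T → 1 ≤ ρ t)
    (h1 : ∃ ε > 0, ∀ t, 0 < t → T - ε < t → t < T → 1 ≤ ρ t)
    {c d : ℝ} (hc : 0 < c) (hcd : c ≤ d) (hd : d < T) :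
    ∫ t in c..d, 2 * m t * √(1 - ρ t) ≤ ∫ t in (0 : ℝ)..T, 2 * m t * √(1 - ρ t) := by
  obtain ⟨e0, he0, h0⟩ := h0
  obtain ⟨e1, he1, h1⟩ := h1
  have cf : ContinuousOn (fun t => 2 * m t * √(1 - ρ t)) (Ioo 0 T) :=
    (continuousOn_const.mul cm).mul (continuousOn_const.sub cρ).sqrt
  set α : ℝ := min e0 T / 2 with hα
  set β : ℝ := T - min e1 T / 2 with hβ
  have hm0 : 0 < min e0 T := lt_min he0 hT
  have hm1 : 0 < min e1 T := lt_min he1 hT
  have hα0 : 0 < α := by positivity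
  have hβ0 : β < T := by rw [hβ]; linarith
  have hαe : α < e0 := by
    have : min e0 T ≤ e0 := min_le_left _ _
    rw [hα]; linarith
  have hαT : α ≤ T / 2 := by
    have : min e0 T ≤ T := min_le_right _ _
    rw [hα]; linarith
  have hβT : T / 2 ≤ β := by
    have : min e1 T ≤ T := min_le_right _ _
    rw [hβ]; linarith
  have hβe : T - e1 < β := by
    have : min e1 T ≤ e1 := min_le_left _ _
    rw [hβ]; linarith
  have hI : MeasureTheory.IntegrableOn (fun t => 2 * m t * √(1 - ρ t)) (Icc α β) := by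
    apply ContinuousOn.integrableOn_Icc
    apply cf.mono
    intro t ht
    exact ⟨lt_of_lt_of_le hα0 ht.1, lt_of_le_of_lt ht.2 hβ0⟩
  have hI2 : MeasureTheory.IntegrableOn (fun t => 2 * m t * √(1 - ρ t)) (Ioo 0 T) := by
    apply hI.of_forall_sdiff_eq_zero measurableSet_Ioo
    intro t ht
    have hge : 1 ≤ ρ t := by
      rcases lt_or_ge t α with h | h
      · exact h0 t ht.1.1 (h.trans hαe) ht.1.2
      · have : β < t := by
          by_contra hh
          exact ht.2 ⟨h, not_lt.mp hh⟩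
        exact h1 t ht.1.1 (hβe.trans this) ht.1.2
    have : √(1 - ρ t) = 0 := Real.sqrt_eq_zero_of_nonpos (by linarith)
    simp [this]
  have hI3 : IntervalIntegrable (fun t => 2 * m t * √(1 - ρ t)) MeasureTheory.volume 0 T := by
    rw [intervalIntegrable_iff_integrableOn_Ioo_of_le hT.le]
    exact hI2
  apply intervalIntegral.integral_mono_interval hc.le hcd hd.le _ hI3
  have hres : MeasureTheory.volume.restrict (Ioc (0:ℝ) T) =
      MeasureTheory.volume.restrict (Ioo (0:ℝ) T) :=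
    MeasureTheory.Measure.restrict_congr_set MeasureTheory.Ioo_ae_eq_Ioc.symm
  rw [hres]
  refine (MeasureTheory.ae_restrict_iff' measurableSet_Ioo).mpr (Filter.Eventually.of_forall ?_)
  intro t ht
  have := hm t ht
  have h2 := Real.sqrt_nonneg (1 - ρ t)
  show 0 ≤ 2 * m t * √(1 - ρ t)
  positivity

private theorem core_left {t0 t1 : ℝ} (h01 : t0 < t1) {ρ D : ℝ → ℝ}
    (cρ : ContinuousAt ρ t0) (cD : ContinuousAt D t0) (hρ : ρ t0 = 1) (hD : 0 < D t0)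
    {e : ℝ} (he : 0 < e) : ∃ c, t0 < c ∧ c < t1 ∧ 1 - e < ρ c ∧ 0 < D c := by
  have e1 : ∀ᶠ t in nhds t0, 1 - e < ρ t := cρ.eventually (lt_mem_nhds (by rw [hρ]; linarith))
  have e2 : ∀ᶠ t in nhds t0, 0 < D t := cD.eventually (lt_mem_nhds hD)
  have e3 : ∀ᶠ t in nhdsWithin t0 (Ioi t0), 1 - e < ρ t ∧ 0 < D t ∧ t ∈ Ioo t0 t1 := by
    filter_upwards [nhdsWithin_le_nhds e1, nhdsWithin_le_nhds e2, Ioo_mem_nhdsGT h01] with t a b c
    exact ⟨a, b, c⟩
  obtain ⟨c, h1, h2, h3⟩ := e3.exists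
  exact ⟨c, h3.1, h3.2, h1, h2⟩

private theorem core_right {t0 t1 : ℝ} (h01 : t0 < t1) {ρ D : ℝ → ℝ}
    (cρ : ContinuousAt ρ t1) (cD : ContinuousAt D t1) (hρ : ρ t1 = 1) (hD : D t1 < 0)
    {e : ℝ} (he : 0 < e) : ∃ c, t0 < c ∧ c < t1 ∧ 1 - e < ρ c ∧ D c < 0 := by
  have e1 : ∀ᶠ t in nhds t1, 1 - e < ρ t := cρ.eventually (lt_mem_nhds (by rw [hρ]; linarith))
  have e2 : ∀ᶠ t in nhds t1, D t < 0 := cD.eventually (gt_mem_nhds hD)
  have e3 : ∀ᶠ t in nhdsWithin t1 (Iio t1), 1 - e < ρ t ∧ D t < 0 ∧ t ∈ Ioo t0 t1 := by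
    filter_upwards [nhdsWithin_le_nhds e1, nhdsWithin_le_nhds e2, Ioo_mem_nhdsLT h01] with t a b c
    exact ⟨a, b, c⟩
  obtain ⟨c, h1, h2, h3⟩ := e3.exists
  exact ⟨c, h3.1, h3.2, h1, h2⟩

/-- The analytic core: lower bound for the action 2 ∫ m √(1 - ρ). -/
theorem core {T a b L : ℝ} (hT : 0 < T) (ha : 0 < a) (hb : 0 < b) {ρ m u1 u2 : ℝ → ℝ}
    (cρ : ContinuousOn ρ (Ioo 0 T)) (cm : ContinuousOn m (Ioo 0 T))
    (c1 : ContinuousOn u1 (Ioo 0 T)) (c2 : ContinuousOn u2 (Ioo 0 T))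
    (hm : ∀ t ∈ Ioo 0 T, 0 < m t) (hρ : ∀ t ∈ Ioo 0 T, ρ t = a * u1 t + b * u2 t)
    (hρ0 : ∀ t ∈ Ioo 0 T, 0 < ρ t)
    (h0 : ∃ ε > 0, ∀ t, 0 < t → t < ε → t < T → 1 ≤ ρ t ∧ 0 < u2 t - u1 t)
    (h1 : ∃ ε > 0, ∀ t, 0 < t → T - ε < t → t < T → 1 ≤ ρ t ∧ u2 t - u1 t < 0)
    (hB : ∀ t ∈ Ioo 0 T, 1 ≤ ρ t → u2 t - u1 t ≠ 0)
    (hL : ∀ c d, 0 < c → c ≤ d → d < T → (∀ t ∈ Icc c d, ρ t < 1) →
      ∀ lam mu : ℝ, 0 ≤ lam → 0 ≤ mu →
        lam * u1 c + mu * u1 d + ∫ t in c..d, 2 * m t * u1 t / √(1 - ρ t) = π →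
        lam * u2 c + mu * u2 d + ∫ t in c..d, 2 * m t * u2 t / √(1 - ρ t) = π →
        L ≤ lam * √(ρ c) + mu * √(ρ d) + ∫ t in c..d, 2 * m t / √(1 - ρ t)) :
    L - π * (a + b) ≤ ∫ t in (0 : ℝ)..T, 2 * m t * √(1 - ρ t) := by
  obtain ⟨t0, t1, ht0, ht01, ht1, hρt0, hρt1, hwell, hD0, hD1⟩ :=
    well_exists hT cρ (c2.sub c1) h0 h1 hB
  have hP : 0 < π * (a + b) := by positivity
  apply le_of_forall_pos_le_add
  intro δ hδ
  -- choose e
  obtain ⟨e, he, he2, heδ⟩ : ∃ e : ℝ, 0 < e ∧ e ≤ 1 / 2 ∧ 2 * (π * (a + b)) * e ≤ δ := by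
    refine ⟨min (1 / 2) (δ / (2 * (π * (a + b)))), lt_min (by norm_num) (by positivity),
      min_le_left _ _, ?_⟩
    calc 2 * (π * (a + b)) * min (1 / 2) (δ / (2 * (π * (a + b))))
        ≤ 2 * (π * (a + b)) * (δ / (2 * (π * (a + b)))) :=
          mul_le_mul_of_nonneg_left (min_le_right _ _) (by positivity)
      _ = δ := by field_simp
  have hmem0 : t0 ∈ Ioo 0 T := ⟨ht0, ht01.trans ht1⟩
  have hmem1 : t1 ∈ Ioo 0 T := ⟨ht0.trans ht01, ht1⟩
  have hmid : t0 < (t0 + t1) / 2 := by linarith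
  have hmid' : (t0 + t1) / 2 < t1 := by linarith
  have nh0 : Ioo 0 T ∈ nhds t0 := Ioo_mem_nhds hmem0.1 hmem0.2
  have nh1 : Ioo 0 T ∈ nhds t1 := Ioo_mem_nhds hmem1.1 hmem1.2
  obtain ⟨c', hc1, hc2, hc3, hc4⟩ := core_left (D := fun t => u2 t - u1 t) hmid
    (cρ.continuousAt nh0) ((c2.continuousAt nh0).sub (c1.continuousAt nh0)) hρt0 hD0 he
  obtain ⟨d', hd1, hd2, hd3, hd4⟩ := core_right (D := fun t => u2 t - u1 t) hmid'
    (cρ.continuousAt nh1) ((c2.continuousAt nh1).sub (c1.continuousAt nh1)) hρt1 hD1 he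
  have hcd' : c' ≤ d' := by linarith
  have hsub : Icc c' d' ⊆ Ioo t0 t1 := fun t ht => ⟨by linarith [ht.1], by linarith [ht.2]⟩
  have hsubT : Icc c' d' ⊆ Ioo 0 T := fun t ht => ⟨by linarith [ht.1], by linarith [ht.2]⟩
  have hlt : ∀ t ∈ Icc c' d', ρ t < 1 := fun t ht => hwell t (hsub ht)
  have hsq : ∀ t ∈ Icc c' d', 0 < √(1 - ρ t) := fun t ht =>
    Real.sqrt_pos.mpr (by linarith [hlt t ht])
  have csq : ContinuousOn (fun t => √(1 - ρ t)) (Icc c' d') :=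
    (continuousOn_const.sub (cρ.mono hsubT)).sqrt
  have cV1 : ContinuousOn (fun t => 2 * m t * u1 t / √(1 - ρ t)) (Icc c' d') :=
    ((continuousOn_const.mul (cm.mono hsubT)).mul (c1.mono hsubT)).div csq
      (fun t ht => (hsq t ht).ne')
  have cV2 : ContinuousOn (fun t => 2 * m t * u2 t / √(1 - ρ t)) (Icc c' d') :=
    ((continuousOn_const.mul (cm.mono hsubT)).mul (c2.mono hsubT)).div csq
      (fun t ht => (hsq t ht).ne')
  have cV3 : ContinuousOn (fun t => 2 * m t / √(1 - ρ t)) (Icc c' d') :=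
    (continuousOn_const.mul (cm.mono hsubT)).div csq (fun t ht => (hsq t ht).ne')
  have cV4 : ContinuousOn (fun t => 2 * m t * √(1 - ρ t)) (Icc c' d') :=
    (continuousOn_const.mul (cm.mono hsubT)).mul csq
  have key : ∀ t ∈ Icc c' d', a * (2 * m t * u1 t / √(1 - ρ t)) + b * (2 * m t * u2 t / √(1 - ρ t))
      = 2 * m t / √(1 - ρ t) - 2 * m t * √(1 - ρ t) := by
    intro t ht
    have h1 := hsq t ht
    have h2 : √(1 - ρ t) * √(1 - ρ t) = 1 - ρ t := Real.mul_self_sqrt (by linarith [hlt t ht])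
    have h3 := hρ t (hsubT ht)
    field_simp
    rw [sq, h2, h3]
    ring
  have hpos : ∀ t ∈ Icc c' d', 0 < a * (2 * m t * u1 t / √(1 - ρ t)) +
      b * (2 * m t * u2 t / √(1 - ρ t)) := by
    intro t ht
    have h1 := hsq t ht
    have h3 := hρ t (hsubT ht)
    have h4 := hρ0 t (hsubT ht)
    have h5 := hm t (hsubT ht)
    have : a * (2 * m t * u1 t / √(1 - ρ t)) + b * (2 * m t * u2 t / √(1 - ρ t)) =
        2 * m t * ρ t / √(1 - ρ t) := by
      rw [h3]; field_simp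
    rw [this]
    positivity
  have hc'T : c' ∈ Ioo 0 T := hsubT ⟨le_rfl, hcd'⟩
  have hd'T : d' ∈ Ioo 0 T := hsubT ⟨hcd', le_rfl⟩
  obtain ⟨c, d, lam, mu, hc, hcd, hd, hlam, hmu, hl1, hm1, E1, E2⟩ :=
    two_points ha hb hcd' cV1 cV2 hpos (r1 := u1 c') (r2 := u2 c') (s1 := u1 d') (s2 := u2 d')
      (by linarith) (by rw [← hρ c' hc'T]; exact hρ0 c' hc'T) (by linarith)
      (by rw [← hρ d' hd'T]; exact hρ0 d' hd'T) Real.pi_pos
  have hIcc : Icc c d ⊆ Icc c' d' := Icc_subset_Icc hc hd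
  have hcmem : c ∈ Icc c' d' := hIcc ⟨le_rfl, hcd⟩
  have hdmem : d ∈ Icc c' d' := hIcc ⟨hcd, le_rfl⟩
  have hcT := hsubT hcmem
  have hdT := hsubT hdmem
  have lc1 : lam * u1 c' = lam * u1 c := by
    by_cases h : lam = 0
    · simp [h]
    · rw [hl1 h]
  have lc2 : lam * u2 c' = lam * u2 c := by
    by_cases h : lam = 0
    · simp [h]
    · rw [hl1 h]
  have md1 : mu * u1 d' = mu * u1 d := by
    by_cases h : mu = 0
    · simp [h]
    · rw [hm1 h]
  have md2 : mu * u2 d' = mu * u2 d := by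
    by_cases h : mu = 0
    · simp [h]
    · rw [hm1 h]
  rw [lc1, md1] at E1
  rw [lc2, md2] at E2
  have hfin := hL c d hcT.1 hcd hdT.2 (fun t ht => hlt t (hIcc ht)) lam mu hlam hmu E1 E2
  -- integrability
  have i1 : IntervalIntegrable (fun t => 2 * m t * u1 t / √(1 - ρ t)) MeasureTheory.volume c d :=
    (cV1.mono hIcc).intervalIntegrable_of_Icc hcd
  have i2 : IntervalIntegrable (fun t => 2 * m t * u2 t / √(1 - ρ t)) MeasureTheory.volume c d :=
    (cV2.mono hIcc).intervalIntegrable_of_Icc hcd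
  have i3 : IntervalIntegrable (fun t => 2 * m t / √(1 - ρ t)) MeasureTheory.volume c d :=
    (cV3.mono hIcc).intervalIntegrable_of_Icc hcd
  have i4 : IntervalIntegrable (fun t => 2 * m t * √(1 - ρ t)) MeasureTheory.volume c d :=
    (cV4.mono hIcc).intervalIntegrable_of_Icc hcd
  have hint : a * (∫ t in c..d, 2 * m t * u1 t / √(1 - ρ t)) +
      b * (∫ t in c..d, 2 * m t * u2 t / √(1 - ρ t)) =
      (∫ t in c..d, 2 * m t / √(1 - ρ t)) - ∫ t in c..d, 2 * m t * √(1 - ρ t) := by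
    rw [← intervalIntegral.integral_const_mul, ← intervalIntegral.integral_const_mul,
      ← intervalIntegral.integral_add (i1.const_mul a) (i2.const_mul b),
      ← intervalIntegral.integral_sub i3 i4]
    apply intervalIntegral.integral_congr
    intro t ht
    rw [uIcc_of_le hcd] at ht
    exact key t (hIcc ht)
  have hint0 : 0 ≤ a * (∫ t in c..d, 2 * m t * u1 t / √(1 - ρ t)) +
      b * (∫ t in c..d, 2 * m t * u2 t / √(1 - ρ t)) := by
    rw [← intervalIntegral.integral_const_mul, ← intervalIntegral.integral_const_mul,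
      ← intervalIntegral.integral_add (i1.const_mul a) (i2.const_mul b)]
    apply intervalIntegral.integral_nonneg hcd
    intro t ht
    exact (hpos t (hIcc ht)).le
  have hsum : lam * ρ c + mu * ρ d + (a * (∫ t in c..d, 2 * m t * u1 t / √(1 - ρ t)) +
      b * (∫ t in c..d, 2 * m t * u2 t / √(1 - ρ t))) = π * (a + b) := by
    rw [hρ c hcT, hρ d hdT]
    linear_combination a * E1 + b * E2
  have hρc := hρ0 c hcT
  have hρd := hρ0 d hdT
  -- lower bounds of ρ at the ends where the weights do not vanish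
  have lamb : lam * (1 - e) ≤ lam * ρ c := by
    by_cases h : lam = 0
    · simp [h]
    · have : 1 - e < ρ c := by rw [hl1 h]; exact hc3
      exact mul_le_mul_of_nonneg_left this.le hlam
  have mub : mu * (1 - e) ≤ mu * ρ d := by
    by_cases h : mu = 0
    · simp [h]
    · have : 1 - e < ρ d := by rw [hm1 h]; exact hd3
      exact mul_le_mul_of_nonneg_left this.le hmu
  have sc : √(ρ c) ≤ 1 := by
    exact Real.sqrt_le_one.mpr (hlt c hcmem).le
  have sd : √(ρ d) ≤ 1 := by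
    exact Real.sqrt_le_one.mpr (hlt d hdmem).le
  have l1 : lam * √(ρ c) ≤ lam := mul_le_of_le_one_right hlam sc
  have l2 : mu * √(ρ d) ≤ mu := mul_le_of_le_one_right hmu sd
  have hlm : (lam + mu) * (1 - e) ≤ π * (a + b) := by nlinarith
  have hlm2 : lam + mu ≤ 2 * (π * (a + b)) := by nlinarith
  have hlm3 : (lam + mu) * e ≤ δ :=
    (mul_le_mul_of_nonneg_right hlm2 he.le).trans heδ
  have hmono := core_mono hT cρ cm hm
    (by obtain ⟨ε, h, h'⟩ := h0; exact ⟨ε, h, fun t a b c => (h' t a b c).1⟩)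
    (by obtain ⟨ε, h, h'⟩ := h1; exact ⟨ε, h, fun t a b c => (h' t a b c).1⟩) hcT.1 hcd hdT.2
  nlinarith

end Pool.Agent.Lib.MP_c3a607_gt.Rp
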