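import Pool.Agent.Lib.MP_c3a607_gt.Rp.GeoBasic

namespace Pool.Agent.Lib.MP_c3a607_gt.Rp

open Set Real MeasureTheory

variable {i j : ℕ}
  {G : Sp (i + 2) (j + 2) → Matrix (Idx (i + 2) (j + 2)) (Idx (i + 2) (j + 2)) ℝ}

/-- Standard basis vector. -/
noncomputable def bas {k l : ℕ} (p : Idx k l) : Sp k l := WithLp.toLp 2 (Pi.single p 1)

private noncomputable def sm {n : ℕ} (a b : Fin n) : Matrix (Fin n) (Fin n) ℝ :=
  Matrix.diagonal (fun x => if x = a then (-1 : ℝ) else 1) * (Equiv.swap a b).permMatrix ℝ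

private theorem sm_mulVec {n : ℕ} (a b : Fin n) (v : Fin n → ℝ) (x : Fin n) :
    (sm a b).mulVec v x = (if x = a then (-1 : ℝ) else 1) * v (Equiv.swap a b x) := by
  unfold sm
  rw [← Matrix.mulVec_mulVec, Matrix.permMatrix_mulVec, Matrix.mulVec_diagonal]
  rfl

private theorem sm_det {n : ℕ} {a b : Fin n} (h : a ≠ b) : (sm a b).det = 1 := by
  unfold sm
  rw [Matrix.det_mul, Matrix.det_diagonal, Matrix.det_permutation, Equiv.Perm.sign_swap h]
  simp [Finset.prod_ite_eq']

private theorem sm_mem {n : ℕ} (a b : Fin n) : sm a b ∈ Matrix.orthogonalGroup (Fin n) ℝ := by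
  rw [Matrix.mem_orthogonalGroup_iff]
  unfold sm
  rw [Matrix.transpose_mul]
  have h1 : (Equiv.swap a b).permMatrix ℝ * ((Equiv.swap a b).permMatrix ℝ).transpose = 1 := by
    rw [Matrix.transpose_permMatrix, ← Matrix.permMatrix_mul]
    simp
  rw [Matrix.diagonal_transpose, mul_assoc, ← mul_assoc ((Equiv.swap a b).permMatrix ℝ), h1,
    one_mul, Matrix.diagonal_mul_diagonal]
  ext p q
  rw [Matrix.diagonal_apply, Matrix.one_apply]
  split_ifs <;> simp

private theorem one_mem' {n : ℕ} : (1 : Matrix (Fin n) (Fin n) ℝ) ∈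
    Matrix.orthogonalGroup (Fin n) ℝ := one_mem _

private theorem act_inl {k l : ℕ} (A : Matrix (Fin k) (Fin k) ℝ) (B : Matrix (Fin l) (Fin l) ℝ)
    (x : Sp k l) (r : Fin k) :
    (act A B x) (Sum.inl r) = A.mulVec (fun s => x (Sum.inl s)) r := by
  simp only [act, Matrix.fromBlocks_mulVec]
  simp [Function.comp_def]

private theorem act_inr {k l : ℕ} (A : Matrix (Fin k) (Fin k) ℝ) (B : Matrix (Fin l) (Fin l) ℝ)
    (x : Sp k l) (r : Fin l) :
    (act A B x) (Sum.inr r) = B.mulVec (fun s => x (Sum.inr s)) r := by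
  simp only [act, Matrix.fromBlocks_mulVec]
  simp [Function.comp_def]

private theorem actL {k l : ℕ} (a b : Fin k) (x : Sp k l) (r : Fin k) :
    (act (sm a b) 1 x) (Sum.inl r) =
      (if r = a then (-1 : ℝ) else 1) * x (Sum.inl (Equiv.swap a b r)) := by
  rw [act_inl, sm_mulVec]

private theorem actL' {k l : ℕ} (a b : Fin k) (x : Sp k l) (r : Fin l) :
    (act (sm a b) 1 x) (Sum.inr r) = x (Sum.inr r) := by
  rw [act_inr, Matrix.one_mulVec]

private theorem actR {k l : ℕ} (a b : Fin l) (x : Sp k l) (r : Fin l) :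
    (act 1 (sm a b) x) (Sum.inr r) =
      (if r = a then (-1 : ℝ) else 1) * x (Sum.inr (Equiv.swap a b r)) := by
  rw [act_inr, sm_mulVec]

private theorem actR' {k l : ℕ} (a b : Fin l) (x : Sp k l) (r : Fin k) :
    (act 1 (sm a b) x) (Sum.inl r) = x (Sum.inl r) := by
  rw [act_inl, Matrix.one_mulVec]

private theorem bas_inl_apply {k l : ℕ} (r : Fin k) (p : Idx k l) :
    (bas (Sum.inl r) : Sp k l) p = if p = Sum.inl r then 1 else 0 := by
  simp [bas]

private theorem bas_inr_apply {k l : ℕ} (r : Fin l) (p : Idx k l) :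
    (bas (Sum.inr r) : Sp k l) p = if p = Sum.inr r then 1 else 0 := by
  simp [bas]

theorem bas_eA : bas (Sum.inl 1 : Idx (i + 2) (j + 2)) = eA i j := by
  ext p
  rw [bas_inl_apply]
  rcases p with r | r
  · by_cases h : r = 1
    · subst h; simp [eA, vec4]
    · simp [eA, vec4, h]
  · simp [eA, vec4]

theorem bas_fB : bas (Sum.inr 1 : Idx (i + 2) (j + 2)) = fB i j := by
  ext p
  rw [bas_inr_apply]
  rcases p with r | r
  · simp [fB, vec4]
  · by_cases h : r = 1
    · subst h; simp [fB, vec4]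
    · simp [fB, vec4, h]

private theorem inner_bas {k l : ℕ} (x : Sp k l) (p : Idx k l) :
    inner ℝ x (bas p) = x p := by
  simp [bas, PiLp.inner_apply, Pi.single_apply]

private theorem x0_inl (t : ℝ) {r : Fin (i + 2)} (hr : 1 ≤ r.val) :
    (x0 i j t) (Sum.inl r) = 0 := by
  have h : r ≠ 0 := by rintro rfl; simp at hr
  simp [x0, vec4, h]

private theorem x0_inr (t : ℝ) {r : Fin (j + 2)} (hr : 1 ≤ r.val) :
    (x0 i j t) (Sum.inr r) = 0 := by
  have h : r ≠ 0 := by rintro rfl; simp at hr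
  simp [x0, vec4, h]

private theorem eTh_inl (t : ℝ) {r : Fin (i + 2)} (hr : 1 ≤ r.val) :
    (eTh i j t) (Sum.inl r) = 0 := by
  have h : r ≠ 0 := by rintro rfl; simp at hr
  simp [eTh, vec4, h]

private theorem eTh_inr (t : ℝ) {r : Fin (j + 2)} (hr : 1 ≤ r.val) :
    (eTh i j t) (Sum.inr r) = 0 := by
  have h : r ≠ 0 := by rintro rfl; simp at hr
  simp [eTh, vec4, h]

/-- vectors with vanishing coordinates a, b are fixed -/
private theorem fixL {k l : ℕ} {a b : Fin k} {x : Sp k l} (ha : x (Sum.inl a) = 0)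
    (hb : x (Sum.inl b) = 0) : act (sm a b) 1 x = x := by
  ext p
  rcases p with r | r
  · rw [actL]
    by_cases h1 : r = a
    · subst h1; rw [Equiv.swap_apply_left, ha, hb]; simp
    · by_cases h2 : r = b
      · subst h2; rw [Equiv.swap_apply_right, ha, hb]; simp
      · rw [Equiv.swap_apply_of_ne_of_ne h1 h2, if_neg h1, one_mul]
  · rw [actL']

private theorem fixR {k l : ℕ} {a b : Fin l} {x : Sp k l} (ha : x (Sum.inr a) = 0)
    (hb : x (Sum.inr b) = 0) : act 1 (sm a b) x = x := by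
  ext p
  rcases p with r | r
  · rw [actR']
  · rw [actR]
    by_cases h1 : r = a
    · subst h1; rw [Equiv.swap_apply_left, ha, hb]; simp
    · by_cases h2 : r = b
      · subst h2; rw [Equiv.swap_apply_right, ha, hb]; simp
      · rw [Equiv.swap_apply_of_ne_of_ne h1 h2, if_neg h1, one_mul]

private theorem act_basL_left {k l : ℕ} {a b : Fin k} (hab : a ≠ b) :
    act (sm a b) 1 (bas (Sum.inl a) : Sp k l) = bas (Sum.inl b) := by
  ext p
  rcases p with r | r
  · rw [actL, bas_inl_apply, bas_inl_apply]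
    by_cases h1 : r = a
    · subst h1; rw [Equiv.swap_apply_left]; simp [hab, hab.symm]
    · by_cases h2 : r = b
      · subst h2; rw [Equiv.swap_apply_right]; simp [h1]
      · rw [Equiv.swap_apply_of_ne_of_ne h1 h2]; simp [h1, h2]
  · rw [actL', bas_inl_apply, bas_inl_apply]; simp

private theorem act_basL_right {k l : ℕ} {a b : Fin k} (hab : a ≠ b) :
    act (sm a b) 1 (bas (Sum.inl b) : Sp k l) = -bas (Sum.inl a) := by
  ext p
  rw [PiLp.neg_apply]
  rcases p with r | r
  · rw [actL, bas_inl_apply, bas_inl_apply]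
    by_cases h1 : r = a
    · subst h1; rw [Equiv.swap_apply_left]; simp
    · by_cases h2 : r = b
      · subst h2; rw [Equiv.swap_apply_right]; simp [h1, Ne.symm h1]
      · rw [Equiv.swap_apply_of_ne_of_ne h1 h2]; simp [h1, h2]
  · rw [actL', bas_inl_apply, bas_inl_apply]; simp

private theorem act_basR_left {k l : ℕ} {a b : Fin l} (hab : a ≠ b) :
    act 1 (sm a b) (bas (Sum.inr a) : Sp k l) = bas (Sum.inr b) := by
  ext p
  rcases p with r | r
  · rw [actR', bas_inr_apply, bas_inr_apply]; simp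
  · rw [actR, bas_inr_apply, bas_inr_apply]
    by_cases h1 : r = a
    · subst h1; rw [Equiv.swap_apply_left]; simp [hab, hab.symm]
    · by_cases h2 : r = b
      · subst h2; rw [Equiv.swap_apply_right]; simp [h1]
      · rw [Equiv.swap_apply_of_ne_of_ne h1 h2]; simp [h1, h2]

private theorem act_basR_right {k l : ℕ} {a b : Fin l} (hab : a ≠ b) :
    act 1 (sm a b) (bas (Sum.inr b) : Sp k l) = -bas (Sum.inr a) := by
  ext p
  rw [PiLp.neg_apply]
  rcases p with r | r
  · rw [actR', bas_inr_apply, bas_inr_apply]; simp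
  · rw [actR, bas_inr_apply, bas_inr_apply]
    by_cases h1 : r = a
    · subst h1; rw [Equiv.swap_apply_left]; simp
    · by_cases h2 : r = b
      · subst h2; rw [Equiv.swap_apply_right]; simp [h1, Ne.symm h1]
      · rw [Equiv.swap_apply_of_ne_of_ne h1 h2]; simp [h1, h2]

private theorem act_neg {k l : ℕ} (A : Matrix (Fin k) (Fin k) ℝ) (B : Matrix (Fin l) (Fin l) ℝ)
    (x : Sp k l) : act A B (-x) = -act A B x := by
  unfold act
  rw [WithLp.ofLp_neg, Matrix.mulVec_neg, WithLp.toLp_neg]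

private theorem form_neg_left {k l : ℕ} (G : Sp k l → Matrix (Idx k l) (Idx k l) ℝ)
    (x v w : Sp k l) : form G x (-v) w = -form G x v w := by
  have := form_smul_left G x v w (-1)
  simpa using this

private theorem form_neg_right {k l : ℕ} (G : Sp k l → Matrix (Idx k l) (Idx k l) ℝ)
    (x v w : Sp k l) : form G x v (-w) = -form G x v w := by
  have := form_smul_right G x v w (-1)
  simpa using this

private theorem invL (hI : Invariant G) (t : ℝ) {a b : Fin (i + 2)} (ha : 1 ≤ a.val)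
    (hb : 1 ≤ b.val) (hab : a ≠ b) {v w : Sp (i + 2) (j + 2)} (hv : inner ℝ (x0 i j t) v = 0)
    (hw : inner ℝ (x0 i j t) w = 0) :
    form G (x0 i j t) (act (sm a b) 1 v) (act (sm a b) 1 w) = form G (x0 i j t) v w := by
  have h := hI (sm a b) (sm_mem a b) (sm_det hab) 1 one_mem' (Matrix.det_one) (x0 i j t)
    (x0_mem t) v w hv hw
  rwa [fixL (x0_inl t ha) (x0_inl t hb)] at h

private theorem invR (hI : Invariant G) (t : ℝ) {a b : Fin (j + 2)} (ha : 1 ≤ a.val)
    (hb : 1 ≤ b.val) (hab : a ≠ b) {v w : Sp (i + 2) (j + 2)} (hv : inner ℝ (x0 i j t) v = 0)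
    (hw : inner ℝ (x0 i j t) w = 0) :
    form G (x0 i j t) (act 1 (sm a b) v) (act 1 (sm a b) w) = form G (x0 i j t) v w := by
  have h := hI 1 one_mem' (Matrix.det_one) (sm a b) (sm_mem a b) (sm_det hab) (x0 i j t)
    (x0_mem t) v w hv hw
  rwa [fixR (x0_inr t ha) (x0_inr t hb)] at h

private theorem orthL (t : ℝ) {r : Fin (i + 2)} (hr : 1 ≤ r.val) :
    inner ℝ (x0 i j t) (bas (Sum.inl r)) = 0 := by rw [inner_bas, x0_inl t hr]

private theorem orthR (t : ℝ) {r : Fin (j + 2)} (hr : 1 ≤ r.val) :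
    inner ℝ (x0 i j t) (bas (Sum.inr r)) = 0 := by rw [inner_bas, x0_inr t hr]

/-- e_a is orthogonal to the vectors fixed by the rotation. -/
private theorem flipL (hI : Invariant G) (t : ℝ) {a b : Fin (i + 2)} (ha : 1 ≤ a.val)
    (hb : 1 ≤ b.val) (hab : a ≠ b) {w : Sp (i + 2) (j + 2)}
    (hw : inner ℝ (x0 i j t) w = 0) (h1 : w (Sum.inl a) = 0) (h2 : w (Sum.inl b) = 0) :
    form G (x0 i j t) (bas (Sum.inl a)) w = 0 := by
  have e1 := invL (v := bas (Sum.inl a)) (w := w) hI t ha hb hab (orthL t ha) hw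
  have e2 := invL (v := bas (Sum.inl b)) (w := w) hI t ha hb hab (orthL t hb) hw
  rw [act_basL_left hab, fixL h1 h2] at e1
  rw [act_basL_right hab, fixL h1 h2, form_neg_left] at e2
  linarith

private theorem flipR (hI : Invariant G) (t : ℝ) {a b : Fin (j + 2)} (ha : 1 ≤ a.val)
    (hb : 1 ≤ b.val) (hab : a ≠ b) {w : Sp (i + 2) (j + 2)}
    (hw : inner ℝ (x0 i j t) w = 0) (h1 : w (Sum.inr a) = 0) (h2 : w (Sum.inr b) = 0) :
    form G (x0 i j t) (bas (Sum.inr a)) w = 0 := by
  have e1 := invR (v := bas (Sum.inr a)) (w := w) hI t ha hb hab (orthR t ha) hw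
  have e2 := invR (v := bas (Sum.inr b)) (w := w) hI t ha hb hab (orthR t hb) hw
  rw [act_basR_left hab, fixR h1 h2] at e1
  rw [act_basR_right hab, fixR h1 h2, form_neg_left] at e2
  linarith

private theorem one_le_one {n : ℕ} : 1 ≤ (1 : Fin (n + 2)).val := by simp

private theorem ne_one {n : ℕ} {r : Fin (n + 2)} (hr : 2 ≤ r.val) : r ≠ 1 := by
  rintro rfl; simp at hr

private theorem orthTh (t : ℝ) : inner ℝ (x0 i j t) (eTh i j t) = 0 := by
  unfold x0 eTh
  rw [inner_vec4]
  ring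

/-- Tangent vectors of the first factor beyond the first one: use the element of SO(i + 2) which
rotates the plane of the coordinates 1 and r by π/2, and its square. -/
theorem cross_inl_eTh (hG : IsMetric G) (hI : Invariant G) (t : ℝ) (r : Fin (i + 2))
    (hr : 2 ≤ r.val) : form G (x0 i j t) (bas (Sum.inl r)) (eTh i j t) = 0 :=
  flipL hI t (by omega) one_le_one (ne_one hr) (orthTh t) (eTh_inl t (by omega))
    (eTh_inl t one_le_one)

theorem cross_inl_inl (hG : IsMetric G) (hI : Invariant G) (t : ℝ) (r r' : Fin (i + 2))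
    (hr : 1 ≤ r.val) (hr' : 1 ≤ r'.val) (h : r ≠ r') :
    form G (x0 i j t) (bas (Sum.inl r)) (bas (Sum.inl r')) = 0 := by
  have e := invL (v := bas (Sum.inl r)) (w := bas (Sum.inl r')) hI t hr hr' h (orthL t hr)
    (orthL t hr')
  rw [act_basL_left h, act_basL_right h, form_neg_right,
    form_symm hG (x0_mem t) (bas (Sum.inl r')) (bas (Sum.inl r))] at e
  linarith

theorem cross_inl_inr (hG : IsMetric G) (hI : Invariant G) (t : ℝ) (r : Fin (i + 2))
    (hr : 2 ≤ r.val) (s : Fin (j + 2)) (hs : 1 ≤ s.val) :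
    form G (x0 i j t) (bas (Sum.inl r)) (bas (Sum.inr s)) = 0 :=
  flipL hI t (by omega) one_le_one (ne_one hr) (orthR t hs) (by rw [bas_inr_apply]; simp)
    (by rw [bas_inr_apply]; simp)

theorem diag_inl (hG : IsMetric G) (hI : Invariant G) (t : ℝ) (r : Fin (i + 2))
    (hr : 1 ≤ r.val) : form G (x0 i j t) (bas (Sum.inl r)) (bas (Sum.inl r)) =
      form G (x0 i j t) (eA i j) (eA i j) := by
  rw [← bas_eA]
  by_cases h : (1 : Fin (i + 2)) = r
  · rw [← h]
  · have e := invL (v := bas (Sum.inl 1)) (w := bas (Sum.inl 1)) hI t (one_le_one (n := i)) hr h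
      (orthL t one_le_one) (orthL t one_le_one)
    rw [act_basL_left h] at e
    exact e

theorem cross_inr_eTh (hG : IsMetric G) (hI : Invariant G) (t : ℝ) (r : Fin (j + 2))
    (hr : 2 ≤ r.val) : form G (x0 i j t) (bas (Sum.inr r)) (eTh i j t) = 0 :=
  flipR hI t (by omega) one_le_one (ne_one hr) (orthTh t) (eTh_inr t (by omega))
    (eTh_inr t one_le_one)

theorem cross_inr_inr (hG : IsMetric G) (hI : Invariant G) (t : ℝ) (r r' : Fin (j + 2))
    (hr : 1 ≤ r.val) (hr' : 1 ≤ r'.val) (h : r ≠ r') :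
    form G (x0 i j t) (bas (Sum.inr r)) (bas (Sum.inr r')) = 0 := by
  have e := invR (v := bas (Sum.inr r)) (w := bas (Sum.inr r')) hI t hr hr' h (orthR t hr)
    (orthR t hr')
  rw [act_basR_left h, act_basR_right h, form_neg_right,
    form_symm hG (x0_mem t) (bas (Sum.inr r')) (bas (Sum.inr r))] at e
  linarith

theorem cross_inr_inl (hG : IsMetric G) (hI : Invariant G) (t : ℝ) (r : Fin (j + 2))
    (hr : 2 ≤ r.val) (s : Fin (i + 2)) (hs : 1 ≤ s.val) :
    form G (x0 i j t) (bas (Sum.inr r)) (bas (Sum.inl s)) = 0 :=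
  flipR hI t (by omega) one_le_one (ne_one hr) (orthL t hs) (by rw [bas_inl_apply]; simp)
    (by rw [bas_inl_apply]; simp)

theorem diag_inr (hG : IsMetric G) (hI : Invariant G) (t : ℝ) (r : Fin (j + 2))
    (hr : 1 ≤ r.val) : form G (x0 i j t) (bas (Sum.inr r)) (bas (Sum.inr r)) =
      form G (x0 i j t) (fB i j) (fB i j) := by
  rw [← bas_fB]
  by_cases h : (1 : Fin (j + 2)) = r
  · rw [← h]
  · have e := invR (v := bas (Sum.inr 1)) (w := bas (Sum.inr 1)) hI t (one_le_one (n := j)) hr h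
      (orthR t one_le_one) (orthR t one_le_one)
    rw [act_basR_left h] at e
    exact e

/-- If one of the factors has dimension at least 3, the fibre metric is diagonal. -/
theorem H12_zero (hG : IsMetric G) (hI : Invariant G) (h : 1 ≤ i + j) (t : ℝ) :
    (slice G).H12 t = 0 := by
  have key : form G (x0 i j t) (eA i j) (fB i j) = 0 := by
    rw [← bas_eA, ← bas_fB]
    by_cases hi : 1 ≤ i
    · exact flipL (b := ⟨2, by omega⟩) hI t one_le_one (by simp) (by simp [Fin.ext_iff])
        (orthR t one_le_one) (by rw [bas_inr_apply]; simp) (by rw [bas_inr_apply]; simp)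
    · have hj : 1 ≤ j := by omega
      rw [form_symm hG (x0_mem t)]
      exact flipR (b := ⟨2, by omega⟩) hI t one_le_one (by simp) (by simp [Fin.ext_iff])
        (orthL t one_le_one) (by rw [bas_inl_apply]; simp) (by rw [bas_inl_apply]; simp)
  simp only [slice]
  rw [key, mul_zero]

end Pool.Agent.Lib.MP_c3a607_gt.Rp
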