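import Pool.Agent.Lib.MP_c3a607_gt.Rp.GeoBasic

namespace Pool.Agent.Lib.MP_c3a607_gt.Rp

open Set Real MeasureTheory

variable {i j : ℕ}
  {G : Sp (i + 2) (j + 2) → Matrix (Idx (i + 2) (j + 2)) (Idx (i + 2) (j + 2)) ℝ}

private theorem vec4_lin (a a' b b' : ℝ) :
    vec4 i j a a' b b' = a • vec4 i j 1 0 0 0 + a' • vec4 i j 0 1 0 0 +
      b • vec4 i j 0 0 1 0 + b' • vec4 i j 0 0 0 1 := by
  ext r
  rcases r with r | r
  · simp only [vec4, PiLp.add_apply, PiLp.smul_apply, smul_eq_mul, Sum.elim_inl]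
    by_cases h0 : r = 0
    · subst h0; simp
    · by_cases h1 : r = 1
      · subst h1; simp
      · simp [h0, h1]
  · simp only [vec4, PiLp.add_apply, PiLp.smul_apply, smul_eq_mul, Sum.elim_inr]
    by_cases h0 : r = 0
    · subst h0; simp
    · by_cases h1 : r = 1
      · subst h1; simp
      · simp [h0, h1]

private theorem hasDerivAt_vec4 {f1 f2 f3 f4 : ℝ → ℝ} {d1 d2 d3 d4 s : ℝ}
    (h1 : HasDerivAt f1 d1 s) (h2 : HasDerivAt f2 d2 s) (h3 : HasDerivAt f3 d3 s)
    (h4 : HasDerivAt f4 d4 s) :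
    HasDerivAt (fun t => vec4 i j (f1 t) (f2 t) (f3 t) (f4 t)) (vec4 i j d1 d2 d3 d4) s := by
  have h := (((h1.smul_const (vec4 i j 1 0 0 0)).add (h2.smul_const (vec4 i j 0 1 0 0))).add
    (h3.smul_const (vec4 i j 0 0 1 0))).add (h4.smul_const (vec4 i j 0 0 0 1))
  rw [vec4_lin d1 d2 d3 d4]
  refine h.congr_of_eventuallyEq (Filter.Eventually.of_forall fun t => ?_)
  simp only [Pi.add_apply]
  exact vec4_lin _ _ _ _

private theorem curve_eq (θ α β : ℝ → ℝ) (s : ℝ) :
    curve i j θ α β s = act (rot i (α s)) (rot j (β s)) (x0 i j (θ s)) := by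
  unfold curve x0
  rw [act_rot_vec4]
  congr 1 <;> ring

private theorem deriv_curve {θ α β : ℝ → ℝ}
    (hθ : ContDiff ℝ 1 θ) (hα : ContDiff ℝ 1 α) (hβ : ContDiff ℝ 1 β) (s : ℝ) :
    deriv (curve i j θ α β) s = act (rot i (α s)) (rot j (β s))
      (vec4 i j (-sin (θ s) * deriv θ s) (cos (θ s) * deriv α s) (cos (θ s) * deriv θ s)
        (sin (θ s) * deriv β s)) := by
  have h1 : HasDerivAt θ (deriv θ s) s := (hθ.differentiable one_ne_zero s).hasDerivAt
  have h2 : HasDerivAt α (deriv α s) s := (hα.differentiable one_ne_zero s).hasDerivAt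
  have h3 : HasDerivAt β (deriv β s) s := (hβ.differentiable one_ne_zero s).hasDerivAt
  have h := hasDerivAt_vec4 (i := i) (j := j) (h1.cos.mul h2.cos) (h1.cos.mul h2.sin)
    (h1.sin.mul h3.cos) (h1.sin.mul h3.sin)
  have h' : HasDerivAt (curve i j θ α β) _ s := h
  rw [h'.deriv, act_rot_vec4]
  congr 1 <;> ring

private theorem decomp (t τ p q : ℝ) :
    vec4 i j (-sin t * τ) p (cos t * τ) q = τ • eTh i j t + p • eA i j + q • fB i j := by
  unfold eTh eA fB
  rw [vec4_lin (-sin t * τ) p (cos t * τ) q, vec4_lin (-sin t) 0 (cos t) 0]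
  module

/-- The length integrand of a curve of the slice: curve θ α β s = act (rot α) (rot β) (x0 θ),
and its derivative is act (rot α) (rot β) (θ' eTh + cos θ α' eA + sin θ β' fB). -/
theorem curve_form (hG : IsMetric G) (hI : Invariant G) {θ α β : ℝ → ℝ}
    (hθ : ContDiff ℝ 1 θ) (hα : ContDiff ℝ 1 α) (hβ : ContDiff ℝ 1 β) (s : ℝ) :
    form G (curve i j θ α β s) (deriv (curve i j θ α β) s) (deriv (curve i j θ α β) s) =
      (slice G).Q (θ s) (deriv θ s) (deriv α s) (deriv β s) := by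
  have hin : inner ℝ (x0 i j (θ s)) (vec4 i j (-sin (θ s) * deriv θ s) (cos (θ s) * deriv α s)
      (cos (θ s) * deriv θ s) (sin (θ s) * deriv β s)) = 0 := by
    unfold x0
    rw [inner_vec4]
    ring
  rw [curve_eq, deriv_curve hθ hα hβ s,
    hI _ (rot_mem i (α s)) (rot_det i (α s)) _ (rot_mem j (β s)) (rot_det j (β s)) _
      (x0_mem (θ s)) _ _ hin hin, decomp]
  have hs := form_symm hG (x0_mem (i := i) (j := j) (θ s))
  simp only [form_add_left, form_add_right, form_smul_left, form_smul_right]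
  rw [hs (eA i j) (eTh i j (θ s)), hs (fB i j) (eTh i j (θ s)), hs (fB i j) (eA i j)]
  unfold Slice.Q slice
  simp only
  ring

end Pool.Agent.Lib.MP_c3a607_gt.Rp
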