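import Mathlib

/-! Metrics on the real projective space of dimension k + l - 1, described on the unit sphere of
R^k x R^l. -/

namespace Pool.Agent.Lib.MP_c3a607_gt.Rp

open MeasureTheory Set Matrix Real

/-- Indices of the coordinates of R^k x R^l. -/
abbrev Idx (k l : ℕ) := Fin k ⊕ Fin l

/-- The Euclidean space R^k x R^l. -/
abbrev Sp (k l : ℕ) := EuclideanSpace ℝ (Idx k l)

variable {k l : ℕ}

/-- The linear map (x₁, x₂) ↦ (A x₁, B x₂). -/
noncomputable def act (A : Matrix (Fin k) (Fin k) ℝ) (B : Matrix (Fin l) (Fin l) ℝ)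
    (x : Sp k l) : Sp k l :=
  WithLp.toLp 2 ((Matrix.fromBlocks A 0 0 B) *ᵥ x.ofLp)

/-- The value at (v, w) of the bilinear form with matrix G x. -/
noncomputable def form (G : Sp k l → Matrix (Idx k l) (Idx k l) ℝ) (x v w : Sp k l) : ℝ :=
  v.ofLp ⬝ᵥ (G x *ᵥ w.ofLp)

/-- G represents a continuous Riemannian metric on the unit sphere of R^k x R^l which is
invariant under x ↦ -x, that is, a Riemannian metric on the projective space. Only the values
of the forms G x on vectors orthogonal to x matter. -/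
structure IsMetric (G : Sp k l → Matrix (Idx k l) (Idx k l) ℝ) : Prop where
  cont : ContinuousOn G (Metric.sphere 0 1)
  symm : ∀ x ∈ Metric.sphere (0 : Sp k l) 1, (G x).IsSymm
  pos : ∀ x ∈ Metric.sphere (0 : Sp k l) 1, ∀ v : Sp k l, inner ℝ x v = 0 → v ≠ 0 →
    0 < form G x v v
  even : ∀ x ∈ Metric.sphere (0 : Sp k l) 1, ∀ v w : Sp k l, inner ℝ x v = 0 →
    inner ℝ x w = 0 → form G (-x) v w = form G x v w

/-- The metric is invariant under SO(k) x SO(l). -/
def Invariant (G : Sp k l → Matrix (Idx k l) (Idx k l) ℝ) : Prop :=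
  ∀ A ∈ Matrix.orthogonalGroup (Fin k) ℝ, A.det = 1 →
  ∀ B ∈ Matrix.orthogonalGroup (Fin l) ℝ, B.det = 1 →
  ∀ x ∈ Metric.sphere (0 : Sp k l) 1, ∀ v w : Sp k l, inner ℝ x v = 0 → inner ℝ x w = 0 →
    form G (act A B x) (act A B v) (act A B w) = form G x v w

/-- Length of the curve γ : [0, 1] → sphere. -/
noncomputable def len (G : Sp k l → Matrix (Idx k l) (Idx k l) ℝ) (γ : ℝ → Sp k l) : ℝ :=
  ∫ s in (0 : ℝ)..1, √(form G (γ s) (deriv γ s) (deriv γ s))

/-- A C¹ curve in the sphere which joins a point to its antipode: the lift of a closed curve of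
the projective space which is not contractible. -/
structure IsLoop (γ : ℝ → Sp k l) : Prop where
  smooth : ContDiff ℝ 1 γ
  mem : ∀ s ∈ Icc (0 : ℝ) 1, γ s ∈ Metric.sphere (0 : Sp k l) 1
  anti : γ 1 = -γ 0

/-- The systole. -/
noncomputable def sys (G : Sp k l → Matrix (Idx k l) (Idx k l) ℝ) : ℝ :=
  sInf {r | ∃ γ : ℝ → Sp k l, IsLoop γ ∧ r = len G γ}

/-- The matrix of the projection to the orthogonal complement of the unit vector x. -/
noncomputable def proj (x : Sp k l) : Matrix (Idx k l) (Idx k l) ℝ :=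
  1 - Matrix.vecMulVec x.ofLp x.ofLp

/-- Density of the Riemannian volume at x, with respect to the area of the unit sphere: square
root of the determinant of the form on the tangent space. -/
noncomputable def dens (G : Sp k l → Matrix (Idx k l) (Idx k l) ℝ) (x : Sp k l) : ℝ :=
  √((proj x * G x * proj x + Matrix.vecMulVec x.ofLp x.ofLp).det)

/-- Riemannian volume of the projective space: half the volume of the sphere. -/
noncomputable def vol (G : Sp k l → Matrix (Idx k l) (Idx k l) ℝ) : ℝ :=
  (1 / 2) * ∫ x : Metric.sphere (0 : Sp k l) 1, dens G x ∂(volume : Measure (Sp k l)).toSphere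

/-- The round metric. -/
def roundG : Sp k l → Matrix (Idx k l) (Idx k l) ℝ := fun _ => 1

end Pool.Agent.Lib.MP_c3a607_gt.Rp
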