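import Pool.Agent.Lib.MP_c3a607_gt.Rp.Cross

namespace Pool.Agent.Lib.MP_c3a607_gt.Rp

open Set Real MeasureTheory

variable {i j : ℕ}
  {G : Sp (i + 2) (j + 2) → Matrix (Idx (i + 2) (j + 2)) (Idx (i + 2) (j + 2)) ℝ}

/-- The orthonormal basis x0, eTh, bas (inl r), bas (inr s) (r, s ≥ 1), as the columns inl 0,
inr 0, inl r, inr s of a matrix. -/
noncomputable def frame (i j : ℕ) (t : ℝ) :
    Matrix (Idx (i + 2) (j + 2)) (Idx (i + 2) (j + 2)) ℝ := fun p c =>
  if c = Sum.inl 0 then (x0 i j t) p else if c = Sum.inr 0 then (eTh i j t) p else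
    if p = c then 1 else 0

/-- columns of the frame -/
private noncomputable def dxW (i j : ℕ) (t : ℝ) (c : Idx (i + 2) (j + 2)) :
    Sp (i + 2) (j + 2) :=
  if c = Sum.inl 0 then x0 i j t else if c = Sum.inr 0 then eTh i j t else bas c

private theorem dx_frame (t : ℝ) (p c : Idx (i + 2) (j + 2)) :
    frame i j t p c = (dxW i j t c).ofLp p := by
  unfold frame dxW
  split_ifs with h1 h2 h3
  · rfl
  · rfl
  · subst h3; simp [bas]
  · simp [bas, h3]

private theorem dx_dot_bas (x : Sp (i + 2) (j + 2)) (c : Idx (i + 2) (j + 2)) :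
    x.ofLp ⬝ᵥ (bas c : Sp (i + 2) (j + 2)).ofLp = x.ofLp c := by
  simp [bas]

private theorem dx_bas_dot (x : Sp (i + 2) (j + 2)) (c : Idx (i + 2) (j + 2)) :
    (bas c : Sp (i + 2) (j + 2)).ofLp ⬝ᵥ x.ofLp = x.ofLp c := by
  simp [bas]

private theorem dx_inner (x y : Sp (i + 2) (j + 2)) :
    x.ofLp ⬝ᵥ y.ofLp = inner ℝ x y := by
  rw [PiLp.inner_apply]
  simp [dotProduct, mul_comm]

private theorem dx_vec_apply (a b : ℝ) (c : Idx (i + 2) (j + 2)) (h1 : c ≠ Sum.inl 0)
    (h2 : c ≠ Sum.inr 0) : (vec4 i j a 0 b 0).ofLp c = 0 := by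
  rcases c with r | s
  · have hr : r ≠ 0 := fun h => h1 (by rw [h])
    simp [vec4, hr]
  · have hs : s ≠ 0 := fun h => h2 (by rw [h])
    simp [vec4, hs]

private theorem dx_orth (t : ℝ) (r c : Idx (i + 2) (j + 2)) :
    (dxW i j t r).ofLp ⬝ᵥ (dxW i j t c).ofLp = if r = c then 1 else 0 := by
  have hxx : (x0 i j t).ofLp ⬝ᵥ (x0 i j t).ofLp = 1 := by
    rw [dx_inner]; unfold x0; rw [inner_vec4]
    nlinarith [Real.sin_sq_add_cos_sq t]
  have hxe : (x0 i j t).ofLp ⬝ᵥ (eTh i j t).ofLp = 0 := by
    rw [dx_inner]; unfold x0 eTh; rw [inner_vec4]; ring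
  have hex : (eTh i j t).ofLp ⬝ᵥ (x0 i j t).ofLp = 0 := by
    rw [dx_inner]; unfold x0 eTh; rw [inner_vec4]; ring
  have hee : (eTh i j t).ofLp ⬝ᵥ (eTh i j t).ofLp = 1 := by
    rw [dx_inner]; unfold eTh; rw [inner_vec4]
    nlinarith [Real.sin_sq_add_cos_sq t]
  have h01 : (Sum.inl 0 : Idx (i + 2) (j + 2)) ≠ Sum.inr 0 := by simp
  unfold dxW
  by_cases hr1 : r = Sum.inl 0
  · subst hr1
    by_cases hc1 : c = Sum.inl 0
    · subst hc1; simp [hxx]
    · by_cases hc2 : c = Sum.inr 0
      · subst hc2; simp [hxe]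
      · rw [if_pos rfl, if_neg hc1, if_neg hc2, dx_dot_bas, if_neg (Ne.symm hc1)]
        exact dx_vec_apply _ _ c hc1 hc2
  · by_cases hr2 : r = Sum.inr 0
    · subst hr2
      by_cases hc1 : c = Sum.inl 0
      · subst hc1; simp [hex]
      · by_cases hc2 : c = Sum.inr 0
        · subst hc2; simp [hee]
        · rw [if_neg h01.symm, if_pos rfl, if_neg hc1, if_neg hc2, dx_dot_bas,
            if_neg (Ne.symm hc2)]
          exact dx_vec_apply _ _ c hc1 hc2
    · rw [if_neg hr1, if_neg hr2, dx_bas_dot]
      by_cases hc1 : c = Sum.inl 0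
      · subst hc1
        rw [if_pos rfl, if_neg hr1]
        exact dx_vec_apply _ _ r hr1 hr2
      · by_cases hc2 : c = Sum.inr 0
        · subst hc2
          rw [if_neg h01.symm, if_pos rfl, if_neg hr2]
          exact dx_vec_apply _ _ r hr1 hr2
        · rw [if_neg hc1, if_neg hc2]
          simp [bas]

private theorem dx_OtO (t : ℝ) : (frame i j t).transpose * frame i j t = 1 := by
  ext r c
  rw [Matrix.mul_apply, Matrix.one_apply, ← dx_orth t r c]
  simp only [dotProduct, Matrix.transpose_apply, dx_frame]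

theorem frame_mem (t : ℝ) :
    frame i j t ∈ Matrix.orthogonalGroup (Idx (i + 2) (j + 2)) ℝ := by
  rw [Matrix.mem_orthogonalGroup_iff']
  exact dx_OtO t

private theorem dx_W0 (t : ℝ) : dxW i j t (Sum.inl 0) = x0 i j t := by
  unfold dxW; rw [if_pos rfl]

/-- entries of the matrix of the form in the frame -/
private theorem dx_entry (t : ℝ) (r c : Idx (i + 2) (j + 2)) :
    ((frame i j t).transpose * (proj (x0 i j t) * G (x0 i j t) * proj (x0 i j t) +
      Matrix.vecMulVec (x0 i j t).ofLp (x0 i j t).ofLp) * frame i j t) r c =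
    if r = Sum.inl 0 ∨ c = Sum.inl 0 then (if r = c then 1 else 0) else
      form G (x0 i j t) (dxW i j t r) (dxW i j t c) := by
  have hcol : ∀ (M : Matrix (Idx (i + 2) (j + 2)) (Idx (i + 2) (j + 2)) ℝ),
      ((frame i j t).transpose * M * frame i j t) r c =
      (dxW i j t r).ofLp ⬝ᵥ (M.mulVec (dxW i j t c).ofLp) := by
    intro M
    rw [Matrix.mul_assoc, Matrix.mul_apply]
    simp only [dotProduct, Matrix.mulVec, Matrix.transpose_apply, dx_frame, Matrix.mul_apply]
  rw [hcol]
  have hP : ∀ c, (proj (x0 i j t)).mulVec (dxW i j t c).ofLp =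
      if c = Sum.inl 0 then 0 else (dxW i j t c).ofLp := by
    intro c
    unfold proj
    rw [Matrix.sub_mulVec, Matrix.one_mulVec, Matrix.vecMulVec_mulVec, ← dx_W0 t, dx_orth]
    by_cases hc : c = Sum.inl 0
    · subst hc; simp
    · rw [if_neg (Ne.symm hc), if_neg hc]; simp
  have hPs : (proj (x0 i j t)).transpose = proj (x0 i j t) := by
    unfold proj
    ext a b
    simp [Matrix.vecMulVec_apply, Matrix.one_apply, mul_comm, eq_comm]
  have hPv : ∀ c, Matrix.vecMul (dxW i j t c).ofLp (proj (x0 i j t)) =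
      if c = Sum.inl 0 then 0 else (dxW i j t c).ofLp := by
    intro c
    rw [← hP c, ← Matrix.mulVec_transpose, hPs]
  rw [Matrix.add_mulVec, dotProduct_add, ← Matrix.mulVec_mulVec, ← Matrix.mulVec_mulVec,
    Matrix.dotProduct_mulVec _ (proj (x0 i j t)), hPv, hP, Matrix.vecMulVec_mulVec]
  rw [← dx_W0 t, dx_orth]
  by_cases hr : r = Sum.inl 0
  · subst hr
    rw [if_pos rfl, if_pos (Or.inl rfl)]
    by_cases hc : c = Sum.inl 0
    · subst hc
      simp [dx_orth]
    · rw [if_neg (Ne.symm hc)]
      simp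
  · rw [if_neg hr]
    by_cases hc : c = Sum.inl 0
    · subst hc
      rw [if_pos rfl, if_pos (Or.inr rfl), if_neg hr]
      simp [dx_orth, hr]
    · rw [if_neg hc, if_neg (Ne.symm hc),
        if_neg (show ¬(r = Sum.inl 0 ∨ c = Sum.inl 0) by tauto)]
      simp [form]

/-- the indices of the block of size 3 -/
private def dxP (i j : ℕ) (c : Idx (i + 2) (j + 2)) : Prop :=
  c = Sum.inr 0 ∨ c = Sum.inl 1 ∨ c = Sum.inr 1

private instance (i j : ℕ) : DecidablePred (dxP i j) := fun _ =>
  inferInstanceAs (Decidable (_ ∨ _))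

private theorem dx_W_eTh (t : ℝ) : dxW i j t (Sum.inr 0) = eTh i j t := by
  unfold dxW; rw [if_neg (by simp), if_pos rfl]

private theorem dx_W_bas (t : ℝ) (c : Idx (i + 2) (j + 2)) (h1 : c ≠ Sum.inl 0)
    (h2 : c ≠ Sum.inr 0) : dxW i j t c = bas c := by
  unfold dxW; rw [if_neg h1, if_neg h2]

/-- an index outside the block of size 3 -/
private theorem dx_not (c : Idx (i + 2) (j + 2)) (h : ¬ dxP i j c) :
    c = Sum.inl 0 ∨ (∃ r : Fin (i + 2), 2 ≤ r.val ∧ c = Sum.inl r) ∨
      (∃ s : Fin (j + 2), 2 ≤ s.val ∧ c = Sum.inr s) := by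
  unfold dxP at h
  push Not at h
  obtain ⟨h0, h1, h2⟩ := h
  rcases c with r | s
  · by_cases hr : r = 0
    · left; rw [hr]
    · right; left
      refine ⟨r, ?_, rfl⟩
      by_contra hlt
      have h3 : r.val ≠ 0 := fun h => hr (Fin.ext h)
      have h4 : r.val ≠ 1 := fun h => h1 (by
        congr 1
        exact Fin.ext (by simpa using h))
      omega
  · right; right
    refine ⟨s, ?_, rfl⟩
    by_contra hlt
    have h3 : s.val ≠ 0 := fun h => h0 (by congr 1; exact Fin.ext h)
    have h4 : s.val ≠ 1 := fun h => h2 (by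
      congr 1
      exact Fin.ext (by simpa using h))
    omega

private theorem dx_two (k : ℕ) (r : Fin (k + 2)) (h : 2 ≤ r.val) : r ≠ 0 ∧ r ≠ 1 := by
  constructor
  · intro h'; subst h'; simp at h
  · intro h'; subst h'; simp at h

/-- The density at x0 t. The matrix of the form in the basis frame is block diagonal: 1, a block
of size 3 (eTh, eA, fB), and diagonal entries form eA eA (i times), form fB fB (j times). -/
theorem dens_x0 (hG : IsMetric G) (hI : Invariant G) {t : ℝ} (ht : t ∈ Ioo 0 (π / 2)) :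
    dens G (x0 i j t) = √((slice G).det3 t) * √((slice G).H11 t) ^ i *
      √((slice G).H22 t) ^ j / (cos t ^ (i + 1) * sin t ^ (j + 1)) := by
  have hx := x0_mem (i := i) (j := j) t
  have hct : 0 < cos t := Real.cos_pos_of_mem_Ioo ⟨by linarith [ht.1, Real.pi_pos], ht.2⟩
  have hst : 0 < sin t := Real.sin_pos_of_pos_of_lt_pi ht.1 (by linarith [ht.2, Real.pi_pos])
  set O := frame i j t with hO
  set D : Matrix (Idx (i + 2) (j + 2)) (Idx (i + 2) (j + 2)) ℝ :=
    O.transpose * (proj (x0 i j t) * G (x0 i j t) * proj (x0 i j t) +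
      Matrix.vecMulVec (x0 i j t).ofLp (x0 i j t).ofLp) * O with hD
  have hdetO : O.transpose.det * O.det = 1 := by
    rw [← Matrix.det_mul, dx_OtO, Matrix.det_one]
  have hdetD : D.det = (proj (x0 i j t) * G (x0 i j t) * proj (x0 i j t) +
      Matrix.vecMulVec (x0 i j t).ofLp (x0 i j t).ofLp).det := by
    rw [hD, Matrix.det_mul, Matrix.det_mul, mul_right_comm, hdetO, one_mul]
  have hent : ∀ r c, D r c = if r = Sum.inl 0 ∨ c = Sum.inl 0 then (if r = c then 1 else 0) else
      form G (x0 i j t) (dxW i j t r) (dxW i j t c) := fun r c => dx_entry t r c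
  set a := form G (x0 i j t) (eA i j) (eA i j) with ha
  set b := form G (x0 i j t) (fB i j) (fB i j) with hb
  -- zero block
  have hz : ∀ r, ¬ dxP i j r → ∀ c, dxP i j c → D r c = 0 := by
    intro r hr c hc
    have hc0 : c ≠ Sum.inl 0 := by
      rcases hc with h | h | h <;> rw [h] <;> simp
    rw [hent]
    rcases dx_not r hr with h | ⟨r', hr', h⟩ | ⟨s', hs', h⟩
    · rw [if_pos (Or.inl h), if_neg]
      rw [h]; exact hc0.symm
    · have h2 := dx_two i r' hr'
      have hr0 : r ≠ Sum.inl 0 := by rw [h]; simpa using h2.1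
      rw [if_neg (by tauto), dx_W_bas t r hr0 (by rw [h]; simp), h]
      rcases hc with h' | h' | h'
      · rw [h', dx_W_eTh]
        exact cross_inl_eTh hG hI t r' hr'
      · rw [h', dx_W_bas t _ (by simp) (by simp)]
        exact cross_inl_inl hG hI t r' 1 (by omega) (by simp) h2.2
      · rw [h', dx_W_bas t _ (by simp) (by simp)]
        exact cross_inl_inr hG hI t r' hr' 1 (by simp)
    · have h2 := dx_two j s' hs'
      rw [if_neg (by rw [h]; simp [hc0]), dx_W_bas t r (by rw [h]; simp)
        (by rw [h]; simpa using h2.1), h]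
      rcases hc with h' | h' | h'
      · rw [h', dx_W_eTh]
        exact cross_inr_eTh hG hI t s' hs'
      · rw [h', dx_W_bas t _ (by simp) (by simp)]
        exact cross_inr_inl hG hI t s' hs' 1 (by simp)
      · rw [h', dx_W_bas t _ (by simp) (by simp)]
        exact cross_inr_inr hG hI t s' 1 (by omega) (by simp) h2.2
  have hdet := Matrix.twoBlockTriangular_det D (dxP i j) hz
  -- diagonal block
  have hdg : Matrix.toSquareBlockProp D (fun c => ¬ dxP i j c) =
      Matrix.diagonal (fun c : {c // ¬ dxP i j c} => D c c) := by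
    ext r c
    by_cases hrc : r = c
    · subst hrc
      rw [Matrix.diagonal_apply_eq]
      rfl
    · rw [Matrix.diagonal_apply_ne _ hrc]
      have hrc' : (r : Idx (i + 2) (j + 2)) ≠ c := fun h => hrc (Subtype.ext h)
      show D r c = 0
      rw [hent]
      by_cases h0 : (r : Idx (i + 2) (j + 2)) = Sum.inl 0 ∨ (c : Idx (i + 2) (j + 2)) = Sum.inl 0
      · rw [if_pos h0, if_neg hrc']
      · rw [if_neg h0]
        push Not at h0
        rcases dx_not _ r.2 with h | ⟨r', hr', h⟩ | ⟨r', hr', h⟩
        · exact absurd h h0.1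
        · have h2 := dx_two i r' hr'
          rcases dx_not _ c.2 with h' | ⟨c', hc', h'⟩ | ⟨c', hc', h'⟩
          · exact absurd h' h0.2
          · have h3 := dx_two i c' hc'
            rw [h, h', dx_W_bas t _ (by simpa using h2.1) (by simp),
              dx_W_bas t _ (by simpa using h3.1) (by simp)]
            exact cross_inl_inl hG hI t r' c' (by omega) (by omega) (by
              intro h4; exact hrc' (by rw [h, h', h4]))
          · have h3 := dx_two j c' hc'
            rw [h, h', dx_W_bas t _ (by simpa using h2.1) (by simp),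
              dx_W_bas t _ (by simp) (by simpa using h3.1)]
            exact cross_inl_inr hG hI t r' hr' c' (by omega)
        · have h2 := dx_two j r' hr'
          rcases dx_not _ c.2 with h' | ⟨c', hc', h'⟩ | ⟨c', hc', h'⟩
          · exact absurd h' h0.2
          · have h3 := dx_two i c' hc'
            rw [h, h', dx_W_bas t _ (by simp) (by simpa using h2.1),
              dx_W_bas t _ (by simpa using h3.1) (by simp)]
            exact cross_inr_inl hG hI t r' hr' c' (by omega)
          · have h3 := dx_two j c' hc'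
            rw [h, h', dx_W_bas t _ (by simp) (by simpa using h2.1),
              dx_W_bas t _ (by simp) (by simpa using h3.1)]
            exact cross_inr_inr hG hI t r' c' (by omega) (by omega) (by
              intro h4; exact hrc' (by rw [h, h', h4]))
  have hdetg : (Matrix.toSquareBlockProp D (fun c => ¬ dxP i j c)).det = a ^ i * b ^ j := by
    rw [hdg, Matrix.det_diagonal]
    have h1 : ∏ c : {c // ¬ dxP i j c}, D c c =
        ∏ c : Idx (i + 2) (j + 2), if dxP i j c then 1 else D c c := by
      rw [Finset.prod_ite, Finset.prod_const_one, one_mul,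
        Finset.prod_subtype (p := fun c => ¬ dxP i j c) _ (by simp)]
    rw [h1, Fintype.prod_sum_type]
    congr 1
    · rw [Fin.prod_univ_succ, Fin.prod_univ_succ]
      have e0 : (if dxP i j (Sum.inl 0) then (1 : ℝ) else D (Sum.inl 0) (Sum.inl 0)) = 1 := by
        split_ifs
        · rfl
        · rw [hent]; simp
      have e1 : (if dxP i j (Sum.inl (Fin.succ 0)) then (1 : ℝ) else
          D (Sum.inl (Fin.succ 0)) (Sum.inl (Fin.succ 0))) = 1 := by
        rw [if_pos]
        right; left; rfl
      rw [e0, e1, one_mul, one_mul]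
      have e2 : ∀ r : Fin i, (if dxP i j (Sum.inl r.succ.succ) then (1 : ℝ) else
          D (Sum.inl r.succ.succ) (Sum.inl r.succ.succ)) = a := by
        intro r
        have hr : 2 ≤ (r.succ.succ : Fin (i + 2)).val := by simp
        have h2 := dx_two i _ hr
        have hnp : ¬ dxP i j (Sum.inl r.succ.succ) := by
          rintro (h | h | h)
          · simp at h
          · exact h2.2 (Sum.inl.inj h)
          · simp at h
        rw [if_neg hnp, hent, if_neg (by simpa using h2.1),
          dx_W_bas t _ (by simpa using h2.1) (by simp)]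
        exact diag_inl hG hI t _ (by omega)
      rw [Finset.prod_congr rfl (fun r _ => e2 r)]
      simp
    · rw [Fin.prod_univ_succ, Fin.prod_univ_succ]
      have e0 : (if dxP i j (Sum.inr 0) then (1 : ℝ) else D (Sum.inr 0) (Sum.inr 0)) = 1 := by
        rw [if_pos]
        left; rfl
      have e1 : (if dxP i j (Sum.inr (Fin.succ 0)) then (1 : ℝ) else
          D (Sum.inr (Fin.succ 0)) (Sum.inr (Fin.succ 0))) = 1 := by
        rw [if_pos]
        right; right; rfl
      rw [e0, e1, one_mul, one_mul]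
      have e2 : ∀ r : Fin j, (if dxP i j (Sum.inr r.succ.succ) then (1 : ℝ) else
          D (Sum.inr r.succ.succ) (Sum.inr r.succ.succ)) = b := by
        intro r
        have hr : 2 ≤ (r.succ.succ : Fin (j + 2)).val := by simp
        have h2 := dx_two j _ hr
        have hnp : ¬ dxP i j (Sum.inr r.succ.succ) := by
          rintro (h | h | h)
          · exact h2.1 (Sum.inr.inj h)
          · simp at h
          · exact h2.2 (Sum.inr.inj h)
        rw [if_neg hnp, hent, if_neg (by simp),
          dx_W_bas t _ (by simp) (by simpa using h2.1)]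
        exact diag_inr hG hI t _ (by omega)
      rw [Finset.prod_congr rfl (fun r _ => e2 r)]
      simp
  -- block of size 3
  have hdet3 : (Matrix.toSquareBlockProp D (dxP i j)).det =
      (slice G).det3 t / (cos t ^ 2 * sin t ^ 2) := by
    let f : Fin 3 → {c : Idx (i + 2) (j + 2) // dxP i j c} :=
      ![⟨Sum.inr 0, Or.inl rfl⟩, ⟨Sum.inl 1, Or.inr (Or.inl rfl)⟩, ⟨Sum.inr 1, Or.inr (Or.inr rfl)⟩]
    have hf : Function.Bijective f := by
      constructor
      · intro x y hxy
        have := congrArg Subtype.val hxy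
        fin_cases x <;> fin_cases y <;> simp [f] at this ⊢
      · rintro ⟨c, hc⟩
        rcases hc with h | h | h
        · exact ⟨0, Subtype.ext h.symm⟩
        · exact ⟨1, Subtype.ext h.symm⟩
        · exact ⟨2, Subtype.ext h.symm⟩
    rw [← Matrix.det_submatrix_equiv_self (Equiv.ofBijective f hf), Matrix.det_fin_three]
    simp only [Matrix.submatrix_apply, Equiv.ofBijective_apply]
    have f0 : (f 0).1 = Sum.inr 0 := rfl
    have f1 : (f 1).1 = Sum.inl 1 := rfl
    have f2 : (f 2).1 = Sum.inr 1 := rfl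
    have w0 : dxW i j t (Sum.inr 0) = eTh i j t := dx_W_eTh t
    have w1 : dxW i j t (Sum.inl 1) = eA i j := by
      rw [dx_W_bas t _ (by simp) (by simp), bas_eA]
    have w2 : dxW i j t (Sum.inr 1) = fB i j := by
      rw [dx_W_bas t _ (by simp) (by simp), bas_fB]
    have key : ∀ x y : Fin 3, Matrix.toSquareBlockProp D (dxP i j) (f x) (f y) =
        form G (x0 i j t) (dxW i j t (f x).1) (dxW i j t (f y).1) := by
      intro x y
      show D (f x).1 (f y).1 = _
      rw [hent, if_neg]
      rintro (h | h)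
      · rcases (f x).2 with h' | h' | h' <;> rw [h'] at h <;> simp at h
      · rcases (f y).2 with h' | h' | h' <;> rw [h'] at h <;> simp at h
    simp only [key, f0, f1, f2, w0, w1, w2]
    rw [form_symm hG hx (eA i j) (eTh i j t), form_symm hG hx (fB i j) (eTh i j t),
      form_symm hG hx (fB i j) (eA i j)]
    rw [eq_div_iff (by positivity)]
    unfold Slice.det3 Slice.delta slice
    ring
  have ha0 : 0 ≤ a := by
    apply le_of_lt
    apply hG.pos _ hx
    · unfold x0 eA; rw [inner_vec4]; ring
    · intro h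
      have := congrArg (fun v : Sp (i + 2) (j + 2) => v.ofLp (Sum.inl 1)) h
      simp [eA, vec4] at this
  have hb0 : 0 ≤ b := by
    apply le_of_lt
    apply hG.pos _ hx
    · unfold x0 fB; rw [inner_vec4]; ring
    · intro h
      have := congrArg (fun v : Sp (i + 2) (j + 2) => v.ofLp (Sum.inr 1)) h
      simp [fB, vec4] at this
  have hH11 : √((slice G).H11 t) = cos t * √a := by
    show √(cos t ^ 2 * a) = _
    rw [Real.sqrt_mul (by positivity), Real.sqrt_sq hct.le]
  have hH22 : √((slice G).H22 t) = sin t * √b := by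
    show √(sin t ^ 2 * b) = _
    rw [Real.sqrt_mul (by positivity), Real.sqrt_sq hst.le]
  have hpow : ∀ (x : ℝ) (hx : 0 ≤ x) (k : ℕ), √(x ^ k) = √x ^ k := by
    intro x hx k
    rw [Real.sqrt_eq_iff_mul_self_eq (by positivity) (by positivity), ← mul_pow,
      Real.mul_self_sqrt hx]
  unfold dens
  rw [← hdetD, hdet, hdetg, hdet3, Real.sqrt_mul' _ (by positivity),
    Real.sqrt_mul' _ (by positivity), hpow a ha0, hpow b hb0, hH11, hH22,
    Real.sqrt_div' _ (by positivity), Real.sqrt_mul (by positivity), Real.sqrt_sq hct.le,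
    Real.sqrt_sq hst.le]
  field_simp
  ring

end Pool.Agent.Lib.MP_c3a607_gt.Rp
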