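import Mathlib

namespace Pool.Agent.Lib.MP_c3a607_gt.Rp

open Set Real

/-- Coefficients of a T²-invariant metric in the coordinates (θ, α, β) of the three-sphere. -/
structure Slice where
  E : ℝ → ℝ
  F1 : ℝ → ℝ
  F2 : ℝ → ℝ
  H11 : ℝ → ℝ
  H12 : ℝ → ℝ
  H22 : ℝ → ℝ

namespace Slice

variable (S : Slice)

/-- The quadratic form at t, evaluated at (τ, x, y). -/
def Q (t τ x y : ℝ) : ℝ :=
  S.E t * τ ^ 2 + 2 * S.F1 t * τ * x + 2 * S.F2 t * τ * y + S.H11 t * x ^ 2 +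
    2 * S.H12 t * x * y + S.H22 t * y ^ 2

/-- Determinant of the fibre part. -/
def delta (t : ℝ) : ℝ := S.H11 t * S.H22 t - S.H12 t ^ 2

/-- Determinant of the form. -/
def det3 (t : ℝ) : ℝ :=
  S.E t * S.delta t - (S.H22 t * S.F1 t ^ 2 - 2 * S.H12 t * S.F1 t * S.F2 t +
    S.H11 t * S.F2 t ^ 2)

/-- Length of the normal part of d/dθ. -/
noncomputable def m (t : ℝ) : ℝ := √(S.det3 t / S.delta t)

/-- Square of the norm of the covector (a, b) for the dual fibre metric. -/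
noncomputable def rho (a b t : ℝ) : ℝ :=
  (S.H22 t * a ^ 2 - 2 * S.H12 t * a * b + S.H11 t * b ^ 2) / S.delta t

/-- Regularity and behaviour at the ends. -/
structure Ok : Prop where
  cE : ContinuousOn S.E (Icc 0 (π / 2))
  cF1 : ContinuousOn S.F1 (Icc 0 (π / 2))
  cF2 : ContinuousOn S.F2 (Icc 0 (π / 2))
  cH11 : ContinuousOn S.H11 (Icc 0 (π / 2))
  cH12 : ContinuousOn S.H12 (Icc 0 (π / 2))
  cH22 : ContinuousOn S.H22 (Icc 0 (π / 2))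
  pos : ∀ t ∈ Ioo 0 (π / 2), ∀ τ x y : ℝ, (τ ≠ 0 ∨ x ≠ 0 ∨ y ≠ 0) → 0 < S.Q t τ x y
  left11 : 0 < S.H11 0
  left12 : S.H12 0 = 0
  left22 : S.H22 0 = 0
  right11 : S.H11 (π / 2) = 0
  right12 : S.H12 (π / 2) = 0
  right22 : 0 < S.H22 (π / 2)

/-- Closed curves which turn by an odd half turn in both circles have length at least L. -/
def SysGe (L : ℝ) : Prop :=
  ∀ θ α β : ℝ → ℝ, ContDiff ℝ 1 θ → ContDiff ℝ 1 α → ContDiff ℝ 1 β →
    (∀ s, θ s ∈ Ioo 0 (π / 2)) → θ 1 = θ 0 → (α 1 = α 0 + π ∨ α 1 = α 0 - π) →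
    (β 1 = β 0 + π ∨ β 1 = β 0 - π) →
    L ≤ ∫ s in (0 : ℝ)..1, √(S.Q (θ s) (deriv θ s) (deriv α s) (deriv β s))

end Slice

end Pool.Agent.Lib.MP_c3a607_gt.Rp
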