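import Pool.Agent.Lib.MP_c3a607_gt.Rp.Defs
import Pool.Agent.Lib.MP_c3a607_gt.Rp.Slice

namespace Pool.Agent.Lib.MP_c3a607_gt.Rp

open Set Real MeasureTheory

variable {i j : ℕ}

/-- The vector with first block (a, a', 0, ...) and second block (b, b', 0, ...). -/
noncomputable def vec4 (i j : ℕ) (a a' b b' : ℝ) : Sp (i + 2) (j + 2) :=
  WithLp.toLp 2 (Sum.elim
    (fun r : Fin (i + 2) => if r = 0 then a else if r = 1 then a' else 0)
    (fun r : Fin (j + 2) => if r = 0 then b else if r = 1 then b' else 0))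

/-- The point (cos t, 0, ...; sin t, 0, ...) of the sphere. -/
noncomputable def x0 (i j : ℕ) (t : ℝ) : Sp (i + 2) (j + 2) := vec4 i j (cos t) 0 (sin t) 0

/-- The derivative of x0. -/
noncomputable def eTh (i j : ℕ) (t : ℝ) : Sp (i + 2) (j + 2) := vec4 i j (-sin t) 0 (cos t) 0

/-- Unit vector tangent to the first orbit. -/
noncomputable def eA (i j : ℕ) : Sp (i + 2) (j + 2) := vec4 i j 0 1 0 0

/-- Unit vector tangent to the second orbit. -/
noncomputable def fB (i j : ℕ) : Sp (i + 2) (j + 2) := vec4 i j 0 0 0 1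

/-- The metric of the three-dimensional slice. -/
noncomputable def slice (G : Sp (i + 2) (j + 2) → Matrix (Idx (i + 2) (j + 2)) (Idx (i + 2) (j + 2)) ℝ) :
    Slice where
  E := fun t => form G (x0 i j t) (eTh i j t) (eTh i j t)
  F1 := fun t => cos t * form G (x0 i j t) (eTh i j t) (eA i j)
  F2 := fun t => sin t * form G (x0 i j t) (eTh i j t) (fB i j)
  H11 := fun t => cos t ^ 2 * form G (x0 i j t) (eA i j) (eA i j)
  H12 := fun t => cos t * sin t * form G (x0 i j t) (eA i j) (fB i j)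
  H22 := fun t => sin t ^ 2 * form G (x0 i j t) (fB i j) (fB i j)

/-- The curve of the slice with coordinates θ, α, β. -/
noncomputable def curve (i j : ℕ) (θ α β : ℝ → ℝ) (s : ℝ) : Sp (i + 2) (j + 2) :=
  vec4 i j (cos (θ s) * cos (α s)) (cos (θ s) * sin (α s))
    (sin (θ s) * cos (β s)) (sin (θ s) * sin (β s))

/-- Rotation by φ in the plane of the first two coordinates. -/
noncomputable def rot (n : ℕ) (φ : ℝ) : Matrix (Fin (n + 2)) (Fin (n + 2)) ℝ := fun r c =>
  if r = 0 ∧ c = 0 then cos φ else if r = 0 ∧ c = 1 then -sin φ else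
  if r = 1 ∧ c = 0 then sin φ else if r = 1 ∧ c = 1 then cos φ else
  if r = c then 1 else 0

/-- Norm of the first block. -/
noncomputable def nrm1 {k l : ℕ} (x : Sp k l) : ℝ := √(∑ r : Fin k, x (Sum.inl r) ^ 2)

end Pool.Agent.Lib.MP_c3a607_gt.Rp
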