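import Pool.Agent.Lib.MP_c3a607_gt.Rp.Geo

namespace Pool.Agent.Lib.MP_c3a607_gt.Rp

open Set Real MeasureTheory

variable {i j k l : ℕ}

theorem form_add_left (G : Sp k l → Matrix (Idx k l) (Idx k l) ℝ) (x u v w : Sp k l) :
    form G x (u + v) w = form G x u w + form G x v w := by
  unfold form
  rw [WithLp.ofLp_add, add_dotProduct]

theorem form_smul_left (G : Sp k l → Matrix (Idx k l) (Idx k l) ℝ) (x v w : Sp k l) (c : ℝ) :
    form G x (c • v) w = c * form G x v w := by
  unfold form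
  rw [WithLp.ofLp_smul, smul_dotProduct, smul_eq_mul]

theorem form_add_right (G : Sp k l → Matrix (Idx k l) (Idx k l) ℝ) (x u v w : Sp k l) :
    form G x u (v + w) = form G x u v + form G x u w := by
  unfold form
  rw [WithLp.ofLp_add, Matrix.mulVec_add, dotProduct_add]

theorem form_smul_right (G : Sp k l → Matrix (Idx k l) (Idx k l) ℝ) (x v w : Sp k l) (c : ℝ) :
    form G x v (c • w) = c * form G x v w := by
  unfold form
  rw [WithLp.ofLp_smul, Matrix.mulVec_smul, dotProduct_smul, smul_eq_mul]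

theorem form_symm {G : Sp k l → Matrix (Idx k l) (Idx k l) ℝ} (hG : IsMetric G) {x : Sp k l}
    (hx : x ∈ Metric.sphere (0 : Sp k l) 1) (v w : Sp k l) : form G x v w = form G x w v := by
  unfold form
  have h := hG.symm x hx
  rw [Matrix.dotProduct_mulVec, dotProduct_comm, ← Matrix.mulVec_transpose, h.eq]

private theorem inner_sp (x y : Sp k l) : inner ℝ x y = x.ofLp ⬝ᵥ y.ofLp := by
  rw [PiLp.inner_apply, dotProduct]
  refine Finset.sum_congr rfl fun r _ => ?_
  simp [mul_comm]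

private theorem inner_sp' (x y : Sp k l) : inner ℝ x y =
    (∑ r : Fin k, x.ofLp (Sum.inl r) * y.ofLp (Sum.inl r)) +
      ∑ r : Fin l, x.ofLp (Sum.inr r) * y.ofLp (Sum.inr r) := by
  rw [inner_sp, dotProduct, Fintype.sum_sum_type]

theorem inner_vec4 (a a' b b' c c' d d' : ℝ) :
    inner ℝ (vec4 i j a a' b b') (vec4 i j c c' d d') = a * c + a' * c' + b * d + b' * d' := by
  rw [inner_sp']
  simp only [vec4, Sum.elim_inl, Sum.elim_inr, Fin.sum_univ_succ]
  simp [Fin.ext_iff]
  ring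

theorem x0_mem (t : ℝ) : x0 i j t ∈ Metric.sphere (0 : Sp (i + 2) (j + 2)) 1 := by
  rw [mem_sphere_zero_iff_norm]
  have h : inner ℝ (x0 i j t) (x0 i j t) = (1 : ℝ) := by
    unfold x0
    rw [inner_vec4]
    nlinarith [Real.sin_sq_add_cos_sq t]
  rw [real_inner_self_eq_norm_sq] at h
  nlinarith [norm_nonneg (x0 i j t)]

private theorem rot_apply' (n : ℕ) (φ : ℝ) (r c : Fin (n + 2)) : rot n φ r c =
    if r = 0 ∧ c = 0 then cos φ else if r = 0 ∧ c = 1 then -sin φ else
    if r = 1 ∧ c = 0 then sin φ else if r = 1 ∧ c = 1 then cos φ else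
    if r = c then 1 else 0 := rfl
private theorem rot_00 (n : ℕ) (φ : ℝ) : rot n φ 0 0 = cos φ := by simp [rot]
private theorem rot_01 (n : ℕ) (φ : ℝ) : rot n φ 0 1 = -sin φ := by simp [rot]
private theorem rot_10 (n : ℕ) (φ : ℝ) : rot n φ 1 0 = sin φ := by simp [rot]
private theorem rot_11 (n : ℕ) (φ : ℝ) : rot n φ 1 1 = cos φ := by simp [rot]
private theorem rot_0s (n : ℕ) (φ : ℝ) (r : Fin n) : rot n φ 0 r.succ.succ = 0 := by
  simp [rot, Fin.ext_iff]
private theorem rot_1s (n : ℕ) (φ : ℝ) (r : Fin n) : rot n φ 1 r.succ.succ = 0 := by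
  simp [rot, Fin.ext_iff]
private theorem rot_s0 (n : ℕ) (φ : ℝ) (r : Fin n) : rot n φ r.succ.succ 0 = 0 := by
  simp [rot, Fin.ext_iff]
private theorem rot_s1 (n : ℕ) (φ : ℝ) (r : Fin n) : rot n φ r.succ.succ 1 = 0 := by
  simp [rot, Fin.ext_iff]
private theorem rot_ss (n : ℕ) (φ : ℝ) (r c : Fin n) :
    rot n φ r.succ.succ c.succ.succ = if r = c then 1 else 0 := by
  simp [rot, Fin.ext_iff]

private theorem sum2 (n : ℕ) (f : Fin (n + 2) → ℝ) :
    ∑ r, f r = f 0 + (f 1 + ∑ r : Fin n, f r.succ.succ) := by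
  rw [Fin.sum_univ_succ, Fin.sum_univ_succ]
  rfl

private theorem cases2 {n : ℕ} {P : Fin (n + 2) → Prop} (h0 : P 0) (h1 : P 1)
    (h2 : ∀ r : Fin n, P r.succ.succ) (r : Fin (n + 2)) : P r := by
  refine Fin.cases h0 (fun r => ?_) r
  refine Fin.cases ?_ (fun r => h2 r) r
  exact h1

theorem rot_mem (n : ℕ) (φ : ℝ) : rot n φ ∈ Matrix.orthogonalGroup (Fin (n + 2)) ℝ := by
  rw [Matrix.mem_orthogonalGroup_iff]
  have hs := Real.sin_sq_add_cos_sq φ
  ext r c
  rw [Matrix.mul_apply, sum2]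
  simp only [Matrix.transpose_apply]
  revert c
  refine cases2 (P := fun r => ∀ c, rot n φ r 0 * rot n φ c 0 + (rot n φ r 1 * rot n φ c 1 +
    ∑ x : Fin n, rot n φ r x.succ.succ * rot n φ c x.succ.succ) = (1 : Matrix _ _ ℝ) r c) ?_ ?_ ?_ r
  · intro c
    refine cases2 (P := fun c => rot n φ 0 0 * rot n φ c 0 + (rot n φ 0 1 * rot n φ c 1 +
      ∑ x : Fin n, rot n φ 0 x.succ.succ * rot n φ c x.succ.succ) = (1 : Matrix _ _ ℝ) 0 c)
      ?_ ?_ ?_ c
    · simp only [rot_00, rot_01, rot_0s, Matrix.one_apply_eq, zero_mul, Finset.sum_const_zero]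
      nlinarith
    · have h : (1 : Matrix (Fin (n + 2)) (Fin (n + 2)) ℝ) 0 1 = 0 :=
        Matrix.one_apply_ne (by simp [Fin.ext_iff])
      simp only [rot_00, rot_01, rot_0s, rot_10, rot_11, h, zero_mul, Finset.sum_const_zero]
      ring
    · intro c
      have h : (1 : Matrix (Fin (n + 2)) (Fin (n + 2)) ℝ) 0 c.succ.succ = 0 :=
        Matrix.one_apply_ne (by simp [Fin.ext_iff])
      simp only [rot_0s, rot_s0, rot_s1, h, zero_mul, mul_zero, Finset.sum_const_zero, add_zero]
  · intro c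
    refine cases2 (P := fun c => rot n φ 1 0 * rot n φ c 0 + (rot n φ 1 1 * rot n φ c 1 +
      ∑ x : Fin n, rot n φ 1 x.succ.succ * rot n φ c x.succ.succ) = (1 : Matrix _ _ ℝ) 1 c)
      ?_ ?_ ?_ c
    · have h : (1 : Matrix (Fin (n + 2)) (Fin (n + 2)) ℝ) 1 0 = 0 :=
        Matrix.one_apply_ne (by simp [Fin.ext_iff])
      simp only [rot_00, rot_01, rot_1s, rot_10, rot_11, h, zero_mul, Finset.sum_const_zero]
      ring
    · simp only [rot_10, rot_11, rot_1s, Matrix.one_apply_eq, zero_mul, Finset.sum_const_zero]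
      nlinarith
    · intro c
      have h : (1 : Matrix (Fin (n + 2)) (Fin (n + 2)) ℝ) 1 c.succ.succ = 0 :=
        Matrix.one_apply_ne (by simp [Fin.ext_iff])
      simp only [rot_1s, rot_s0, rot_s1, h, zero_mul, mul_zero, Finset.sum_const_zero, add_zero]
  · intro r c
    refine cases2 (P := fun c => rot n φ r.succ.succ 0 * rot n φ c 0 +
      (rot n φ r.succ.succ 1 * rot n φ c 1 +
      ∑ x : Fin n, rot n φ r.succ.succ x.succ.succ * rot n φ c x.succ.succ)
        = (1 : Matrix _ _ ℝ) r.succ.succ c) ?_ ?_ ?_ c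
    · have h : (1 : Matrix (Fin (n + 2)) (Fin (n + 2)) ℝ) r.succ.succ 0 = 0 :=
        Matrix.one_apply_ne (by simp [Fin.ext_iff])
      simp only [rot_s0, rot_s1, rot_0s, h, zero_mul, mul_zero, Finset.sum_const_zero, add_zero]
    · have h : (1 : Matrix (Fin (n + 2)) (Fin (n + 2)) ℝ) r.succ.succ 1 = 0 :=
        Matrix.one_apply_ne (by simp [Fin.ext_iff])
      simp only [rot_s0, rot_s1, rot_1s, h, zero_mul, mul_zero, Finset.sum_const_zero, add_zero]
    · intro c
      simp only [rot_s0, rot_s1, rot_ss, zero_mul, zero_add]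
      rw [Matrix.one_apply, Finset.sum_eq_single c]
      · by_cases hrc : r = c
        · subst hrc
          simp
        · have h2 : ¬ (r.succ.succ = c.succ.succ) := fun h =>
            hrc (Fin.succ_injective _ (Fin.succ_injective _ h))
          rw [if_neg hrc, if_neg h2, zero_mul]
      · intro b _ hb
        rw [if_neg (Ne.symm hb), mul_zero]
      · intro h
        exact absurd (Finset.mem_univ _) h

theorem rot_det (n : ℕ) (φ : ℝ) : (rot n φ).det = 1 := by
  induction n with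
  | zero =>
    rw [Matrix.det_fin_two, rot_00, rot_01, rot_10, rot_11]
    nlinarith [Real.sin_sq_add_cos_sq φ]
  | succ n ih =>
    rw [Matrix.det_succ_row _ (Fin.last (n + 2)), Finset.sum_eq_single (Fin.last (n + 2))]
    · have h1 : rot (n + 1) φ (Fin.last (n + 2)) (Fin.last (n + 2)) = 1 := by
        rw [rot_apply', if_neg, if_neg, if_neg, if_neg, if_pos rfl]
        · rintro ⟨h, _⟩; simp [Fin.ext_iff] at h
        · rintro ⟨h, _⟩; simp [Fin.ext_iff] at h
        · rintro ⟨h, _⟩; simp [Fin.ext_iff] at h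
        · rintro ⟨h, _⟩; simp [Fin.ext_iff] at h
      have h2 : ((rot (n + 1) φ).submatrix (Fin.last (n + 2)).succAbove
          (Fin.last (n + 2)).succAbove) = rot n φ := by
        ext r c
        rw [Matrix.submatrix_apply, Fin.succAbove_last, rot_apply', rot_apply']
        simp only [Fin.ext_iff, Fin.val_castSucc, Fin.val_zero, Fin.val_one]
      rw [h1, h2, ih]
      simp [← two_mul]
    · intro b _ hb
      have h1 : rot (n + 1) φ (Fin.last (n + 2)) b = 0 := by
        rw [rot_apply', if_neg, if_neg, if_neg, if_neg, if_neg (Ne.symm hb)]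
        · rintro ⟨h, _⟩; simp [Fin.ext_iff] at h
        · rintro ⟨h, _⟩; simp [Fin.ext_iff] at h
        · rintro ⟨h, _⟩; simp [Fin.ext_iff] at h
        · rintro ⟨h, _⟩; simp [Fin.ext_iff] at h
      rw [h1]
      simp
    · intro h
      exact absurd (Finset.mem_univ _) h

theorem act_rot_vec4 (φ ψ a a' b b' : ℝ) :
    act (rot i φ) (rot j ψ) (vec4 i j a a' b b') =
      vec4 i j (cos φ * a - sin φ * a') (sin φ * a + cos φ * a')
        (cos ψ * b - sin ψ * b') (sin ψ * b + cos ψ * b') := by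
  have key : ∀ (n : ℕ) (φ a a' : ℝ),
      (rot n φ).mulVec (fun r : Fin (n + 2) => if r = 0 then a else if r = 1 then a' else 0) =
      fun r : Fin (n + 2) => if r = 0 then cos φ * a - sin φ * a' else
        if r = 1 then sin φ * a + cos φ * a' else 0 := by
    intro n φ a a'
    funext r
    rw [Matrix.mulVec, dotProduct, sum2]
    refine cases2 (P := fun r => rot n φ r 0 * (if (0 : Fin (n + 2)) = 0 then a else
      if (0 : Fin (n + 2)) = 1 then a' else 0) + (rot n φ r 1 * (if (1 : Fin (n + 2)) = 0 then a else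
      if (1 : Fin (n + 2)) = 1 then a' else 0) + ∑ x : Fin n, rot n φ r x.succ.succ *
      (if x.succ.succ = 0 then a else if x.succ.succ = 1 then a' else 0)) =
      if r = 0 then cos φ * a - sin φ * a' else
        if r = 1 then sin φ * a + cos φ * a' else 0) ?_ ?_ ?_ r
    · simp only [rot_00, rot_01, rot_0s, zero_mul, Finset.sum_const_zero]
      simp [Fin.ext_iff]
      ring
    · simp only [rot_10, rot_11, rot_1s, zero_mul, Finset.sum_const_zero]
      simp [Fin.ext_iff]
    · intro r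
      simp only [rot_s0, rot_s1, rot_ss, zero_mul]
      simp [Fin.ext_iff]
  unfold act vec4
  congr 1
  rw [Matrix.fromBlocks_mulVec]
  simp only [Sum.elim_comp_inl, Sum.elim_comp_inr, Matrix.zero_mulVec, add_zero, zero_add, key]

private theorem inner_act_aux {A : Matrix (Fin k) (Fin k) ℝ}
    (hA : A ∈ Matrix.orthogonalGroup (Fin k) ℝ)
    {B : Matrix (Fin l) (Fin l) ℝ} (hB : B ∈ Matrix.orthogonalGroup (Fin l) ℝ) :
    (Matrix.fromBlocks A 0 0 B).transpose * Matrix.fromBlocks A 0 0 B = 1 := by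
  have h1 : A.transpose * A = 1 := by
    have := (Matrix.mem_orthogonalGroup_iff' (Fin k) ℝ).mp hA
    exact this
  have h2 : B.transpose * B = 1 := by
    have := (Matrix.mem_orthogonalGroup_iff' (Fin l) ℝ).mp hB
    exact this
  rw [Matrix.fromBlocks_transpose, Matrix.fromBlocks_multiply, h1, h2]
  simp

/-- act preserves inner products. -/
theorem inner_act {A : Matrix (Fin k) (Fin k) ℝ} (hA : A ∈ Matrix.orthogonalGroup (Fin k) ℝ)
    {B : Matrix (Fin l) (Fin l) ℝ} (hB : B ∈ Matrix.orthogonalGroup (Fin l) ℝ) (x y : Sp k l) :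
    inner ℝ (act A B x) (act A B y) = inner ℝ x y := by
  rw [inner_sp, inner_sp]
  unfold act
  show (Matrix.fromBlocks A 0 0 B).mulVec x.ofLp ⬝ᵥ (Matrix.fromBlocks A 0 0 B).mulVec y.ofLp = _
  rw [Matrix.dotProduct_mulVec, ← Matrix.mulVec_transpose, Matrix.mulVec_mulVec,
    inner_act_aux hA hB, Matrix.one_mulVec]

theorem act_mem_sphere {A : Matrix (Fin k) (Fin k) ℝ}
    (hA : A ∈ Matrix.orthogonalGroup (Fin k) ℝ)
    {B : Matrix (Fin l) (Fin l) ℝ} (hB : B ∈ Matrix.orthogonalGroup (Fin l) ℝ) {x : Sp k l}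
    (hx : x ∈ Metric.sphere (0 : Sp k l) 1) : act A B x ∈ Metric.sphere (0 : Sp k l) 1 := by
  rw [mem_sphere_zero_iff_norm] at hx ⊢
  have h := inner_act hA hB x x
  rw [real_inner_self_eq_norm_sq, real_inner_self_eq_norm_sq, hx] at h
  nlinarith [norm_nonneg (act A B x)]

end Pool.Agent.Lib.MP_c3a607_gt.Rp
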