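import Pool.Agent.Lib.MP_c3a607_gt.Rp.GeoBasic

namespace Pool.Agent.Lib.MP_c3a607_gt.Rp

open MeasureTheory Set Matrix Real Topology

/-- The group SO(k) x SO(l). -/
def soSub (k l : ℕ) :
    Subgroup (Matrix.orthogonalGroup (Fin k) ℝ × Matrix.orthogonalGroup (Fin l) ℝ) where
  carrier := {g | (g.1 : Matrix (Fin k) (Fin k) ℝ).det = 1 ∧
    (g.2 : Matrix (Fin l) (Fin l) ℝ).det = 1}
  one_mem' := by simp
  mul_mem' := by
    rintro a b ⟨ha, ha'⟩ ⟨hb, hb'⟩
    refine ⟨?_, ?_⟩
    · simp [ha, hb]
    · simp [ha', hb']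
  inv_mem' := by
    rintro a ⟨ha, ha'⟩
    refine ⟨?_, ?_⟩
    · have h : ((a.1⁻¹ * a.1 : Matrix.orthogonalGroup (Fin k) ℝ) : Matrix (Fin k) (Fin k) ℝ) = 1 := by
        simp
      have h2 := congrArg Matrix.det h
      simp only [Submonoid.coe_mul, Matrix.det_mul, ha, mul_one, Matrix.det_one] at h2
      exact h2
    · have h : ((a.2⁻¹ * a.2 : Matrix.orthogonalGroup (Fin l) ℝ) : Matrix (Fin l) (Fin l) ℝ) = 1 := by
        simp
      have h2 := congrArg Matrix.det h
      simp only [Submonoid.coe_mul, Matrix.det_mul, ha', mul_one, Matrix.det_one] at h2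
      exact h2

/-- The group SO(k) x SO(l), as a type. -/
abbrev So (k l : ℕ) : Type := ↥(soSub k l)

noncomputable instance (k l : ℕ) : MeasurableSpace (So k l) := borel _

instance (k l : ℕ) : BorelSpace (So k l) := ⟨rfl⟩

instance (k l : ℕ) : IsTopologicalGroup (So k l) := inferInstance

/-- The action on the space. -/
noncomputable def gact {k l : ℕ} (g : So k l) (x : Sp k l) : Sp k l :=
  act (g.1.1 : Matrix (Fin k) (Fin k) ℝ) (g.1.2 : Matrix (Fin l) (Fin l) ℝ) x

variable {k l : ℕ}

theorem og_compact (k : ℕ) :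
    IsCompact ((Matrix.orthogonalGroup (Fin k) ℝ : Submonoid (Matrix (Fin k) (Fin k) ℝ)) :
      Set (Matrix (Fin k) (Fin k) ℝ)) := by
  have hK : IsCompact (Set.pi univ (fun _ : Fin k => Set.pi univ (fun _ : Fin k =>
      Icc (-1 : ℝ) 1))) := isCompact_univ_pi fun _ => isCompact_univ_pi fun _ => isCompact_Icc
  refine IsCompact.of_isClosed_subset hK isClosed_unitary ?_
  intro A hA i _ j _
  have h1 : A * A.transpose = 1 := (Matrix.mem_orthogonalGroup_iff (Fin k) ℝ).mp hA
  have h2 : ∑ j, A i j * A i j = 1 := by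
    have := congrFun (congrFun h1 i) i
    simpa [Matrix.mul_apply] using this
  have h3 : A i j * A i j ≤ ∑ j, A i j * A i j :=
    Finset.single_le_sum (f := fun j => A i j * A i j) (fun _ _ => mul_self_nonneg _)
      (Finset.mem_univ j)
  rw [h2] at h3
  constructor <;> nlinarith

theorem so_compact (k l : ℕ) : CompactSpace (So k l) := by
  have h1 : CompactSpace (Matrix.orthogonalGroup (Fin k) ℝ) :=
    isCompact_iff_compactSpace.mp (og_compact k)
  have h2 : CompactSpace (Matrix.orthogonalGroup (Fin l) ℝ) :=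
    isCompact_iff_compactSpace.mp (og_compact l)
  refine isCompact_iff_compactSpace.mp (IsClosed.isCompact ?_)
  have e1 : Continuous fun g : Matrix.orthogonalGroup (Fin k) ℝ × Matrix.orthogonalGroup (Fin l) ℝ =>
      (g.1 : Matrix (Fin k) (Fin k) ℝ).det :=
    (continuous_subtype_val.comp continuous_fst).matrix_det
  have e2 : Continuous fun g : Matrix.orthogonalGroup (Fin k) ℝ × Matrix.orthogonalGroup (Fin l) ℝ =>
      (g.2 : Matrix (Fin l) (Fin l) ℝ).det :=
    (continuous_subtype_val.comp continuous_snd).matrix_det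
  exact (isClosed_eq e1 continuous_const).inter (isClosed_eq e2 continuous_const)

instance (k l : ℕ) : CompactSpace (So k l) := so_compact k l

theorem gact_cont : Continuous fun p : So k l × Sp k l => gact p.1 p.2 := by
  unfold gact act
  refine (PiLp.continuous_toLp 2 _).comp ?_
  refine Continuous.matrix_mulVec ?_ ?_
  · refine Continuous.matrix_fromBlocks ?_ continuous_const continuous_const ?_
    · exact continuous_subtype_val.comp (continuous_fst.comp (continuous_subtype_val.comp continuous_fst))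
    · exact continuous_subtype_val.comp (continuous_snd.comp (continuous_subtype_val.comp continuous_fst))
  · exact (PiLp.continuous_ofLp 2 _).comp continuous_snd

theorem gact_one (x : Sp k l) : gact 1 x = x := by
  ext p
  simp [gact, act]

theorem gact_mul (g h : So k l) (x : Sp k l) : gact (g * h) x = gact g (gact h x) := by
  ext p
  simp [gact, act, Matrix.mulVec_mulVec, Matrix.fromBlocks_multiply]

theorem gact_inv_gact (g : So k l) (x : Sp k l) : gact g⁻¹ (gact g x) = x := by
  rw [← gact_mul, inv_mul_cancel, gact_one]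

theorem gact_gact_inv (g : So k l) (x : Sp k l) : gact g (gact g⁻¹ x) = x := by
  rw [← gact_mul, mul_inv_cancel, gact_one]

theorem gact_add (g : So k l) (x y : Sp k l) : gact g (x + y) = gact g x + gact g y := by
  ext p
  simp [gact, act, Matrix.mulVec_add]

theorem gact_smul (g : So k l) (c : ℝ) (x : Sp k l) : gact g (c • x) = c • gact g x := by
  ext p
  simp [gact, act, Matrix.mulVec_smul]

theorem gact_neg (g : So k l) (x : Sp k l) : gact g (-x) = -gact g x := by
  have := gact_smul g (-1) x
  simpa using this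

theorem gact_inner (g : So k l) (x y : Sp k l) : inner ℝ (gact g x) (gact g y) = inner ℝ x y :=
  inner_act g.1.1.2 g.1.2.2 x y

theorem gact_norm (g : So k l) (x : Sp k l) : ‖gact g x‖ = ‖x‖ := by
  rw [@norm_eq_sqrt_real_inner _ _ _ (gact g x), gact_inner, ← norm_eq_sqrt_real_inner]

theorem gact_mem (g : So k l) {x : Sp k l} (hx : x ∈ Metric.sphere (0 : Sp k l) 1) :
    gact g x ∈ Metric.sphere (0 : Sp k l) 1 := by
  rw [mem_sphere_zero_iff_norm] at hx ⊢
  rw [gact_norm, hx]

/-- The action as a linear isometry. -/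
noncomputable def gLin (g : So k l) : Sp k l ≃ₗᵢ[ℝ] Sp k l where
  toFun := gact g
  invFun := gact g⁻¹
  map_add' := gact_add g
  map_smul' := gact_smul g
  left_inv := gact_inv_gact g
  right_inv := gact_gact_inv g
  norm_map' := gact_norm g

theorem gLin_apply (g : So k l) (x : Sp k l) : gLin g x = gact g x := rfl

/-- The invariance of a form under the group. -/
theorem form_gact {G : Sp k l → Matrix (Idx k l) (Idx k l) ℝ} (hI : Invariant G) (g : So k l)
    {x v w : Sp k l} (hx : x ∈ Metric.sphere (0 : Sp k l) 1) (hv : inner ℝ x v = 0)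
    (hw : inner ℝ x w = 0) : form G (gact g x) (gact g v) (gact g w) = form G x v w :=
  hI _ g.1.1.2 g.2.1 _ g.1.2.2 g.2.2 x hx v w hv hw

theorem gact_eq {A : Matrix (Fin k) (Fin k) ℝ} (hA : A ∈ Matrix.orthogonalGroup (Fin k) ℝ)
    (hA1 : A.det = 1) {B : Matrix (Fin l) (Fin l) ℝ} (hB : B ∈ Matrix.orthogonalGroup (Fin l) ℝ)
    (hB1 : B.det = 1) (x : Sp k l) :
    gact (⟨(⟨A, hA⟩, ⟨B, hB⟩), ⟨hA1, hB1⟩⟩ : So k l) x = act A B x := rfl

theorem gact_def (g : So k l) (x : Sp k l) : gact g x =
    act (g.1.1 : Matrix (Fin k) (Fin k) ℝ) (g.1.2 : Matrix (Fin l) (Fin l) ℝ) x := rfl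

attribute [irreducible] gact

/-- The invariant probability measure. -/
noncomputable def mu (k l : ℕ) : Measure (So k l) := Measure.haarMeasure ⊤

instance (k l : ℕ) : (mu k l).IsMulLeftInvariant := by unfold mu; infer_instance

instance (k l : ℕ) : IsProbabilityMeasure (mu k l) :=
  ⟨by unfold mu; exact Measure.haarMeasure_self (K₀ := ⊤)⟩

end Pool.Agent.Lib.MP_c3a607_gt.Rp
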