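import Pool.Agent.Lib.MP_c3a607_gt.Rp.Wal

namespace Pool.Agent.Lib.MP_c3a607_gt.Rp

open Set Real MeasureTheory

/-- substitution y = c sin φ -/
private theorem ie_subst {c : ℝ} (hc : 0 < c) {g : ℝ → ENNReal} (hg : ∀ y, c ≤ y → g y = 0) :
    ∫⁻ y in Ioi (0 : ℝ), g y =
      ∫⁻ φ in Ioo 0 (π / 2), ENNReal.ofReal (c * cos φ) * g (c * sin φ) := by
  have h1 : ∫⁻ y in Ioi (0 : ℝ), g y = ∫⁻ y in Ioo (0 : ℝ) c, g y := by
    rw [← Ioo_union_Ici_eq_Ioi hc, lintegral_union measurableSet_Ici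
      (by rw [Set.disjoint_left]; intro x hx hx'; exact absurd hx.2 (not_lt.mpr hx'))]
    rw [setLIntegral_congr_fun measurableSet_Ici (g := fun _ => 0) (fun y hy => hg y hy)]
    simp
  have h2 : (fun φ => c * sin φ) '' Ioo 0 (π / 2) = Ioo 0 c := by
    ext y
    constructor
    · rintro ⟨φ, hφ, rfl⟩
      have h3 : 0 < sin φ := sin_pos_of_pos_of_lt_pi hφ.1 (by linarith [hφ.2, pi_pos])
      have h4 : sin φ < 1 := by
        rw [← sin_pi_div_two]
        exact sin_lt_sin_of_lt_of_le_pi_div_two (by linarith [hφ.1, pi_pos]) le_rfl hφ.2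
      exact ⟨by positivity, by nlinarith⟩
    · intro hy
      have h5 : 0 < y / c := div_pos hy.1 hc
      have h6 : y / c < 1 := by rw [div_lt_one hc]; exact hy.2
      refine ⟨arcsin (y / c), ⟨arcsin_pos.mpr h5, arcsin_lt_pi_div_two.mpr h6⟩, ?_⟩
      show c * sin (arcsin (y / c)) = y
      rw [sin_arcsin (by linarith) h6.le]
      field_simp
  have h3 : ∀ φ ∈ Ioo 0 (π / 2), HasDerivWithinAt (fun φ => c * sin φ) (c * cos φ)
      (Ioo 0 (π / 2)) φ := fun φ _ => ((hasDerivAt_sin φ).const_mul c).hasDerivWithinAt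
  have h4 : InjOn (fun φ => c * sin φ) (Ioo 0 (π / 2)) := by
    intro x hx y hy hxy
    have h5 : sin x = sin y := by
      have : c * sin x = c * sin y := hxy
      exact mul_left_cancel₀ hc.ne' this
    exact injOn_sin ⟨by linarith [hx.1, pi_pos], hx.2.le⟩ ⟨by linarith [hy.1, pi_pos], hy.2.le⟩ h5
  rw [h1, ← h2, lintegral_image_eq_lintegral_abs_deriv_mul measurableSet_Ioo h3 h4]
  apply setLIntegral_congr_fun measurableSet_Ioo
  intro φ hφ
  have h5 : 0 < cos φ := cos_pos_of_mem_Ioo ⟨by linarith [hφ.1, pi_pos], hφ.2⟩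
  show ENNReal.ofReal |c * cos φ| * g (c * sin φ) = ENNReal.ofReal (c * cos φ) * g (c * sin φ)
  rw [abs_of_pos (by positivity)]

private theorem ie_wal (m n : ℕ) {K : ℝ} (hK : 0 ≤ K) :
    ∫⁻ φ in Ioo 0 (π / 2), ENNReal.ofReal (K * (cos φ ^ m * sin φ ^ n)) =
      ENNReal.ofReal (K * wal m n) := by
  have hpi : (0 : ℝ) ≤ π / 2 := by positivity
  rw [← ofReal_integral_eq_lintegral_ofReal]
  · congr 1
    unfold wal
    rw [← intervalIntegral.integral_const_mul, intervalIntegral.integral_of_le hpi,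
      integral_Ioc_eq_integral_Ioo]
  · have hc : Continuous fun φ : ℝ => K * (cos φ ^ m * sin φ ^ n) := by fun_prop
    exact (hc.integrableOn_Icc (a := 0) (b := π / 2)).mono_set Ioo_subset_Icc_self
  · rw [Filter.EventuallyLE, ae_restrict_iff' measurableSet_Ioo]
    filter_upwards with φ hφ
    have h5 : 0 < cos φ := cos_pos_of_mem_Ioo ⟨by linarith [hφ.1, pi_pos], hφ.2⟩
    have h3 : 0 < sin φ := sin_pos_of_pos_of_lt_pi hφ.1 (by linarith [hφ.2, pi_pos])
    show 0 ≤ K * (cos φ ^ m * sin φ ^ n)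
    positivity

theorem int_ellipse (i j : ℕ) {P R : ℝ} (hP : 0 < P) (hR : 0 < R) :
    ∫⁻ a in Ioi (0 : ℝ), ∫⁻ b in Ioi (0 : ℝ),
        ENNReal.ofReal (a ^ i * b ^ j * √(1 - (a ^ 2 / P + b ^ 2 / R))) =
      ENNReal.ofReal (√P ^ (i + 1) * √R ^ (j + 1) * (wal 2 j * wal (j + 3) i)) := by
  have hsP : 0 < √P := sqrt_pos.mpr hP
  have hsR : 0 < √R := sqrt_pos.mpr hR
  have hW : 0 < wal 2 j := wal_pos 2 j
  -- the inner integral
  have hin : ∀ a ∈ Ioi (0 : ℝ), ∫⁻ b in Ioi (0 : ℝ),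
      ENNReal.ofReal (a ^ i * b ^ j * √(1 - (a ^ 2 / P + b ^ 2 / R))) =
      ENNReal.ofReal (a ^ i * √R ^ (j + 1) * √(1 - a ^ 2 / P) ^ (j + 2) * wal 2 j) := by
    intro a ha
    have ha' : 0 < a := ha
    rcases le_or_gt (1 - a ^ 2 / P) 0 with h | h
    · rw [sqrt_eq_zero_of_nonpos h]
      rw [setLIntegral_congr_fun measurableSet_Ioi (g := fun _ => 0)]
      · simp
      · intro b hb
        have : 0 ≤ b ^ 2 / R := by positivity
        show ENNReal.ofReal (a ^ i * b ^ j * √(1 - (a ^ 2 / P + b ^ 2 / R))) = 0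
        rw [sqrt_eq_zero_of_nonpos (by linarith)]
        simp
    · set s := √(1 - a ^ 2 / P) with hs
      have hs0 : 0 < s := sqrt_pos.mpr h
      have hs2 : s ^ 2 = 1 - a ^ 2 / P := sq_sqrt h.le
      have hR2 : √R ^ 2 = R := sq_sqrt hR.le
      rw [ie_subst (c := √R * s) (by positivity)]
      · rw [← ie_wal 2 j (K := a ^ i * √R ^ (j + 1) * s ^ (j + 2)) (by positivity)]
        apply setLIntegral_congr_fun measurableSet_Ioo
        intro φ hφ
        have h5 : 0 < cos φ := cos_pos_of_mem_Ioo ⟨by linarith [hφ.1, pi_pos], hφ.2⟩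
        have h3 : 0 < sin φ := sin_pos_of_pos_of_lt_pi hφ.1 (by linarith [hφ.2, pi_pos])
        have h6 : 1 - (a ^ 2 / P + (√R * s * sin φ) ^ 2 / R) = (s * cos φ) ^ 2 := by
          have h7 : (√R * s * sin φ) ^ 2 / R = s ^ 2 * sin φ ^ 2 := by
            rw [mul_pow, mul_pow, hR2]
            field_simp
          rw [h7, mul_pow, cos_sq', hs2]
          ring
        show ENNReal.ofReal (√R * s * cos φ) * ENNReal.ofReal (a ^ i * (√R * s * sin φ) ^ j *
          √(1 - (a ^ 2 / P + (√R * s * sin φ) ^ 2 / R))) = ENNReal.ofReal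
            (a ^ i * √R ^ (j + 1) * s ^ (j + 2) * (cos φ ^ 2 * sin φ ^ j))
        rw [h6, sqrt_sq (by positivity), ← ENNReal.ofReal_mul (by positivity)]
        congr 1
        ring
      · intro y hy
        have h8 : R * s ^ 2 ≤ y ^ 2 := by
          have : (√R * s) ^ 2 ≤ y ^ 2 := pow_le_pow_left₀ (by positivity) hy 2
          rwa [mul_pow, hR2] at this
        have h9 : s ^ 2 ≤ y ^ 2 / R := by
          rw [le_div_iff₀ hR]
          linarith
        show ENNReal.ofReal (a ^ i * y ^ j * √(1 - (a ^ 2 / P + y ^ 2 / R))) = 0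
        rw [sqrt_eq_zero_of_nonpos (by linarith)]
        simp
  rw [setLIntegral_congr_fun measurableSet_Ioi hin, ie_subst (c := √P) hsP]
  · have hP2 : √P ^ 2 = P := sq_sqrt hP.le
    have h10 : √P ^ (i + 1) * √R ^ (j + 1) * (wal 2 j * wal (j + 3) i) =
        √P ^ (i + 1) * √R ^ (j + 1) * wal 2 j * wal (j + 3) i := by ring
    rw [h10, ← ie_wal (j + 3) i (K := √P ^ (i + 1) * √R ^ (j + 1) * wal 2 j) (by positivity)]
    apply setLIntegral_congr_fun measurableSet_Ioo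
    intro φ hφ
    have h5 : 0 < cos φ := cos_pos_of_mem_Ioo ⟨by linarith [hφ.1, pi_pos], hφ.2⟩
    have h3 : 0 < sin φ := sin_pos_of_pos_of_lt_pi hφ.1 (by linarith [hφ.2, pi_pos])
    have h6 : 1 - (√P * sin φ) ^ 2 / P = cos φ ^ 2 := by
      have h7 : (√P * sin φ) ^ 2 / P = sin φ ^ 2 := by
        rw [mul_pow, hP2]
        field_simp
      rw [h7, cos_sq']
    show ENNReal.ofReal (√P * cos φ) * ENNReal.ofReal ((√P * sin φ) ^ i * √R ^ (j + 1) *
      √(1 - (√P * sin φ) ^ 2 / P) ^ (j + 2) * wal 2 j) = ENNReal.ofReal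
        (√P ^ (i + 1) * √R ^ (j + 1) * wal 2 j * (cos φ ^ (j + 3) * sin φ ^ i))
    rw [h6, sqrt_sq h5.le, ← ENNReal.ofReal_mul (by positivity)]
    congr 1
    ring
  · intro y hy
    have hP2 : √P ^ 2 = P := sq_sqrt hP.le
    have h8 : P ≤ y ^ 2 := by
      have : (√P) ^ 2 ≤ y ^ 2 := pow_le_pow_left₀ (by positivity) hy 2
      rwa [hP2] at this
    have h9 : 1 ≤ y ^ 2 / P := by
      rw [le_div_iff₀ hP]
      linarith
    have h11 : √(1 - y ^ 2 / P) = 0 := sqrt_eq_zero_of_nonpos (by linarith)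
    show ENNReal.ofReal (y ^ i * √R ^ (j + 1) * √(1 - y ^ 2 / P) ^ (j + 2) * wal 2 j) = 0
    rw [h11]
    simp

end Pool.Agent.Lib.MP_c3a607_gt.Rp
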