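import Mathlib

namespace Pool.Agent.Lib.MP_c3a607_gt.Rp

open Set Real MeasureTheory

private theorem isx_cut {f : ℝ → ℝ} (hf : Continuous f) {c : ℝ} (hc : 0 ≤ c)
    (hpos : ∀ a ∈ Ioc 0 c, 0 ≤ f a) {F : ℝ → ENNReal}
    (h1 : ∀ a ∈ Ioc 0 c, F a = ENNReal.ofReal (f a)) (h2 : ∀ a ∈ Ioi c, F a = 0) :
    ∫⁻ a in Ioi (0 : ℝ), F a = ENNReal.ofReal (∫ a in (0 : ℝ)..c, f a) := by
  rw [← Ioc_union_Ioi_eq_Ioi hc, lintegral_union measurableSet_Ioi (Ioc_disjoint_Ioi le_rfl),
    setLIntegral_congr_fun measurableSet_Ioc h1, setLIntegral_congr_fun measurableSet_Ioi h2,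
    lintegral_zero, add_zero, intervalIntegral.integral_of_le hc, ofReal_integral_eq_lintegral_ofReal]
  · exact (hf.integrableOn_Icc (a := 0) (b := c)).mono_set Ioc_subset_Icc_self
  · exact (ae_restrict_iff' measurableSet_Ioc).mpr (Filter.Eventually.of_forall hpos)

private theorem isx_inner (j : ℕ) (d : ℝ) :
    ∫ b in (0 : ℝ)..d, b ^ j * (d - b) = d ^ (j + 2) / ((j + 1) * (j + 2)) := by
  have hd : ∀ b ∈ uIcc (0 : ℝ) d, HasDerivAt
      (fun b : ℝ => d * b ^ (j + 1) / (j + 1) - b ^ (j + 2) / (j + 2)) (b ^ j * (d - b)) b := by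
    intro b _
    have h1 : HasDerivAt (fun b : ℝ => b ^ (j + 1)) (((j + 1 : ℕ) : ℝ) * b ^ j) b := by
      simpa using hasDerivAt_pow (j + 1) b
    have h2 : HasDerivAt (fun b : ℝ => b ^ (j + 2)) (((j + 2 : ℕ) : ℝ) * b ^ (j + 1)) b := by
      simpa using hasDerivAt_pow (j + 2) b
    have h3 := ((h1.const_mul d).div_const ((j : ℝ) + 1)).sub (h2.div_const ((j : ℝ) + 2))
    have h4 : (j : ℝ) + 1 ≠ 0 := by positivity
    have h5 : (j : ℝ) + 2 ≠ 0 := by positivity
    have e1 : d * (((j + 1 : ℕ) : ℝ) * b ^ j) / ((j : ℝ) + 1) = d * b ^ j := by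
      push_cast
      field_simp
    have e2 : ((j + 2 : ℕ) : ℝ) * b ^ (j + 1) / ((j : ℝ) + 2) = b ^ (j + 1) := by
      push_cast
      field_simp
    rw [e1, e2] at h3
    exact h3.congr_deriv (by ring)
  rw [intervalIntegral.integral_eq_sub_of_hasDerivAt hd
    (Continuous.intervalIntegrable (by fun_prop) _ _)]
  have h4 : (j : ℝ) + 1 ≠ 0 := by positivity
  have h5 : (j : ℝ) + 2 ≠ 0 := by positivity
  rw [zero_pow (by omega), zero_pow (by omega)]
  field_simp
  ring

private theorem isx_beta (i : ℕ) : ∀ (k : ℕ) (c : ℝ),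
    ∫ a in (0 : ℝ)..c, a ^ i * (c - a) ^ k =
      c ^ (i + k + 1) * (i.factorial * k.factorial / (i + k + 1).factorial) := by
  induction i with
  | zero =>
    intro k c
    have hd : ∀ a ∈ uIcc (0 : ℝ) c, HasDerivAt
        (fun a : ℝ => -((c - a) ^ (k + 1) / (k + 1))) (a ^ 0 * (c - a) ^ k) a := by
      intro a _
      have h0 : HasDerivAt (fun a : ℝ => c - a) (-1) a := by
        simpa using (hasDerivAt_id a).const_sub c
      have h1 := ((h0.pow (k + 1)).div_const ((k : ℝ) + 1)).neg
      have h4 : (k : ℝ) + 1 ≠ 0 := by positivity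
      refine h1.congr_deriv ?_
      rw [Nat.add_sub_cancel]
      push_cast
      field_simp
    rw [intervalIntegral.integral_eq_sub_of_hasDerivAt hd
      (Continuous.intervalIntegrable (by fun_prop) _ _)]
    have h4 : (k : ℝ) + 1 ≠ 0 := by positivity
    have h5 : (k.factorial : ℝ) ≠ 0 := by positivity
    rw [sub_self, zero_pow (by omega), sub_zero, Nat.factorial_zero, zero_add, Nat.factorial_succ]
    push_cast
    field_simp
    ring
  | succ i ih =>
    intro k c
    have hd : ∀ a ∈ uIcc (0 : ℝ) c, HasDerivAt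
        (fun a : ℝ => a ^ (i + 1) * (c - a) ^ (k + 1))
        (((i : ℝ) + 1) * (a ^ i * (c - a) ^ (k + 1)) -
          ((k : ℝ) + 1) * (a ^ (i + 1) * (c - a) ^ k)) a := by
      intro a _
      have h0 : HasDerivAt (fun a : ℝ => c - a) (-1) a := by
        simpa using (hasDerivAt_id a).const_sub c
      have h1 := (hasDerivAt_pow (i + 1) a).mul (h0.pow (k + 1))
      refine h1.congr_deriv ?_
      rw [Nat.add_sub_cancel, Pi.pow_apply]
      push_cast
      ring
    have hint := intervalIntegral.integral_eq_sub_of_hasDerivAt hd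
      (Continuous.intervalIntegrable (by fun_prop) _ _)
    rw [intervalIntegral.integral_sub (Continuous.intervalIntegrable (by fun_prop) _ _)
      (Continuous.intervalIntegrable (by fun_prop) _ _), intervalIntegral.integral_const_mul,
      intervalIntegral.integral_const_mul, ih (k + 1) c, sub_self, zero_pow (by omega),
      zero_pow (by omega), mul_zero, zero_mul, sub_zero] at hint
    have h4 : (k : ℝ) + 1 ≠ 0 := by positivity
    have h6 : i + (k + 1) + 1 = i + 1 + k + 1 := by ring
    rw [h6] at hint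
    have h7 : ∫ a in (0 : ℝ)..c, a ^ (i + 1) * (c - a) ^ k =
        ((i : ℝ) + 1) * (c ^ (i + 1 + k + 1) * (i.factorial * (k + 1).factorial /
          (i + 1 + k + 1).factorial)) / ((k : ℝ) + 1) := by
      rw [eq_div_iff h4]
      linarith
    rw [h7, Nat.factorial_succ k, Nat.factorial_succ i]
    have h5 : ((i + 1 + k + 1).factorial : ℝ) ≠ 0 := by positivity
    push_cast
    field_simp

theorem int_simplex (i j : ℕ) {c : ℝ} (hc : 0 ≤ c) :
    ∫⁻ a in Ioi (0 : ℝ), ∫⁻ b in Ioi (0 : ℝ), ENNReal.ofReal (a ^ i * b ^ j * (c - (a + b))) =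
      ENNReal.ofReal (c ^ (i + j + 3) * (i.factorial * j.factorial / (i + j + 3).factorial)) := by
  have hin : ∀ a ∈ Ioi (0 : ℝ), ∫⁻ b in Ioi (0 : ℝ), ENNReal.ofReal (a ^ i * b ^ j * (c - (a + b))) =
      if a ≤ c then ENNReal.ofReal (a ^ i * ((c - a) ^ (j + 2) / ((j + 1) * (j + 2)))) else 0 := by
    intro a ha
    have ha' : (0 : ℝ) < a := ha
    split_ifs with hac
    · rw [isx_cut (f := fun b => a ^ i * b ^ j * (c - (a + b))) (c := c - a) (by fun_prop)
        (by linarith)]
      · congr 1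
        rw [← isx_inner, ← intervalIntegral.integral_const_mul]
        congr 1
        funext b
        ring
      · intro b hb
        have h1 : 0 ≤ c - (a + b) := by linarith [hb.2]
        have h2 : 0 ≤ b := hb.1.le
        positivity
      · intro b hb
        rfl
      · intro b hb
        have hb' : c - a < b := hb
        have h1 : c - (a + b) ≤ 0 := by linarith
        have h2 : 0 < b := by linarith
        apply ENNReal.ofReal_of_nonpos
        have h3 : 0 ≤ a ^ i * b ^ j := by positivity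
        exact mul_nonpos_of_nonneg_of_nonpos h3 h1
    · have h0 : ∀ b ∈ Ioi (0 : ℝ), ENNReal.ofReal (a ^ i * b ^ j * (c - (a + b))) = 0 := by
        intro b hb
        have hb' : (0 : ℝ) < b := hb
        have h1 : c - (a + b) ≤ 0 := by linarith [not_le.mp hac]
        apply ENNReal.ofReal_of_nonpos
        have h3 : 0 ≤ a ^ i * b ^ j := by positivity
        exact mul_nonpos_of_nonneg_of_nonpos h3 h1
      rw [setLIntegral_congr_fun measurableSet_Ioi h0, lintegral_zero]
  rw [setLIntegral_congr_fun measurableSet_Ioi hin,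
    isx_cut (f := fun a => a ^ i * ((c - a) ^ (j + 2) / ((j + 1) * (j + 2)))) (c := c)
      (by fun_prop) hc]
  · congr 1
    have h1 : ∀ a : ℝ, a ^ i * ((c - a) ^ (j + 2) / (((j : ℝ) + 1) * (j + 2))) =
        (1 / (((j : ℝ) + 1) * (j + 2))) * (a ^ i * (c - a) ^ (j + 2)) := by
      intro a
      ring
    simp only [h1]
    rw [intervalIntegral.integral_const_mul, isx_beta]
    have h2 : i + (j + 2) + 1 = i + j + 3 := by ring
    rw [h2, Nat.factorial_succ (j + 1), Nat.factorial_succ j]
    have h4 : (j : ℝ) + 1 ≠ 0 := by positivity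
    have h5 : (j : ℝ) + 2 ≠ 0 := by positivity
    have h6 : ((i + j + 3).factorial : ℝ) ≠ 0 := by positivity
    push_cast
    field_simp
    ring
  · intro a ha
    have h1 : 0 ≤ c - a := by linarith [ha.2]
    have h2 : 0 ≤ a := ha.1.le
    positivity
  · intro a ha
    rw [if_pos ha.2]
  · intro a ha
    rw [if_neg (not_le.mpr ha)]

end Pool.Agent.Lib.MP_c3a607_gt.Rp
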