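import Pool.Agent.Lib.MP_c3a607_gt.Rp.IntSimplex
import Pool.Agent.Lib.MP_c3a607_gt.Rp.IntEllipse

namespace Pool.Agent.Lib.MP_c3a607_gt.Rp

open Set Real MeasureTheory

private theorem id_le {α : Type*} [MeasurableSpace α] {μ : Measure α} {f : α → ℝ}
    (hf : 0 ≤ᵐ[μ] f) : ENNReal.ofReal (∫ x, f x ∂μ) ≤ ∫⁻ x, ENNReal.ofReal (f x) ∂μ := by
  by_cases hi : Integrable f μ
  · rw [ofReal_integral_eq_lintegral_ofReal hi hf]
  · rw [integral_undef hi]
    simp

/-- Integration of the pointwise bound over the momenta, diagonal case. -/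
theorem integ_diag (i j : ℕ) {L : ℝ} (hL : 0 < L) {m h1 h2 : ℝ → ℝ}
    (cm : ContinuousOn m (Ioo 0 (π / 2))) (c1 : ContinuousOn h1 (Ioo 0 (π / 2)))
    (c2 : ContinuousOn h2 (Ioo 0 (π / 2))) (hm : ∀ t ∈ Ioo 0 (π / 2), 0 ≤ m t)
    (h1p : ∀ t ∈ Ioo 0 (π / 2), 0 < h1 t) (h2p : ∀ t ∈ Ioo 0 (π / 2), 0 < h2 t)
    (hJ : ∀ a b : ℝ, 0 < a → 0 < b → L - π * (a + b) ≤
      ∫ t in (0 : ℝ)..(π / 2), 2 * m t * √(1 - (a ^ 2 / h1 t + b ^ 2 / h2 t))) :
    ENNReal.ofReal ((L / π) ^ (i + j + 3) * wal (i + 1) (j + 1)) ≤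
      ∫⁻ t in Ioo 0 (π / 2), ENNReal.ofReal (m t * √(h1 t) ^ (i + 1) * √(h2 t) ^ (j + 1)) := by
  have hpi := pi_pos
  have hpi2 : (0 : ℝ) ≤ π / 2 := by positivity
  set T : Set ℝ := Ioo 0 (π / 2) with hT
  have hTm : MeasurableSet T := measurableSet_Ioo
  -- measurable versions
  set m' : ℝ → ℝ := T.piecewise m 0 with hm'
  set k1 : ℝ → ℝ := T.piecewise h1 0 with hk1
  set k2 : ℝ → ℝ := T.piecewise h2 0 with hk2
  have mm : Measurable m' := cm.measurable_piecewise continuousOn_const hTm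
  have mk1 : Measurable k1 := c1.measurable_piecewise continuousOn_const hTm
  have mk2 : Measurable k2 := c2.measurable_piecewise continuousOn_const hTm
  have em : ∀ t ∈ T, m' t = m t := fun t ht => by rw [hm', piecewise_eq_of_mem _ _ _ ht]
  have ek1 : ∀ t ∈ T, k1 t = h1 t := fun t ht => by rw [hk1, piecewise_eq_of_mem _ _ _ ht]
  have ek2 : ∀ t ∈ T, k2 t = h2 t := fun t ht => by rw [hk2, piecewise_eq_of_mem _ _ _ ht]
  set W : ℝ := wal 2 j * wal (j + 3) i with hW
  have hWp : 0 < W := mul_pos (wal_pos _ _) (wal_pos _ _)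
  set F : ℝ → ℝ → ℝ → ENNReal := fun a b t =>
    ENNReal.ofReal (2 * m' t) * ENNReal.ofReal (a ^ i * b ^ j *
      √(1 - (a ^ 2 / k1 t + b ^ 2 / k2 t))) with hF
  have hFm : Measurable fun p : (ℝ × ℝ) × ℝ => F p.1.1 p.1.2 p.2 := by
    simp only [hF]
    fun_prop
  -- left hand side
  have hleft : ∫⁻ a in Ioi (0 : ℝ), ∫⁻ b in Ioi (0 : ℝ),
      ENNReal.ofReal (a ^ i * b ^ j * (L - π * (a + b))) =
      ENNReal.ofReal (2 * W) * ENNReal.ofReal ((L / π) ^ (i + j + 3) * wal (i + 1) (j + 1)) := by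
    have h3 : ∀ a b : ℝ, ENNReal.ofReal (a ^ i * b ^ j * (L - π * (a + b))) =
        ENNReal.ofReal π * ENNReal.ofReal (a ^ i * b ^ j * (L / π - (a + b))) := by
      intro a b
      rw [← ENNReal.ofReal_mul hpi.le]
      congr 1
      field_simp
    simp only [h3]
    simp only [lintegral_const_mul' _ _ ENNReal.ofReal_ne_top]
    rw [int_simplex i j (c := L / π) (by positivity), ← ENNReal.ofReal_mul hpi.le,
      ← ENNReal.ofReal_mul (by positivity)]
    congr 1
    have h4 := wal_identity i j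
    calc π * ((L / π) ^ (i + j + 3) * (i.factorial * j.factorial / (i + j + 3).factorial))
        = (L / π) ^ (i + j + 3) *
          (π * (i.factorial * j.factorial / (i + j + 3).factorial)) := by ring
      _ = _ := by rw [h4, hW]; ring
  -- pointwise inequality
  have hpt : ∀ a ∈ Ioi (0 : ℝ), ∀ b ∈ Ioi (0 : ℝ),
      ENNReal.ofReal (a ^ i * b ^ j * (L - π * (a + b))) ≤ ∫⁻ t in T, F a b t := by
    intro a ha b hb
    have ha' : 0 < a := ha
    have hb' : 0 < b := hb
    have h5 := hJ a b ha hb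
    rw [intervalIntegral.integral_of_le hpi2, integral_Ioc_eq_integral_Ioo] at h5
    calc ENNReal.ofReal (a ^ i * b ^ j * (L - π * (a + b)))
        ≤ ENNReal.ofReal (a ^ i * b ^ j * ∫ t in T,
          2 * m t * √(1 - (a ^ 2 / h1 t + b ^ 2 / h2 t))) := by
          apply ENNReal.ofReal_le_ofReal
          exact mul_le_mul_of_nonneg_left h5 (by positivity)
      _ = ENNReal.ofReal (∫ t in T, a ^ i * b ^ j *
          (2 * m t * √(1 - (a ^ 2 / h1 t + b ^ 2 / h2 t)))) := by
          rw [integral_const_mul]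
      _ ≤ ∫⁻ t in T, ENNReal.ofReal (a ^ i * b ^ j *
          (2 * m t * √(1 - (a ^ 2 / h1 t + b ^ 2 / h2 t)))) := by
          apply id_le
          rw [Filter.EventuallyLE, ae_restrict_iff' hTm]
          filter_upwards with t ht
          have := hm t ht
          show 0 ≤ a ^ i * b ^ j * (2 * m t * √(1 - (a ^ 2 / h1 t + b ^ 2 / h2 t)))
          positivity
      _ = ∫⁻ t in T, F a b t := by
          apply setLIntegral_congr_fun hTm
          intro t ht
          have := hm t ht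
          show ENNReal.ofReal (a ^ i * b ^ j *
            (2 * m t * √(1 - (a ^ 2 / h1 t + b ^ 2 / h2 t)))) =
            ENNReal.ofReal (2 * m' t) * ENNReal.ofReal (a ^ i * b ^ j *
              √(1 - (a ^ 2 / k1 t + b ^ 2 / k2 t)))
          rw [em t ht, ek1 t ht, ek2 t ht, ← ENNReal.ofReal_mul (by positivity)]
          congr 1
          ring
  have hmain : ENNReal.ofReal (2 * W) *
      ENNReal.ofReal ((L / π) ^ (i + j + 3) * wal (i + 1) (j + 1)) ≤
      ENNReal.ofReal (2 * W) * ∫⁻ t in T,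
        ENNReal.ofReal (m t * √(h1 t) ^ (i + 1) * √(h2 t) ^ (j + 1)) := by
    rw [← hleft]
    calc ∫⁻ a in Ioi (0 : ℝ), ∫⁻ b in Ioi (0 : ℝ),
          ENNReal.ofReal (a ^ i * b ^ j * (L - π * (a + b)))
        ≤ ∫⁻ a in Ioi (0 : ℝ), ∫⁻ b in Ioi (0 : ℝ), ∫⁻ t in T, F a b t := by
          apply setLIntegral_mono' measurableSet_Ioi
          intro a ha
          apply setLIntegral_mono' measurableSet_Ioi
          intro b hb
          exact hpt a ha b hb
      _ = ∫⁻ a in Ioi (0 : ℝ), ∫⁻ t in T, ∫⁻ b in Ioi (0 : ℝ), F a b t := by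
          apply lintegral_congr
          intro a
          apply lintegral_lintegral_swap
          have : Measurable (Function.uncurry fun b t => F a b t) := by
            have h6 : (Function.uncurry fun b t => F a b t) =
                (fun p : (ℝ × ℝ) × ℝ => F p.1.1 p.1.2 p.2) ∘
                  fun q : ℝ × ℝ => ((a, q.1), q.2) := rfl
            rw [h6]
            exact hFm.comp (by fun_prop)
          exact this.aemeasurable
      _ = ∫⁻ t in T, ∫⁻ a in Ioi (0 : ℝ), ∫⁻ b in Ioi (0 : ℝ), F a b t := by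
          apply lintegral_lintegral_swap
          have : Measurable (Function.uncurry fun a t => ∫⁻ b in Ioi (0 : ℝ), F a b t) := by
            have h6 : Measurable fun p : (ℝ × ℝ) × ℝ => F p.1.1 p.2 p.1.2 := by
              have h7 : (fun p : (ℝ × ℝ) × ℝ => F p.1.1 p.2 p.1.2) =
                (fun p : (ℝ × ℝ) × ℝ => F p.1.1 p.1.2 p.2) ∘
                  fun q : (ℝ × ℝ) × ℝ => ((q.1.1, q.2), q.1.2) := rfl
              rw [h7]
              exact hFm.comp (by fun_prop)
            exact h6.lintegral_prod_right'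
          exact this.aemeasurable
      _ = ∫⁻ t in T, ENNReal.ofReal (2 * W) *
          ENNReal.ofReal (m t * √(h1 t) ^ (i + 1) * √(h2 t) ^ (j + 1)) := by
          apply setLIntegral_congr_fun hTm
          intro t ht
          have hmt := hm t ht
          show ∫⁻ a in Ioi (0 : ℝ), ∫⁻ b in Ioi (0 : ℝ), ENNReal.ofReal (2 * m' t) *
            ENNReal.ofReal (a ^ i * b ^ j * √(1 - (a ^ 2 / k1 t + b ^ 2 / k2 t))) = _
          simp only [lintegral_const_mul' _ _ ENNReal.ofReal_ne_top]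
          rw [em t ht, ek1 t ht, ek2 t ht, int_ellipse i j (h1p t ht) (h2p t ht),
            ← ENNReal.ofReal_mul (by positivity), ← ENNReal.ofReal_mul (by positivity)]
          congr 1
          rw [hW]
          ring
      _ = _ := lintegral_const_mul' _ _ ENNReal.ofReal_ne_top
  have hc0 : ENNReal.ofReal (2 * W) ≠ 0 := by
    rw [Ne, ENNReal.ofReal_eq_zero, not_le]
    positivity
  exact (ENNReal.mul_le_mul_iff_right hc0 ENNReal.ofReal_ne_top).mp hmain

end Pool.Agent.Lib.MP_c3a607_gt.Rp
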