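import Pool.Agent.Lib.MP_c3a607_gt.Rp.SliceAlg

namespace Pool.Agent.Lib.MP_c3a607_gt.Rp.Slice

open Set Real

variable {S : Slice}

private theorem sub_Icc : Ioo (0 : ℝ) (π / 2) ⊆ Icc 0 (π / 2) := Ioo_subset_Icc_self

private theorem cont_delta (hS : S.Ok) : ContinuousOn S.delta (Ioo 0 (π / 2)) := by
  have h1 := hS.cH11.mono sub_Icc
  have h2 := hS.cH12.mono sub_Icc
  have h3 := hS.cH22.mono sub_Icc
  have : ContinuousOn (fun t => S.H11 t * S.H22 t - S.H12 t ^ 2) (Ioo 0 (π / 2)) := by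
    fun_prop
  exact this

private theorem delta_ne (hS : S.Ok) : ∀ t ∈ Ioo 0 (π / 2), S.delta t ≠ 0 :=
  fun _ ht => (delta_pos hS ht).ne'

theorem cont_m (hS : S.Ok) : ContinuousOn S.m (Ioo 0 (π / 2)) := by
  have h1 := hS.cH11.mono sub_Icc
  have h2 := hS.cH12.mono sub_Icc
  have h3 := hS.cH22.mono sub_Icc
  have h4 := hS.cE.mono sub_Icc
  have h5 := hS.cF1.mono sub_Icc
  have h6 := hS.cF2.mono sub_Icc
  have h7 := cont_delta hS
  have h8 : ContinuousOn S.det3 (Ioo 0 (π / 2)) := by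
    have : ContinuousOn (fun t => S.E t * S.delta t - (S.H22 t * S.F1 t ^ 2 -
        2 * S.H12 t * S.F1 t * S.F2 t + S.H11 t * S.F2 t ^ 2)) (Ioo 0 (π / 2)) := by
      fun_prop
    exact this
  exact (h8.div h7 (delta_ne hS)).sqrt

theorem cont_rho (hS : S.Ok) (a b : ℝ) : ContinuousOn (S.rho a b) (Ioo 0 (π / 2)) := by
  have h1 := hS.cH11.mono sub_Icc
  have h2 := hS.cH12.mono sub_Icc
  have h3 := hS.cH22.mono sub_Icc
  have h : ContinuousOn (fun t => S.H22 t * a ^ 2 - 2 * S.H12 t * a * b + S.H11 t * b ^ 2)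
      (Ioo 0 (π / 2)) := by fun_prop
  exact h.div (cont_delta hS) (delta_ne hS)

theorem cont_u1 (hS : S.Ok) (a b : ℝ) : ContinuousOn (S.u1 a b) (Ioo 0 (π / 2)) := by
  have h2 := hS.cH12.mono sub_Icc
  have h3 := hS.cH22.mono sub_Icc
  have h : ContinuousOn (fun t => S.H22 t * a - S.H12 t * b) (Ioo 0 (π / 2)) := by fun_prop
  exact h.div (cont_delta hS) (delta_ne hS)

theorem cont_u2 (hS : S.Ok) (a b : ℝ) : ContinuousOn (S.u2 a b) (Ioo 0 (π / 2)) := by
  have h1 := hS.cH11.mono sub_Icc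
  have h2 := hS.cH12.mono sub_Icc
  have h : ContinuousOn (fun t => S.H11 t * b - S.H12 t * a) (Ioo 0 (π / 2)) := by fun_prop
  exact h.div (cont_delta hS) (delta_ne hS)

theorem cont_n1 (hS : S.Ok) : ContinuousOn S.n1 (Ioo 0 (π / 2)) := by
  have h2 := hS.cH12.mono sub_Icc
  have h3 := hS.cH22.mono sub_Icc
  have h5 := hS.cF1.mono sub_Icc
  have h6 := hS.cF2.mono sub_Icc
  have h : ContinuousOn (fun t => S.H22 t * S.F1 t - S.H12 t * S.F2 t) (Ioo 0 (π / 2)) := by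
    fun_prop
  exact h.div (cont_delta hS) (delta_ne hS)

theorem cont_n2 (hS : S.Ok) : ContinuousOn S.n2 (Ioo 0 (π / 2)) := by
  have h1 := hS.cH11.mono sub_Icc
  have h2 := hS.cH12.mono sub_Icc
  have h5 := hS.cF1.mono sub_Icc
  have h6 := hS.cF2.mono sub_Icc
  have h : ContinuousOn (fun t => S.H11 t * S.F2 t - S.H12 t * S.F1 t) (Ioo 0 (π / 2)) := by
    fun_prop
  exact h.div (cont_delta hS) (delta_ne hS)

/-- Near 0: note H22 * (H22 a² - 2 H12 a b + H11 b²) ≥ δ b², so ρ ≥ b² / H22, and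
(u2 - u1) δ → H11(0) b > 0. -/
theorem near_left (hS : S.Ok) {a b : ℝ} (ha : 0 < a) (hb : 0 < b) :
    ∃ ε > 0, ∀ t, 0 < t → t < ε → t < π / 2 →
      1 ≤ S.rho a b t ∧ 0 < S.u2 a b t - S.u1 a b t := by
  have hpi : 0 < π / 2 := by positivity
  have h0 : (0 : ℝ) ∈ Icc (0 : ℝ) (π / 2) := ⟨le_refl _, hpi.le⟩
  have hc : ContinuousOn (fun t => S.H11 t * b - S.H12 t * a - (S.H22 t * a - S.H12 t * b))
      (Icc 0 (π / 2)) := by
    have h1 := hS.cH11
    have h2 := hS.cH12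
    have h3 := hS.cH22
    fun_prop
  have hN : 0 < S.H11 0 * b - S.H12 0 * a - (S.H22 0 * a - S.H12 0 * b) := by
    rw [hS.left12, hS.left22]
    have := mul_pos hS.left11 hb
    linarith
  have e1 : ∀ᶠ t in nhdsWithin 0 (Icc 0 (π / 2)),
      0 < S.H11 t * b - S.H12 t * a - (S.H22 t * a - S.H12 t * b) :=
    (hc 0 h0).eventually (lt_mem_nhds hN)
  have e2 : ∀ᶠ t in nhdsWithin 0 (Icc 0 (π / 2)), S.H22 t < b ^ 2 := by
    refine (hS.cH22 0 h0).eventually (gt_mem_nhds ?_)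
    rw [hS.left22]; positivity
  have e := e1.and e2
  rw [eventually_nhdsWithin_iff, Metric.eventually_nhds_iff] at e
  obtain ⟨ε, hε, H⟩ := e
  refine ⟨ε, hε, fun t ht0 hte htp => ?_⟩
  have htI : t ∈ Ioo 0 (π / 2) := ⟨ht0, htp⟩
  obtain ⟨k1, k2⟩ := H (by rw [Real.dist_eq, sub_zero, abs_of_pos ht0]; exact hte)
    (sub_Icc htI)
  have hd := delta_pos hS htI
  have h22 := H22_pos hS htI
  constructor
  · unfold rho
    rw [le_div_iff₀ hd, one_mul]
    have key : S.delta t * b ^ 2 ≤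
        S.H22 t * (S.H22 t * a ^ 2 - 2 * S.H12 t * a * b + S.H11 t * b ^ 2) := by
      unfold delta
      nlinarith [sq_nonneg (S.H22 t * a - S.H12 t * b)]
    have k3 : S.delta t * S.H22 t ≤ S.delta t * b ^ 2 :=
      mul_le_mul_of_nonneg_left k2.le hd.le
    have k4 : S.H22 t * S.delta t ≤
        S.H22 t * (S.H22 t * a ^ 2 - 2 * S.H12 t * a * b + S.H11 t * b ^ 2) := by
      linarith
    exact le_of_mul_le_mul_left k4 h22
  · unfold u2 u1
    rw [← sub_div]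
    exact div_pos k1 hd

theorem near_right (hS : S.Ok) {a b : ℝ} (ha : 0 < a) (hb : 0 < b) :
    ∃ ε > 0, ∀ t, 0 < t → π / 2 - ε < t → t < π / 2 →
      1 ≤ S.rho a b t ∧ S.u2 a b t - S.u1 a b t < 0 := by
  have hpi : 0 < π / 2 := by positivity
  have h0 : (π / 2 : ℝ) ∈ Icc (0 : ℝ) (π / 2) := ⟨hpi.le, le_refl _⟩
  have hc : ContinuousOn (fun t => S.H11 t * b - S.H12 t * a - (S.H22 t * a - S.H12 t * b))
      (Icc 0 (π / 2)) := by
    have h1 := hS.cH11
    have h2 := hS.cH12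
    have h3 := hS.cH22
    fun_prop
  have hN : S.H11 (π / 2) * b - S.H12 (π / 2) * a -
      (S.H22 (π / 2) * a - S.H12 (π / 2) * b) < 0 := by
    rw [hS.right12, hS.right11]
    have := mul_pos hS.right22 ha
    linarith
  have e1 : ∀ᶠ t in nhdsWithin (π / 2) (Icc 0 (π / 2)),
      S.H11 t * b - S.H12 t * a - (S.H22 t * a - S.H12 t * b) < 0 :=
    (hc (π / 2) h0).eventually (gt_mem_nhds hN)
  have e2 : ∀ᶠ t in nhdsWithin (π / 2) (Icc 0 (π / 2)), S.H11 t < a ^ 2 := by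
    refine (hS.cH11 (π / 2) h0).eventually (gt_mem_nhds ?_)
    rw [hS.right11]; positivity
  have e := e1.and e2
  rw [eventually_nhdsWithin_iff, Metric.eventually_nhds_iff] at e
  obtain ⟨ε, hε, H⟩ := e
  refine ⟨ε, hε, fun t ht0 hte htp => ?_⟩
  have htI : t ∈ Ioo 0 (π / 2) := ⟨ht0, htp⟩
  obtain ⟨k1, k2⟩ := H (by
    rw [Real.dist_eq, abs_sub_comm, abs_of_pos (by linarith)]; linarith) (sub_Icc htI)
  have hd := delta_pos hS htI
  have h11 := H11_pos hS htI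
  constructor
  · unfold rho
    rw [le_div_iff₀ hd, one_mul]
    have key : S.delta t * a ^ 2 ≤
        S.H11 t * (S.H22 t * a ^ 2 - 2 * S.H12 t * a * b + S.H11 t * b ^ 2) := by
      unfold delta
      nlinarith [sq_nonneg (S.H11 t * b - S.H12 t * a)]
    have k3 : S.delta t * S.H11 t ≤ S.delta t * a ^ 2 :=
      mul_le_mul_of_nonneg_left k2.le hd.le
    have k4 : S.H11 t * S.delta t ≤
        S.H11 t * (S.H22 t * a ^ 2 - 2 * S.H12 t * a * b + S.H11 t * b ^ 2) := by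
      linarith
    exact le_of_mul_le_mul_left k4 h11
  · unfold u2 u1
    rw [← sub_div]
    exact div_neg_of_neg_of_pos k1 hd

end Pool.Agent.Lib.MP_c3a607_gt.Rp.Slice
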