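import Pool.Agent.Lib.MP_c3a607_gt.Rp.IntEllipse
import Pool.Agent.Lib.MP_c3a607_gt.Rp.SliceCont

namespace Pool.Agent.Lib.MP_c3a607_gt.Rp

open Set Real MeasureTheory

private theorem lint_even {f : ℝ → ENNReal} (hf : ∀ a, f (-a) = f a) :
    ∫⁻ a : ℝ, f a = 2 * ∫⁻ a in Ioi (0 : ℝ), f a := by
  have h1 : ∫⁻ a : ℝ, f a = (∫⁻ a in Iio (0 : ℝ), f a) + ∫⁻ a in (Iio (0 : ℝ))ᶜ, f a :=
    (lintegral_add_compl f measurableSet_Iio).symm
  have h2 : ∫⁻ a in (Iio (0 : ℝ))ᶜ, f a = ∫⁻ a in Ioi (0 : ℝ), f a := by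
    rw [compl_Iio]
    exact setLIntegral_congr Ioi_ae_eq_Ici.symm
  have h3 : ∫⁻ a in Iio (0 : ℝ), f a = ∫⁻ a in Ioi (0 : ℝ), f a := by
    rw [← lintegral_indicator measurableSet_Iio, ← lintegral_indicator measurableSet_Ioi,
      ← lintegral_neg_eq_self]
    congr 1
    funext a
    by_cases ha : 0 < a
    · rw [indicator_of_mem (by simpa using ha), indicator_of_mem (by simpa using ha), hf]
    · rw [indicator_of_notMem (by simpa using ha), indicator_of_notMem (by simpa using ha)]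
  rw [h1, h2, h3, two_mul]

/-- Area type integral of an ellipse: complete the square in a (for fixed b), translate and
rescale, then use int_ellipse 0 0 (wal 2 0 * wal 3 0 = π / 6) in the four quadrants. -/
theorem int_plane_rho {S : Slice} (hS : S.Ok) {t : ℝ} (ht : t ∈ Ioo 0 (π / 2)) :
    ∫⁻ a : ℝ, ∫⁻ b : ℝ, ENNReal.ofReal (√(1 - S.rho a b t)) =
      ENNReal.ofReal (2 * π / 3 * √(S.delta t)) := by
  have hH : 0 < S.H22 t := Slice.H22_pos hS ht
  have hd : 0 < S.delta t := Slice.delta_pos hS ht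
  have hP : 0 < S.delta t / S.H22 t := div_pos hd hH
  set P : ℝ := S.delta t / S.H22 t with hPdef
  set R : ℝ := S.H22 t with hRdef
  set c : ℝ := S.H12 t / S.H22 t with hcdef
  have hrho : ∀ a b : ℝ, S.rho a b t = (a - c * b) ^ 2 / P + b ^ 2 / R := by
    intro a b
    have hH' : S.H22 t ≠ 0 := hH.ne'
    have hd' : S.delta t ≠ 0 := hd.ne'
    have h11 : S.H11 t = (S.delta t + S.H12 t ^ 2) / S.H22 t := by
      rw [eq_div_iff hH']
      unfold Slice.delta
      ring
    rw [hPdef, hRdef, hcdef]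
    unfold Slice.rho
    rw [h11]
    field_simp
    ring
  set g : ℝ → ℝ → ENNReal := fun a b => ENNReal.ofReal (√(1 - (a ^ 2 / P + b ^ 2 / R))) with hg
  have hgm : Measurable (Function.uncurry g) := by
    rw [hg]
    unfold Function.uncurry
    simp only
    fun_prop
  have hgm2 : Measurable (Function.uncurry fun a b => g (a - c * b) b) := by
    rw [hg]
    unfold Function.uncurry
    simp only
    fun_prop
  have e1 : ∫⁻ a : ℝ, ∫⁻ b : ℝ, ENNReal.ofReal (√(1 - S.rho a b t)) =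
      ∫⁻ a : ℝ, ∫⁻ b : ℝ, g (a - c * b) b := by
    simp only [hrho, hg]
  have e2 : ∫⁻ a : ℝ, ∫⁻ b : ℝ, g (a - c * b) b = ∫⁻ a : ℝ, ∫⁻ b : ℝ, g a b := by
    rw [lintegral_lintegral_swap hgm2.aemeasurable, lintegral_lintegral_swap hgm.aemeasurable]
    congr 1
    funext b
    exact lintegral_sub_right_eq_self (fun a => g a b) (c * b)
  have e3 : ∫⁻ a : ℝ, ∫⁻ b : ℝ, g a b =
      2 * (2 * ∫⁻ a in Ioi (0 : ℝ), ∫⁻ b in Ioi (0 : ℝ), g a b) := by
    rw [lint_even (f := fun a => ∫⁻ b : ℝ, g a b) (by intro a; simp only [hg, neg_sq])]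
    congr 1
    have : ∀ a : ℝ, ∫⁻ b : ℝ, g a b = 2 * ∫⁻ b in Ioi (0 : ℝ), g a b := fun a =>
      lint_even (f := fun b => g a b) (by intro b; simp only [hg, neg_sq])
    simp only [this]
    rw [lintegral_const_mul' _ _ (by norm_num)]
  have e4 : ∫⁻ a in Ioi (0 : ℝ), ∫⁻ b in Ioi (0 : ℝ), g a b =
      ENNReal.ofReal (√P ^ 1 * √R ^ 1 * (wal 2 0 * wal 3 0)) := by
    have := int_ellipse 0 0 hP hH
    simp only [pow_zero, one_mul, zero_add] at this
    exact this
  have w0 : wal 0 0 = π / 2 := by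
    unfold wal
    simp
  have w1 : wal 1 0 = 1 := by
    unfold wal
    simp
  have w2 : wal 2 0 = π / 4 := by
    have := wal_cos 0 0
    rw [w0] at this
    rw [show wal 2 0 = wal (0 + 2) 0 from rfl, this]
    push_cast
    ring
  have w3 : wal 3 0 = 2 / 3 := by
    have := wal_cos 1 0
    rw [w1] at this
    rw [show wal 3 0 = wal (1 + 2) 0 from rfl, this]
    push_cast
    norm_num
  have hs : √P * √R = √(S.delta t) := by
    rw [← Real.sqrt_mul hP.le]
    congr 1
    rw [hPdef]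
    exact div_mul_cancel₀ _ hH.ne'
  rw [e1, e2, e3, e4, w2, w3, pow_one, pow_one, hs, ← ENNReal.ofReal_ofNat 2,
    ← ENNReal.ofReal_mul (by norm_num), ← ENNReal.ofReal_mul (by norm_num)]
  congr 1
  ring

end Pool.Agent.Lib.MP_c3a607_gt.Rp
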