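import Pool.Agent.Lib.MP_c3a607_gt.Rp.PlaneAbs
import Pool.Agent.Lib.MP_c3a607_gt.Rp.PlaneRho

namespace Pool.Agent.Lib.MP_c3a607_gt.Rp

open Set Real MeasureTheory

private theorem ip_wal11 : wal 1 1 = 1 / 2 := by
  have hd : ∀ t : ℝ, HasDerivAt (fun t => sin t ^ 2 / 2) (cos t ^ 1 * sin t ^ 1) t := by
    intro t
    have h1 := ((hasDerivAt_sin t).pow 2).div_const 2
    refine h1.congr_deriv ?_
    simp
    ring
  have hc : Continuous (fun t : ℝ => cos t ^ 1 * sin t ^ 1) := by fun_prop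
  have h := intervalIntegral.integral_eq_sub_of_hasDerivAt (a := 0) (b := π / 2)
    (fun t _ => hd t) (hc.intervalIntegrable _ _)
  unfold wal
  rw [h]
  simp

private theorem ip_le {f : ℝ → ℝ} (hf : ∀ t ∈ Ioo 0 (π / 2), 0 ≤ f t) :
    ENNReal.ofReal (∫ t in (0 : ℝ)..(π / 2), f t) ≤
      ∫⁻ t in Ioo 0 (π / 2), ENNReal.ofReal (f t) := by
  rw [intervalIntegral.integral_of_le (by positivity), integral_Ioc_eq_integral_Ioo]
  by_cases hi : Integrable f (volume.restrict (Ioo 0 (π / 2)))
  · rw [ofReal_integral_eq_lintegral_ofReal hi]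
    filter_upwards [ae_restrict_mem measurableSet_Ioo] with t ht
    exact hf t ht
  · rw [integral_undef hi]
    simp

private theorem ip_ind {f : ℝ → ℝ} (hf : ContinuousOn f (Ioo 0 (π / 2))) :
    Measurable (indicator (Ioo 0 (π / 2)) f) := by
  classical
  rw [← piecewise_eq_indicator]
  exact ContinuousOn.measurable_piecewise hf continuous_zero.continuousOn measurableSet_Ioo

private theorem ip_swap {F : ℝ → ℝ → ℝ → ENNReal} {μ : Measure ℝ} [SFinite μ]
    (hF : Measurable (fun p : (ℝ × ℝ) × ℝ => F p.1.1 p.2 p.1.2)) :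
    ∫⁻ a : ℝ, ∫⁻ b : ℝ, ∫⁻ t, F a b t ∂μ = ∫⁻ t, (∫⁻ a : ℝ, ∫⁻ b : ℝ, F a b t) ∂μ := by
  have h1 : ∀ a : ℝ, ∫⁻ b : ℝ, ∫⁻ t, F a b t ∂μ = ∫⁻ t, (∫⁻ b : ℝ, F a b t) ∂μ := by
    intro a
    refine lintegral_lintegral_swap (μ := volume) (ν := μ) (f := F a) ?_
    have : Measurable (fun q : ℝ × ℝ => F a q.1 q.2) :=
      hF.comp ((measurable_const.prodMk measurable_snd).prodMk measurable_fst)
    exact this.aemeasurable
  simp only [h1]
  refine lintegral_lintegral_swap (μ := volume) (ν := μ) (f := fun a t => ∫⁻ b : ℝ, F a b t) ?_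
  exact (Measurable.lintegral_prod_right' hF).aemeasurable

/-- Integration of the pointwise bound over all momenta, T²-invariant case: integrate hJ over
(a, b) in the plane, exchange the integrals, use int_plane_abs, int_plane_rho and
m √delta = √det3. -/
theorem integ_plane {S : Slice} (hS : S.Ok) {L : ℝ} (hL : 0 < L)
    (hJ : ∀ a b : ℝ, a ≠ 0 → b ≠ 0 → L - π * (|a| + |b|) ≤
      ∫ t in (0 : ℝ)..(π / 2), 2 * S.m t * √(1 - S.rho a b t)) :
    ENNReal.ofReal ((L / π) ^ 3 * wal 1 1) ≤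
      ∫⁻ t in Ioo 0 (π / 2), ENNReal.ofReal (√(S.det3 t)) := by
  -- coefficients, set to zero outside the interval
  have cd : ContinuousOn S.delta (Ioo 0 (π / 2)) := by
    have h1 := hS.cH11.mono (Ioo_subset_Icc_self (a := (0 : ℝ)) (b := π / 2))
    have h2 := hS.cH12.mono (Ioo_subset_Icc_self (a := (0 : ℝ)) (b := π / 2))
    have h3 := hS.cH22.mono (Ioo_subset_Icc_self (a := (0 : ℝ)) (b := π / 2))
    have : ContinuousOn (fun t => S.H11 t * S.H22 t - S.H12 t ^ 2) (Ioo 0 (π / 2)) := by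
      fun_prop
    exact this
  have mm := ip_ind (Slice.cont_m hS)
  have m11 := ip_ind (hS.cH11.mono (Ioo_subset_Icc_self (a := (0 : ℝ)) (b := π / 2)))
  have m12 := ip_ind (hS.cH12.mono (Ioo_subset_Icc_self (a := (0 : ℝ)) (b := π / 2)))
  have m22 := ip_ind (hS.cH22.mono (Ioo_subset_Icc_self (a := (0 : ℝ)) (b := π / 2)))
  have md := ip_ind cd
  set I : Set ℝ := Ioo 0 (π / 2) with hI
  have hmeas : Measurable (fun p : (ℝ × ℝ) × ℝ => ENNReal.ofReal
      (2 * indicator I S.m p.1.2 * √(1 - (indicator I S.H22 p.1.2 * p.1.1 ^ 2 -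
        2 * indicator I S.H12 p.1.2 * p.1.1 * p.2 + indicator I S.H11 p.1.2 * p.2 ^ 2) /
        indicator I S.delta p.1.2))) := by
    have e1 : Measurable (fun p : (ℝ × ℝ) × ℝ => p.1.2) := measurable_snd.comp measurable_fst
    have e2 : Measurable (fun p : (ℝ × ℝ) × ℝ => p.1.1) := measurable_fst.comp measurable_fst
    have e3 : Measurable (fun p : (ℝ × ℝ) × ℝ => p.2) := measurable_snd
    have f1 := mm.comp e1
    have f2 := m22.comp e1
    have f3 := m12.comp e1
    have f4 := m11.comp e1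
    have f5 := md.comp e1
    exact ENNReal.measurable_ofReal.comp ((measurable_const.mul f1).mul
      (Measurable.sqrt (measurable_const.sub ((((f2.mul (e2.pow_const 2)).sub
        (((measurable_const.mul f3).mul e2).mul e3)).add (f4.mul (e3.pow_const 2))).div f5))))
  have step1 : ∀ a b : ℝ, a ≠ 0 → b ≠ 0 → ENNReal.ofReal (L - π * (|a| + |b|)) ≤
      ∫⁻ t in I, ENNReal.ofReal (2 * S.m t * √(1 - S.rho a b t)) := by
    intro a b ha hb
    refine le_trans (ENNReal.ofReal_le_ofReal (hJ a b ha hb)) (ip_le fun t ht => ?_)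
    have := (Slice.m_pos hS ht).le
    positivity
  have step2 : ∫⁻ a : ℝ, ∫⁻ b : ℝ, ENNReal.ofReal (L - π * (|a| + |b|)) ≤
      ∫⁻ a : ℝ, ∫⁻ b : ℝ, ∫⁻ t in I, ENNReal.ofReal (2 * S.m t * √(1 - S.rho a b t)) := by
    have h0 : ({0} : Set ℝ)ᶜ ∈ ae (volume : Measure ℝ) :=
      compl_mem_ae_iff.2 (measure_singleton 0)
    refine lintegral_mono_ae ?_
    filter_upwards [h0] with a ha
    refine lintegral_mono_ae ?_
    filter_upwards [h0] with b hb
    exact step1 a b ha hb
  have hind : ∀ a b : ℝ, ∫⁻ t in I, ENNReal.ofReal (2 * S.m t * √(1 - S.rho a b t)) =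
      ∫⁻ t in I, ENNReal.ofReal
      (2 * indicator I S.m t * √(1 - (indicator I S.H22 t * a ^ 2 -
        2 * indicator I S.H12 t * a * b + indicator I S.H11 t * b ^ 2) /
        indicator I S.delta t)) := by
    intro a b
    refine setLIntegral_congr_fun measurableSet_Ioo fun t ht => ?_
    simp only [indicator_of_mem ht, Slice.rho]
  have step3 := ip_swap (μ := volume.restrict I) (F := fun a b t => ENNReal.ofReal
      (2 * indicator I S.m t * √(1 - (indicator I S.H22 t * a ^ 2 -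
        2 * indicator I S.H12 t * a * b + indicator I S.H11 t * b ^ 2) /
        indicator I S.delta t))) hmeas
  simp only [hind] at step2
  rw [step3] at step2
  have step4 : ∀ t ∈ I, ∫⁻ a : ℝ, ∫⁻ b : ℝ, ENNReal.ofReal
      (2 * indicator I S.m t * √(1 - (indicator I S.H22 t * a ^ 2 -
        2 * indicator I S.H12 t * a * b + indicator I S.H11 t * b ^ 2) /
        indicator I S.delta t)) =
      ENNReal.ofReal (4 * π / 3) * ENNReal.ofReal (√(S.det3 t)) := by
    intro t ht
    have h2m : 0 ≤ 2 * S.m t := by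
      have := (Slice.m_pos hS ht).le
      positivity
    have h := int_plane_rho hS ht
    have hd := Slice.delta_pos hS ht
    have e : ∀ a b : ℝ, ENNReal.ofReal
      (2 * indicator I S.m t * √(1 - (indicator I S.H22 t * a ^ 2 -
        2 * indicator I S.H12 t * a * b + indicator I S.H11 t * b ^ 2) /
        indicator I S.delta t)) =
        ENNReal.ofReal (2 * S.m t) * ENNReal.ofReal (√(1 - S.rho a b t)) := by
      intro a b
      rw [← ENNReal.ofReal_mul h2m]
      simp only [indicator_of_mem ht, Slice.rho]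
    simp only [e]
    simp only [lintegral_const_mul' _ _ ENNReal.ofReal_ne_top]
    rw [h, ← ENNReal.ofReal_mul h2m, ← ENNReal.ofReal_mul (by positivity)]
    congr 1
    have hs : 0 < √(S.delta t) := Real.sqrt_pos.2 hd
    unfold Slice.m
    rw [Real.sqrt_div' _ hd.le]
    field_simp
    ring
  rw [setLIntegral_congr_fun measurableSet_Ioo step4,
    lintegral_const_mul' _ _ ENNReal.ofReal_ne_top, int_plane_abs hL] at step2
  have h5 : ENNReal.ofReal ((L / π) ^ 3 * wal 1 1) =
      ENNReal.ofReal (4 * π / 3)⁻¹ * ENNReal.ofReal (2 * π / 3 * (L / π) ^ 3) := by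
    rw [← ENNReal.ofReal_mul (by positivity), ip_wal11]
    congr 1
    field_simp
    ring
  rw [h5]
  refine le_trans (mul_le_mul_right step2 _) ?_
  rw [← mul_assoc, ← ENNReal.ofReal_mul (by positivity), inv_mul_cancel₀ (by positivity),
    ENNReal.ofReal_one, one_mul]

end Pool.Agent.Lib.MP_c3a607_gt.Rp
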