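import Pool.Agent.Lib.MP_c3a607_gt.Rp.Round

namespace Pool.Agent.Lib.MP_c3a607_gt.Rp

open Set Real MeasureTheory

variable {k l : ℕ}

private theorem pos_contAux {X : Type*} [TopologicalSpace X] {s : Set X}
    {G : Sp k l → Matrix (Idx k l) (Idx k l) ℝ} (hG : IsMetric G) {f g : X → Sp k l}
    (hf : ContinuousOn f s) (hg : ContinuousOn g s) (hfs : ∀ x ∈ s, f x ∈ Metric.sphere 0 1) :
    ContinuousOn (fun x => form G (f x) (g x) (g x)) s := by
  have h1 : ContinuousOn (fun x => G (f x)) s := hG.cont.comp hf hfs
  have h2 : ∀ a b, ContinuousOn (fun x => G (f x) a b) s := by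
    intro a b
    exact (continuous_apply_apply a b).comp_continuousOn h1
  have h3 : ∀ a, ContinuousOn (fun x => (g x).ofLp a) s := by
    intro a
    exact (continuous_apply a).comp_continuousOn
      ((PiLp.continuous_ofLp 2 _).comp_continuousOn hg)
  unfold form dotProduct Matrix.mulVec dotProduct
  refine continuousOn_finsetSum _ fun a _ => ?_
  refine (h3 a).mul ?_
  refine continuousOn_finsetSum _ fun b _ => ?_
  exact (h2 a b).mul (h3 b)

/-- Comparison with the round metric. -/
theorem exists_lower {G : Sp k l → Matrix (Idx k l) (Idx k l) ℝ} (hG : IsMetric G) :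
    ∃ c > 0, ∀ x ∈ Metric.sphere (0 : Sp k l) 1, ∀ v : Sp k l, inner ℝ x v = 0 →
      c * ‖v‖ ^ 2 ≤ form G x v v := by
  set K : Set (Sp k l × Sp k l) := (Metric.sphere 0 1 ×ˢ Metric.sphere 0 1) ∩
    {p | inner ℝ p.1 p.2 = 0} with hK
  have hKc : IsCompact K := by
    apply ((isCompact_sphere 0 1).prod (isCompact_sphere 0 1)).inter_right
    exact isClosed_eq (continuous_fst.inner continuous_snd) continuous_const
  have hcont : ContinuousOn (fun p : Sp k l × Sp k l => form G p.1 p.2 p.2) K :=
    pos_contAux hG continuous_fst.continuousOn continuous_snd.continuousOn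
      (fun p hp => hp.1.1)
  have hhom : ∀ x ∈ Metric.sphere (0 : Sp k l) 1, ∀ v : Sp k l, inner ℝ x v = 0 → v ≠ 0 →
      (x, (‖v‖⁻¹) • v) ∈ K ∧ form G x v v = ‖v‖ ^ 2 * form G x ((‖v‖⁻¹) • v) ((‖v‖⁻¹) • v) := by
    intro x hx v hv hv0
    have hn : ‖v‖ ≠ 0 := norm_ne_zero_iff.2 hv0
    refine ⟨⟨⟨hx, ?_⟩, ?_⟩, ?_⟩
    · simp [norm_smul, hn]
    · simp [inner_smul_right, hv]
    · rw [form_smul_left, form_smul_right]
      field_simp
  rcases K.eq_empty_or_nonempty with hE | hE
  · refine ⟨1, one_pos, ?_⟩
    intro x hx v hv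
    by_cases hv0 : v = 0
    · subst hv0
      simp [form]
    · exfalso
      have := (hhom x hx v hv hv0).1
      rw [hE] at this
      exact this
  · obtain ⟨p, hp, hmin⟩ := hKc.exists_isMinOn hE hcont
    refine ⟨form G p.1 p.2 p.2, ?_, ?_⟩
    · apply hG.pos p.1 hp.1.1 p.2 hp.2
      intro h0
      have h1 := hp.1.2
      rw [h0] at h1
      simp at h1
    · intro x hx v hv
      by_cases hv0 : v = 0
      · subst hv0
        simp [form]
      · obtain ⟨h1, h2⟩ := hhom x hx v hv hv0
        have h3 := hmin h1
        simp only [mem_ofPred_eq] at h3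
        rw [h2, mul_comm]
        exact mul_le_mul_of_nonneg_left h3 (by positivity)

theorem sys_pos {i j : ℕ}
    {G : Sp (i + 2) (j + 2) → Matrix (Idx (i + 2) (j + 2)) (Idx (i + 2) (j + 2)) ℝ}
    (hG : IsMetric G) : 0 < sys G := by
  obtain ⟨c, hc, hlow⟩ := exists_lower hG
  have hsc : 0 < √c := Real.sqrt_pos.2 hc
  have key : √c * π ≤ sys G := by
    unfold sys
    apply le_csInf
    · obtain ⟨γ, hγ, _⟩ := round_half i j
      exact ⟨_, γ, hγ, rfl⟩
    · rintro r ⟨γ, hγ, rfl⟩
      have h1 : √c * len roundG γ ≤ len G γ := by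
        unfold len
        rw [← intervalIntegral.integral_const_mul]
        have hdc : Continuous (deriv γ) := hγ.smooth.continuous_deriv le_rfl
        have hmem : ∀ s ∈ uIcc (0 : ℝ) 1, γ s ∈ Metric.sphere (0 : Sp (i + 2) (j + 2)) 1 := by
          intro s hs
          rw [uIcc_of_le zero_le_one] at hs
          exact hγ.mem s hs
        apply intervalIntegral.integral_mono_on_of_le_Ioo zero_le_one
        · apply ContinuousOn.intervalIntegrable
          apply ContinuousOn.mul continuousOn_const
          apply ContinuousOn.sqrt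
          exact pos_contAux round_metric hγ.smooth.continuous.continuousOn hdc.continuousOn hmem
        · apply ContinuousOn.intervalIntegrable
          apply ContinuousOn.sqrt
          exact pos_contAux hG hγ.smooth.continuous.continuousOn hdc.continuousOn hmem
        · intro s hs
          have hs' : s ∈ Icc (0 : ℝ) 1 := ⟨hs.1.le, hs.2.le⟩
          have horth : inner ℝ (γ s) (deriv γ s) = 0 := by
            have hd : HasDerivAt γ (deriv γ s) s :=
              (hγ.smooth.differentiable one_ne_zero s).hasDerivAt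
            have h2 := hd.inner ℝ hd
            have h3 : HasDerivAt (fun t => inner ℝ (γ t) (γ t)) (0 : ℝ) s := by
              have h4 : (fun t => inner ℝ (γ t) (γ t)) =ᶠ[nhds s] fun _ => (1 : ℝ) := by
                filter_upwards [Ioo_mem_nhds hs.1 hs.2] with t ht
                have h5 := hγ.mem t ⟨ht.1.le, ht.2.le⟩
                rw [mem_sphere_zero_iff_norm] at h5
                rw [real_inner_self_eq_norm_sq, h5]
                norm_num
              exact (hasDerivAt_const s (1 : ℝ)).congr_of_eventuallyEq h4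
            have h6 := h2.unique h3
            rw [real_inner_comm (γ s) (deriv γ s)] at h6
            linarith
          have h7 := hlow (γ s) (hγ.mem s hs') (deriv γ s) horth
          have h8 : form roundG (γ s) (deriv γ s) (deriv γ s) = ‖deriv γ s‖ ^ 2 := by
            unfold form roundG
            rw [Matrix.one_mulVec, EuclideanSpace.norm_sq_eq]
            unfold dotProduct
            refine Finset.sum_congr rfl fun a _ => ?_
            rw [Real.norm_eq_abs, sq_abs, sq]
          rw [h8, ← Real.sqrt_mul hc.le]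
          exact Real.sqrt_le_sqrt h7
      exact le_trans (mul_le_mul_of_nonneg_left (round_len hγ) hsc.le) h1
  exact lt_of_lt_of_le (mul_pos hsc Real.pi_pos) key

end Pool.Agent.Lib.MP_c3a607_gt.Rp
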