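import Pool.Agent.Lib.MP_c3a607_gt.Rp.GeoBasic

namespace Pool.Agent.Lib.MP_c3a607_gt.Rp

open Set Real MeasureTheory

variable {i j : ℕ}
  {G : Sp (i + 2) (j + 2) → Matrix (Idx (i + 2) (j + 2)) (Idx (i + 2) (j + 2)) ℝ}

private theorem sok_cvec {a a' b b' : ℝ → ℝ} (ha : Continuous a) (ha' : Continuous a')
    (hb : Continuous b) (hb' : Continuous b') :
    Continuous (fun t => vec4 i j (a t) (a' t) (b t) (b' t)) := by
  unfold vec4
  apply (PiLp.continuous_toLp 2 _).comp
  apply continuous_pi
  rintro (r | r)
  · simp only [Sum.elim_inl]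
    split_ifs <;> first | assumption | exact continuous_const
  · simp only [Sum.elim_inr]
    split_ifs <;> first | assumption | exact continuous_const

private theorem sok_cform (hG : IsMetric G) {v w : ℝ → Sp (i + 2) (j + 2)}
    (hv : Continuous v) (hw : Continuous w) :
    Continuous (fun t => form G (x0 i j t) (v t) (w t)) := by
  have hx : Continuous (fun t => x0 i j t) :=
    sok_cvec continuous_cos continuous_const continuous_sin continuous_const
  have h1 : Continuous (fun t => G (x0 i j t)) := by
    have := hG.cont.comp_continuous hx (fun t => x0_mem t)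
    exact this
  have h2 : ∀ a b, Continuous (fun t => G (x0 i j t) a b) := fun a b =>
    (continuous_apply_apply a b).comp h1
  have h3 : ∀ a, Continuous (fun t => (v t).ofLp a) := fun a =>
    (continuous_apply a).comp ((PiLp.continuous_ofLp 2 _).comp hv)
  have h4 : ∀ a, Continuous (fun t => (w t).ofLp a) := fun a =>
    (continuous_apply a).comp ((PiLp.continuous_ofLp 2 _).comp hw)
  unfold form dotProduct Matrix.mulVec dotProduct
  refine continuous_finsetSum _ fun a _ => ?_
  refine (h3 a).mul ?_
  refine continuous_finsetSum _ fun b _ => ?_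
  exact (h2 a b).mul (h4 b)

private theorem sok_eA_pos (hG : IsMetric G) (t : ℝ) :
    0 < form G (x0 i j t) (eA i j) (eA i j) := by
  apply hG.pos _ (x0_mem t)
  · unfold x0 eA
    rw [inner_vec4]
    ring
  · intro h0
    have h1 : inner ℝ (eA i j) (eA i j) = (1 : ℝ) := by
      unfold eA
      rw [inner_vec4]
      ring
    rw [h0] at h1
    simp at h1

private theorem sok_fB_pos (hG : IsMetric G) (t : ℝ) :
    0 < form G (x0 i j t) (fB i j) (fB i j) := by
  apply hG.pos _ (x0_mem t)
  · unfold x0 fB
    rw [inner_vec4]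
    ring
  · intro h0
    have h1 : inner ℝ (fB i j) (fB i j) = (1 : ℝ) := by
      unfold fB
      rw [inner_vec4]
      ring
    rw [h0] at h1
    simp at h1

private theorem sok_Q (hG : IsMetric G) (t τ x y : ℝ) :
    (slice G).Q t τ x y = form G (x0 i j t)
      (τ • eTh i j t + ((x * cos t) • eA i j + (y * sin t) • fB i j))
      (τ • eTh i j t + ((x * cos t) • eA i j + (y * sin t) • fB i j)) := by
  simp only [form_add_left, form_add_right, form_smul_left, form_smul_right]
  rw [form_symm hG (x0_mem t) (eA i j) (eTh i j t), form_symm hG (x0_mem t) (fB i j) (eTh i j t),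
    form_symm hG (x0_mem t) (fB i j) (eA i j)]
  unfold Slice.Q slice
  simp only
  ring

theorem slice_ok (hG : IsMetric G) : (slice G).Ok := by
  have hTh : Continuous (fun t => eTh i j t) :=
    sok_cvec continuous_sin.neg continuous_const continuous_cos continuous_const
  have hA : Continuous (fun _ : ℝ => eA i j) := continuous_const
  have hB : Continuous (fun _ : ℝ => fB i j) := continuous_const
  refine ⟨?_, ?_, ?_, ?_, ?_, ?_, ?_, ?_, ?_, ?_, ?_, ?_, ?_⟩
  · exact (sok_cform hG hTh hTh).continuousOn
  · exact (continuous_cos.mul (sok_cform hG hTh hA)).continuousOn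
  · exact (continuous_sin.mul (sok_cform hG hTh hB)).continuousOn
  · exact ((continuous_cos.pow 2).mul (sok_cform hG hA hA)).continuousOn
  · exact ((continuous_cos.mul continuous_sin).mul (sok_cform hG hA hB)).continuousOn
  · exact ((continuous_sin.pow 2).mul (sok_cform hG hB hB)).continuousOn
  · intro t ht τ x y hne
    rw [sok_Q hG]
    have hcos : 0 < cos t := cos_pos_of_mem_Ioo ⟨by linarith [ht.1, Real.pi_pos], ht.2⟩
    have hsin : 0 < sin t := sin_pos_of_mem_Ioo ⟨ht.1, by linarith [ht.2, Real.pi_pos]⟩
    have hsc := sin_sq_add_cos_sq t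
    apply hG.pos _ (x0_mem t)
    · unfold x0 eTh eA fB
      simp only [inner_add_right, inner_smul_right, inner_vec4]
      ring
    · intro h0
      have h1 : inner ℝ (τ • eTh i j t + ((x * cos t) • eA i j + (y * sin t) • fB i j))
          (τ • eTh i j t + ((x * cos t) • eA i j + (y * sin t) • fB i j)) =
          τ ^ 2 * (sin t ^ 2 + cos t ^ 2) + (x * cos t) ^ 2 + (y * sin t) ^ 2 := by
        unfold eTh eA fB
        simp only [inner_add_right, inner_add_left, inner_smul_right, inner_smul_left, inner_vec4,
          RCLike.conj_to_real]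
        ring
      rw [h0, hsc] at h1
      simp only [inner_zero_left] at h1
      have h2 : τ ^ 2 = 0 ∧ (x * cos t) ^ 2 = 0 ∧ (y * sin t) ^ 2 = 0 := by
        refine ⟨?_, ?_, ?_⟩ <;> nlinarith [sq_nonneg τ, sq_nonneg (x * cos t),
          sq_nonneg (y * sin t)]
      obtain ⟨ha, hb, hc⟩ := h2
      have ha' : τ = 0 := by simpa using ha
      have hb' : x = 0 := by
        have : x * cos t = 0 := by simpa using hb
        exact (mul_eq_zero.1 this).resolve_right hcos.ne'
      have hc' : y = 0 := by
        have : y * sin t = 0 := by simpa using hc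
        exact (mul_eq_zero.1 this).resolve_right hsin.ne'
      rcases hne with h | h | h
      · exact h ha'
      · exact h hb'
      · exact h hc'
  · show 0 < cos 0 ^ 2 * form G (x0 i j 0) (eA i j) (eA i j)
    rw [cos_zero, one_pow, one_mul]
    exact sok_eA_pos hG 0
  · show cos 0 * sin 0 * form G (x0 i j 0) (eA i j) (fB i j) = 0
    rw [sin_zero]
    ring
  · show sin 0 ^ 2 * form G (x0 i j 0) (fB i j) (fB i j) = 0
    rw [sin_zero]
    ring
  · show cos (π / 2) ^ 2 * form G (x0 i j (π / 2)) (eA i j) (eA i j) = 0
    rw [cos_pi_div_two]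
    ring
  · show cos (π / 2) * sin (π / 2) * form G (x0 i j (π / 2)) (eA i j) (fB i j) = 0
    rw [cos_pi_div_two]
    ring
  · show 0 < sin (π / 2) ^ 2 * form G (x0 i j (π / 2)) (fB i j) (fB i j)
    rw [sin_pi_div_two, one_pow, one_mul]
    exact sok_fB_pos hG _

end Pool.Agent.Lib.MP_c3a607_gt.Rp
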