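import Pool.Agent.Lib.MP_c3a607_gt.Rp.CurveForm

namespace Pool.Agent.Lib.MP_c3a607_gt.Rp

open Set Real MeasureTheory

variable {i j : ℕ}
  {G : Sp (i + 2) (j + 2) → Matrix (Idx (i + 2) (j + 2)) (Idx (i + 2) (j + 2)) ℝ}

private theorem SS_half {x y : ℝ} (h : x = y + π ∨ x = y - π) :
    cos x = -cos y ∧ sin x = -sin y := by
  rcases h with rfl | rfl
  · exact ⟨cos_add_pi y, sin_add_pi y⟩
  · exact ⟨cos_sub_pi y, sin_sub_pi y⟩

theorem curve_loop {θ α β : ℝ → ℝ} (hθ : ContDiff ℝ 1 θ) (hα : ContDiff ℝ 1 α)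
    (hβ : ContDiff ℝ 1 β) (h1 : θ 1 = θ 0) (h2 : α 1 = α 0 + π ∨ α 1 = α 0 - π)
    (h3 : β 1 = β 0 + π ∨ β 1 = β 0 - π) : IsLoop (curve i j θ α β) := by
  refine ⟨?_, ?_, ?_⟩
  · rw [contDiff_euclidean]
    rintro (r | r)
    · have e : (fun x => curve i j θ α β x (Sum.inl r)) = fun x =>
          if r = 0 then cos (θ x) * cos (α x) else if r = 1 then cos (θ x) * sin (α x) else 0 := rfl
      rw [e]
      split_ifs
      · exact hθ.cos.mul hα.cos
      · exact hθ.cos.mul hα.sin
      · exact contDiff_const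
    · have e : (fun x => curve i j θ α β x (Sum.inr r)) = fun x =>
          if r = 0 then sin (θ x) * cos (β x) else if r = 1 then sin (θ x) * sin (β x) else 0 := rfl
      rw [e]
      split_ifs
      · exact hθ.sin.mul hβ.cos
      · exact hθ.sin.mul hβ.sin
      · exact contDiff_const
  · intro s _
    rw [mem_sphere_zero_iff_norm]
    have h : inner ℝ (curve i j θ α β s) (curve i j θ α β s) = (1 : ℝ) := by
      unfold curve
      rw [inner_vec4]
      have e1 := sin_sq_add_cos_sq (θ s)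
      have e2 := sin_sq_add_cos_sq (α s)
      have e3 := sin_sq_add_cos_sq (β s)
      linear_combination (cos (θ s) ^ 2) * e2 + (sin (θ s) ^ 2) * e3 + e1
    rw [real_inner_self_eq_norm_sq] at h
    have h0 := norm_nonneg (curve i j θ α β s)
    nlinarith
  · obtain ⟨c2, s2⟩ := SS_half h2
    obtain ⟨c3, s3⟩ := SS_half h3
    ext (r | r)
    · have e : ∀ x, curve i j θ α β x (Sum.inl r) =
          if r = 0 then cos (θ x) * cos (α x) else if r = 1 then cos (θ x) * sin (α x) else 0 :=
        fun x => rfl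
      rw [PiLp.neg_apply, e, e, h1, c2, s2]
      split_ifs <;> ring
    · have e : ∀ x, curve i j θ α β x (Sum.inr r) =
          if r = 0 then sin (θ x) * cos (β x) else if r = 1 then sin (θ x) * sin (β x) else 0 :=
        fun x => rfl
      rw [PiLp.neg_apply, e, e, h1, c3, s3]
      split_ifs <;> ring

theorem slice_sys (hG : IsMetric G) (hI : Invariant G) : (slice G).SysGe (sys G) := by
  intro θ α β hθ hα hβ _ h1 h2 h3
  have hlen : len G (curve i j θ α β) =
      ∫ s in (0 : ℝ)..1, √((slice G).Q (θ s) (deriv θ s) (deriv α s) (deriv β s)) := by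
    unfold len
    refine intervalIntegral.integral_congr fun s _ => ?_
    exact congrArg Real.sqrt (curve_form hG hI hθ hα hβ s)
  rw [← hlen]
  refine csInf_le ⟨0, ?_⟩ ⟨curve i j θ α β, curve_loop hθ hα hβ h1 h2 h3, rfl⟩
  rintro r ⟨γ, -, rfl⟩
  exact intervalIntegral.integral_nonneg zero_le_one fun s _ => sqrt_nonneg _

end Pool.Agent.Lib.MP_c3a607_gt.Rp
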