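import Mathlib

namespace Pool.Agent.Lib.MP_c3a607_gt.Rp

open Set Real MeasureTheory

/-- Wallis type integrals. -/
noncomputable def wal (m n : ℕ) : ℝ := ∫ t in (0 : ℝ)..(π / 2), cos t ^ m * sin t ^ n

private theorem wal_cont (m n : ℕ) : Continuous (fun t : ℝ => cos t ^ m * sin t ^ n) := by
  fun_prop

private theorem wal_int (m n : ℕ) :
    IntervalIntegrable (fun t : ℝ => cos t ^ m * sin t ^ n) volume 0 (π / 2) :=
  (wal_cont m n).intervalIntegrable _ _

theorem wal_pos (m n : ℕ) : 0 < wal m n := by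
  unfold wal
  refine intervalIntegral.intervalIntegral_pos_of_pos_on (wal_int m n) ?_ (by positivity)
  intro t ht
  have h1 : 0 < cos t := cos_pos_of_mem_Ioo ⟨by linarith [ht.1, pi_pos], ht.2⟩
  have h2 : 0 < sin t := sin_pos_of_pos_of_lt_pi ht.1 (by linarith [ht.2, pi_pos])
  positivity

private theorem wal_split (m n : ℕ) : wal (m + 2) n = wal m n - wal m (n + 2) := by
  unfold wal
  rw [← intervalIntegral.integral_sub (wal_int m n) (wal_int m (n + 2))]
  refine intervalIntegral.integral_congr ?_
  intro t _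
  have h := sin_sq_add_cos_sq t
  have h' : cos t ^ 2 = 1 - sin t ^ 2 := by linarith
  show cos t ^ (m + 2) * sin t ^ n = cos t ^ m * sin t ^ n - cos t ^ m * sin t ^ (n + 2)
  rw [pow_add, pow_add, h']
  ring

private theorem wal_parts (m n : ℕ) : (m + 1 : ℝ) * wal m (n + 2) = (n + 1) * wal (m + 2) n := by
  have hd : ∀ t : ℝ, HasDerivAt (fun t => cos t ^ (m + 1) * sin t ^ (n + 1))
      ((n + 1) * (cos t ^ (m + 2) * sin t ^ n) - (m + 1) * (cos t ^ m * sin t ^ (n + 2))) t := by
    intro t
    have h1 := ((hasDerivAt_cos t).pow (m + 1)).mul ((hasDerivAt_sin t).pow (n + 1))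
    refine h1.congr_deriv ?_
    simp only [Nat.add_sub_cancel]
    push_cast
    simp only [Pi.pow_apply]
    ring
  have hi : IntervalIntegrable (fun t : ℝ => (n + 1 : ℝ) * (cos t ^ (m + 2) * sin t ^ n) -
      (m + 1) * (cos t ^ m * sin t ^ (n + 2))) volume 0 (π / 2) :=
    Continuous.intervalIntegrable (by fun_prop) _ _
  have h := intervalIntegral.integral_eq_sub_of_hasDerivAt (fun t _ => hd t) hi
  rw [intervalIntegral.integral_sub ((wal_int (m + 2) n).const_mul _)
    ((wal_int m (n + 2)).const_mul _), intervalIntegral.integral_const_mul,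
    intervalIntegral.integral_const_mul] at h
  simp at h
  unfold wal
  linarith

theorem wal_sin (m n : ℕ) : wal m (n + 2) = (n + 1) / (m + n + 2) * wal m n := by
  have h1 := wal_split m n
  have h2 := wal_parts m n
  rw [h1] at h2
  have h3 : (0 : ℝ) < m + n + 2 := by positivity
  field_simp
  linarith

theorem wal_cos (m n : ℕ) : wal (m + 2) n = (m + 1) / (m + n + 2) * wal m n := by
  have h1 := wal_split m n
  have h2 := wal_parts m n
  have h4 : wal m (n + 2) = wal m n - wal (m + 2) n := by linarith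
  rw [h4] at h2
  have h3 : (0 : ℝ) < m + n + 2 := by positivity
  field_simp
  linarith

private theorem wal_00 : wal 0 0 = π / 2 := by
  unfold wal; simp

private theorem wal_10 : wal 1 0 = 1 := by
  unfold wal; simp

private theorem wal_01 : wal 0 1 = 1 := by
  unfold wal; simp

private theorem wal_11 : wal 1 1 = 1 / 2 := by
  have hd : ∀ t : ℝ, HasDerivAt (fun t => sin t ^ 2 / 2) (cos t ^ 1 * sin t ^ 1) t := by
    intro t
    have h1 := ((hasDerivAt_sin t).pow 2).div_const 2
    refine h1.congr_deriv ?_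
    simp
    ring
  have h := intervalIntegral.integral_eq_sub_of_hasDerivAt (fun t _ => hd t) (wal_int 1 1)
  unfold wal
  rw [h]
  simp

private theorem wal_step_i (i j : ℕ) (h : π * (i.factorial * j.factorial / (i + j + 3).factorial) =
      2 * wal 2 j * wal (j + 3) i * wal (i + 1) (j + 1)) :
    π * ((i + 2).factorial * j.factorial / ((i + 2) + j + 3).factorial) =
      2 * wal 2 j * wal (j + 3) (i + 2) * wal ((i + 2) + 1) (j + 1) := by
  have e1 : ((i + 2).factorial : ℝ) = (i + 2) * ((i + 1) * i.factorial) := by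
    rw [Nat.factorial_succ, Nat.factorial_succ]; push_cast; ring
  have e2 : (((i + 2) + j + 3).factorial : ℝ) =
      (i + j + 5) * ((i + j + 4) * (i + j + 3).factorial) := by
    rw [show (i + 2) + j + 3 = ((i + j + 3) + 1) + 1 by ring, Nat.factorial_succ,
      Nat.factorial_succ]; push_cast; ring
  have e3 := wal_sin (j + 3) i
  have e4 : wal ((i + 2) + 1) (j + 1) = _ := wal_cos (i + 1) (j + 1)
  rw [e1, e2, e3, e4]
  have h5 : (0 : ℝ) < (i + j + 3).factorial := by positivity
  push_cast
  have h6 : (0 : ℝ) < (i : ℝ) + j + 5 := by positivity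
  have h7 : (0 : ℝ) < (i : ℝ) + j + 4 := by positivity
  have h8 : ((i : ℝ) + 2) * ((i + 1) * i.factorial) * j.factorial /
      ((i + j + 5) * ((i + j + 4) * (i + j + 3).factorial)) =
      ((i : ℝ) + 2) * (i + 1) / ((i + j + 5) * (i + j + 4)) *
      (i.factorial * j.factorial / (i + j + 3).factorial) := by
    field_simp
  rw [h8, mul_left_comm, h]
  field_simp
  ring

private theorem wal_step_j (i j : ℕ) (h : π * (i.factorial * j.factorial / (i + j + 3).factorial) =
      2 * wal 2 j * wal (j + 3) i * wal (i + 1) (j + 1)) :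
    π * (i.factorial * (j + 2).factorial / (i + (j + 2) + 3).factorial) =
      2 * wal 2 (j + 2) * wal ((j + 2) + 3) i * wal (i + 1) ((j + 2) + 1) := by
  have e1 : ((j + 2).factorial : ℝ) = (j + 2) * ((j + 1) * j.factorial) := by
    rw [Nat.factorial_succ, Nat.factorial_succ]; push_cast; ring
  have e2 : ((i + (j + 2) + 3).factorial : ℝ) =
      (i + j + 5) * ((i + j + 4) * (i + j + 3).factorial) := by
    rw [show i + (j + 2) + 3 = ((i + j + 3) + 1) + 1 by ring, Nat.factorial_succ,
      Nat.factorial_succ]; push_cast; ring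
  have e3 := wal_sin 2 j
  have e4 : wal ((j + 2) + 3) i = _ := wal_cos (j + 3) i
  have e5 : wal (i + 1) ((j + 2) + 1) = _ := wal_sin (i + 1) (j + 1)
  rw [e1, e2, e3, e4, e5]
  have h5 : (0 : ℝ) < (i + j + 3).factorial := by positivity
  push_cast
  have h6 : (0 : ℝ) < (i : ℝ) + j + 5 := by positivity
  have h7 : (0 : ℝ) < (i : ℝ) + j + 4 := by positivity
  have h8 : (i.factorial : ℝ) * (((j : ℝ) + 2) * ((j + 1) * j.factorial)) /
      ((i + j + 5) * ((i + j + 4) * (i + j + 3).factorial)) =
      ((j : ℝ) + 2) * (j + 1) / ((i + j + 5) * (i + j + 4)) *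
      (i.factorial * j.factorial / (i + j + 3).factorial) := by
    field_simp
  rw [h8, mul_left_comm, h]
  field_simp
  ring

theorem wal_identity (i j : ℕ) :
    π * (i.factorial * j.factorial / (i + j + 3).factorial) =
      2 * wal 2 j * wal (j + 3) i * wal (i + 1) (j + 1) := by
  have w20 : wal 2 0 = π / 4 := by rw [wal_cos 0 0, wal_00]; norm_num; ring
  have w30 : wal 3 0 = 2 / 3 := by rw [wal_cos 1 0, wal_10]; norm_num
  have w31 : wal 3 1 = 1 / 4 := by rw [wal_cos 1 1, wal_11]; norm_num
  have w21 : wal 2 1 = 1 / 3 := by rw [wal_cos 0 1, wal_01]; norm_num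
  have w40 : wal 4 0 = 3 * π / 16 := by rw [wal_cos 2 0, w20]; norm_num; ring
  have w12 : wal 1 2 = 1 / 3 := by rw [wal_sin 1 0, wal_10]; norm_num
  have w41 : wal 4 1 = 1 / 5 := by rw [wal_cos 2 1, w21]; norm_num
  have w22 : wal 2 2 = π / 16 := by rw [wal_sin 2 0, w20]; norm_num; ring
  have hj : ∀ j : ℕ, (π * ((0 : ℕ).factorial * j.factorial / (0 + j + 3).factorial) =
      2 * wal 2 j * wal (j + 3) 0 * wal (0 + 1) (j + 1)) ∧
      (π * ((1 : ℕ).factorial * j.factorial / (1 + j + 3).factorial) =
      2 * wal 2 j * wal (j + 3) 1 * wal (1 + 1) (j + 1)) := by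
    intro j
    induction j using Nat.twoStepInduction with
    | zero =>
      simp only [Nat.zero_add, Nat.reduceAdd]
      rw [w20, w30, wal_11, w31, w21]
      constructor <;> norm_num [Nat.factorial] <;> ring
    | one =>
      simp only [Nat.zero_add, Nat.reduceAdd]
      rw [w21, w40, w12, w41, w22]
      constructor <;> norm_num [Nat.factorial] <;> ring
    | more j h _ => exact ⟨wal_step_j 0 j h.1, wal_step_j 1 j h.2⟩
  induction i using Nat.twoStepInduction with
  | zero => exact (hj j).1
  | one => exact (hj j).2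
  | more i h _ => exact wal_step_i i j h

end Pool.Agent.Lib.MP_c3a607_gt.Rp
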