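import Pool.Agent.Lib.MP_c3a607_gt.Rp.Norms
import Pool.Agent.Lib.MP_c3a607_gt.Rp.Wal

namespace Pool.Agent.Lib.MP_c3a607_gt.Rp

open Set Real MeasureTheory

private noncomputable def SF (i j : ℕ) (f : ℝ → ENNReal) : ENNReal :=
  ∫⁻ x : Metric.sphere (0 : Sp (i + 2) (j + 2)) 1, f (arccos (nrm1 x.val))
        ∂(volume : Measure (Sp (i + 2) (j + 2))).toSphere

private noncomputable def TF (i j : ℕ) (f : ℝ → ENNReal) : ENNReal :=
  ∫⁻ t in Ioo 0 (π / 2), ENNReal.ofReal (cos t ^ (i + 1) * sin t ^ (j + 1)) * f t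

private noncomputable def FF (f : ℝ → ENNReal) (r s : ℝ) : ENNReal :=
  if √(r ^ 2 + s ^ 2) < 1 then f (arccos (r / √(r ^ 2 + s ^ 2))) else 0

private theorem FF_meas {f : ℝ → ENNReal} (hf : Measurable f) :
    Measurable (Function.uncurry (FF f)) := by
  have h1 : Measurable (fun p : ℝ × ℝ => √(p.1 ^ 2 + p.2 ^ 2)) := by fun_prop
  apply Measurable.ite
  · exact measurableSet_lt h1 measurable_const
  · exact hf.comp (Real.measurable_arccos.comp (measurable_fst.div h1))
  · exact measurable_const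

private theorem nrm1_smul {k l : ℕ} (c : ℝ) (hc : 0 ≤ c) (x : Sp k l) :
    nrm1 (c • x) = c * nrm1 x := by
  unfold nrm1
  simp only [PiLp.smul_apply, smul_eq_mul, mul_pow]
  rw [← Finset.mul_sum, Real.sqrt_mul (sq_nonneg c), Real.sqrt_sq hc]

private theorem nrm1_cont {k l : ℕ} : Continuous (nrm1 : Sp k l → ℝ) := by
  unfold nrm1
  fun_prop

private theorem norm_split {k l : ℕ} (x : Sp k l) :
    √(nrm1 x ^ 2 + (√(∑ s : Fin l, x (Sum.inr s) ^ 2)) ^ 2) = ‖x‖ := by
  unfold nrm1
  rw [Real.sq_sqrt (by positivity), Real.sq_sqrt (by positivity), EuclideanSpace.norm_eq,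
    Fintype.sum_sum_type]
  simp

private theorem sphere_side (i j : ℕ) {f : ℝ → ENNReal} (hf : Measurable f) :
    ∫⁻ x : Sp (i + 2) (j + 2), FF f (nrm1 x) (√(∑ s : Fin (j + 2), x (Sum.inr s) ^ 2)) =
      SF i j f * Measure.volumeIoiPow (Module.finrank ℝ (Sp (i + 2) (j + 2)) - 1)
        (Iio ⟨1, mem_Ioi.2 one_pos⟩) := by
  have h0 : ∀ x : Sp (i + 2) (j + 2),
      FF f (nrm1 x) (√(∑ s : Fin (j + 2), x (Sum.inr s) ^ 2)) =
        if ‖x‖ < 1 then f (arccos (nrm1 (‖x‖⁻¹ • x))) else 0 := by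
    intro x
    unfold FF
    rw [norm_split, nrm1_smul _ (by positivity), div_eq_inv_mul]
  simp only [h0]
  have hmp := (volume : Measure (Sp (i + 2) (j + 2))).measurePreserving_homeomorphUnitSphereProd
  set g : Metric.sphere (0 : Sp (i + 2) (j + 2)) 1 × Ioi (0 : ℝ) → ENNReal :=
    fun p => f (arccos (nrm1 p.1.val)) *
      (Iio (⟨1, mem_Ioi.2 one_pos⟩ : Ioi (0 : ℝ))).indicator (fun _ => 1) p.2 with hg
  calc
    ∫⁻ x : Sp (i + 2) (j + 2), (if ‖x‖ < 1 then f (arccos (nrm1 (‖x‖⁻¹ • x))) else 0)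
      = ∫⁻ x in ({0}ᶜ : Set (Sp (i + 2) (j + 2))),
          (if ‖x‖ < 1 then f (arccos (nrm1 (‖x‖⁻¹ • x))) else 0) := by
        rw [restrict_compl_singleton]
    _ = ∫⁻ x : ({0}ᶜ : Set (Sp (i + 2) (j + 2))),
          (if ‖x.1‖ < 1 then f (arccos (nrm1 (‖x.1‖⁻¹ • x.1))) else 0)
            ∂((volume : Measure (Sp (i + 2) (j + 2))).comap (↑)) := by
        rw [lintegral_subtype_comap (measurableSet_singleton _).compl
          (fun x => (if ‖x‖ < 1 then f (arccos (nrm1 (‖x‖⁻¹ • x))) else 0))]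
    _ = ∫⁻ x : ({0}ᶜ : Set (Sp (i + 2) (j + 2))),
          g (homeomorphUnitSphereProd (Sp (i + 2) (j + 2)) x)
            ∂((volume : Measure (Sp (i + 2) (j + 2))).comap (↑)) := by
        apply lintegral_congr
        intro x
        simp only [hg, homeomorphUnitSphereProd_apply_fst_coe]
        by_cases hx : ‖x.1‖ < 1
        · rw [if_pos hx, indicator_of_mem, mul_one]
          rw [mem_Iio, ← Subtype.coe_lt_coe, homeomorphUnitSphereProd_apply_snd_coe]
          exact hx
        · rw [if_neg hx, indicator_of_notMem, mul_zero]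
          rw [mem_Iio, ← Subtype.coe_lt_coe, homeomorphUnitSphereProd_apply_snd_coe]
          exact hx
    _ = ∫⁻ p, g p ∂((volume : Measure (Sp (i + 2) (j + 2))).toSphere.prod
          (Measure.volumeIoiPow (Module.finrank ℝ (Sp (i + 2) (j + 2)) - 1))) := by
        exact hmp.lintegral_comp_emb (Homeomorph.measurableEmbedding _) g
    _ = _ := by
        simp only [hg]
        rw [lintegral_prod_mul
          (f := fun u : Metric.sphere (0 : Sp (i + 2) (j + 2)) 1 => f (arccos (nrm1 u.val)))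
          (g := fun r => (Iio (⟨1, mem_Ioi.2 one_pos⟩ : Ioi (0 : ℝ))).indicator
            (fun _ => (1 : ENNReal)) r)]
        · rw [lintegral_indicator measurableSet_Iio]
          simp [SF]
        · exact (hf.comp (Real.measurable_arccos.comp
            (nrm1_cont.comp continuous_subtype_val).measurable)).aemeasurable
        · exact (measurable_const.indicator measurableSet_Iio).aemeasurable

private theorem polar_side (i j : ℕ) {f : ℝ → ENNReal} (hf : Measurable f) :
    ∫⁻ r in Ioi (0 : ℝ), ∫⁻ s in Ioi (0 : ℝ),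
          ENNReal.ofReal (r ^ (i + 1) * s ^ (j + 1)) * FF f r s =
      (∫⁻ r in Ioo (0 : ℝ) 1, ENNReal.ofReal (r ^ (i + j + 3))) * TF i j f := by
  set G : ℝ × ℝ → ENNReal := (Ioi (0 : ℝ) ×ˢ Ioi (0 : ℝ)).indicator
    (fun p => ENNReal.ofReal (p.1 ^ (i + 1) * p.2 ^ (j + 1)) * FF f p.1 p.2) with hG
  set H : ℝ × ℝ → ENNReal := fun p =>
    (Ioo (0 : ℝ) 1).indicator (fun r => ENNReal.ofReal (r ^ (i + j + 3))) p.1 *
    (Ioo (0 : ℝ) (π / 2)).indicator
      (fun t => ENNReal.ofReal (cos t ^ (i + 1) * sin t ^ (j + 1)) * f t) p.2 with hH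
  have hGm : Measurable G := by
    apply Measurable.indicator _ (measurableSet_Ioi.prod measurableSet_Ioi)
    exact (by fun_prop : Measurable fun p : ℝ × ℝ =>
      ENNReal.ofReal (p.1 ^ (i + 1) * p.2 ^ (j + 1))).mul (FF_meas hf)
  have h1 : ∫⁻ r in Ioi (0 : ℝ), ∫⁻ s in Ioi (0 : ℝ),
          ENNReal.ofReal (r ^ (i + 1) * s ^ (j + 1)) * FF f r s = ∫⁻ p, G p := by
    rw [Measure.volume_eq_prod, lintegral_prod _ hGm.aemeasurable,
      ← lintegral_indicator measurableSet_Ioi]
    apply lintegral_congr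
    intro r
    by_cases hr : r ∈ Ioi (0 : ℝ)
    · rw [indicator_of_mem hr, ← lintegral_indicator measurableSet_Ioi]
      apply lintegral_congr
      intro s
      by_cases hs : s ∈ Ioi (0 : ℝ)
      · rw [indicator_of_mem hs, hG, indicator_of_mem (show (r, s) ∈ Ioi (0 : ℝ) ×ˢ Ioi (0 : ℝ) from ⟨hr, hs⟩)]
      · rw [indicator_of_notMem hs, hG, indicator_of_notMem (fun h => hs h.2)]
    · rw [indicator_of_notMem hr]
      symm
      rw [lintegral_eq_zero_of_ae_eq_zero]
      filter_upwards with s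
      rw [hG, indicator_of_notMem (fun h => hr h.1)]
      rfl
  have h2 : ∫⁻ p, G p = ∫⁻ p, H p := by
    rw [← lintegral_comp_polarCoord_symm, ← lintegral_indicator polarCoord.open_target.measurableSet]
    apply lintegral_congr
    intro p
    obtain ⟨r, t⟩ := p
    by_cases hp : (r, t) ∈ polarCoord.target
    · rw [indicator_of_mem hp]
      obtain ⟨hr, ht⟩ := hp
      simp only [mem_Ioi, mem_Ioo] at hr ht
      simp only [polarCoord_symm_apply, smul_eq_mul]
      by_cases ht' : t ∈ Ioo (0 : ℝ) (π / 2)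
      · have hc : 0 < cos t := cos_pos_of_mem_Ioo ⟨by linarith [ht'.1, Real.pi_pos], ht'.2⟩
        have hs : 0 < sin t := sin_pos_of_pos_of_lt_pi ht'.1 ht.2
        have hmem : (r * cos t, r * sin t) ∈ Ioi (0 : ℝ) ×ˢ Ioi (0 : ℝ) :=
          ⟨mul_pos hr hc, mul_pos hr hs⟩
        have hsq : √((r * cos t) ^ 2 + (r * sin t) ^ 2) = r := by
          have : (r * cos t) ^ 2 + (r * sin t) ^ 2 = r ^ 2 := by
            have := cos_sq_add_sin_sq t
            linear_combination r ^ 2 * this
          rw [this, Real.sqrt_sq hr.le]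
        rw [hG, hH, indicator_of_mem hmem]
        simp only [indicator_of_mem ht', FF, hsq]
        by_cases hr1 : r < 1
        · rw [indicator_of_mem (show r ∈ Ioo (0 : ℝ) 1 from ⟨hr, hr1⟩), if_pos hr1,
            mul_div_cancel_left₀ _ hr.ne', arccos_cos ht'.1.le ht.2.le, ← mul_assoc, ← mul_assoc,
            ← ENNReal.ofReal_mul hr.le, ← ENNReal.ofReal_mul (by positivity)]
          congr 2
          ring
        · rw [indicator_of_notMem (fun h => hr1 h.2), if_neg hr1]
          simp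
      · have hnm : (r * cos t, r * sin t) ∉ Ioi (0 : ℝ) ×ˢ Ioi (0 : ℝ) := by
          rintro ⟨hc, hs⟩
          simp only [mem_Ioi] at hc hs
          have hc' : 0 < cos t := by
            by_contra hcon
            nlinarith [not_lt.1 hcon]
          have hs' : 0 < sin t := by
            by_contra hcon
            nlinarith [not_lt.1 hcon]
          apply ht'
          constructor
          · by_contra hcon
            have := sin_nonpos_of_nonpos_of_neg_pi_le (not_lt.1 hcon) ht.1.le
            linarith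
          · by_contra hcon
            have := cos_nonpos_of_pi_div_two_le_of_le (not_lt.1 hcon) (by linarith [ht.2, Real.pi_pos])
            linarith
        rw [hG, hH, indicator_of_notMem hnm]
        simp only [indicator_of_notMem ht', mul_zero]
    · rw [indicator_of_notMem hp, hH]
      simp only
      by_cases hr : r ∈ Ioo (0 : ℝ) 1
      · have ht : t ∉ Ioo (0 : ℝ) (π / 2) := fun h => hp ⟨hr.1, by linarith [h.1, Real.pi_pos],
          by linarith [h.2, Real.pi_pos]⟩
        rw [indicator_of_notMem ht, mul_zero]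
      · rw [indicator_of_notMem hr, zero_mul]
  rw [h1, h2, Measure.volume_eq_prod, hH]
  rw [lintegral_prod_mul
    (f := (Ioo (0 : ℝ) 1).indicator (fun r => ENNReal.ofReal (r ^ (i + j + 3))))
    (g := (Ioo (0 : ℝ) (π / 2)).indicator
      (fun t => ENNReal.ofReal (cos t ^ (i + 1) * sin t ^ (j + 1)) * f t))]
  · rw [lintegral_indicator measurableSet_Ioo, lintegral_indicator measurableSet_Ioo, TF]
  · exact (Measurable.indicator (by fun_prop) measurableSet_Ioo).aemeasurable
  · exact (Measurable.indicator (by fun_prop) measurableSet_Ioo).aemeasurable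

private theorem TF_one (i j : ℕ) : TF i j (fun _ => 1) = ENNReal.ofReal (wal (i + 1) (j + 1)) := by
  unfold TF wal
  simp only [mul_one]
  rw [intervalIntegral.integral_of_le (by positivity), integral_Ioc_eq_integral_Ioo,
    ofReal_integral_eq_lintegral_ofReal]
  · have : Continuous (fun t : ℝ => cos t ^ (i + 1) * sin t ^ (j + 1)) := by fun_prop
    exact (this.integrableOn_Icc (a := 0) (b := π / 2)).mono_set Ioo_subset_Icc_self
  · filter_upwards [ae_restrict_mem measurableSet_Ioo] with t ht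
    have hc : 0 < cos t := cos_pos_of_mem_Ioo ⟨by linarith [ht.1, Real.pi_pos], ht.2⟩
    have hs : 0 < sin t := sin_pos_of_pos_of_lt_pi ht.1 (by linarith [ht.2, Real.pi_pos])
    exact (mul_pos (pow_pos hc _) (pow_pos hs _)).le

/-- Integrals over the sphere of functions of the angle: apply lintegral_norms to
F r s = f (angle of (r, s)) on the unit ball and use polar coordinates on both sides; the
constant is found by taking f = 1. -/
theorem sphere_lintegral (i j : ℕ) {f : ℝ → ENNReal} (hf : Measurable f) :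
    (∫⁻ x : Metric.sphere (0 : Sp (i + 2) (j + 2)) 1, f (arccos (nrm1 x.val))
        ∂(volume : Measure (Sp (i + 2) (j + 2))).toSphere) *
      ENNReal.ofReal (wal (i + 1) (j + 1)) =
    (volume : Measure (Sp (i + 2) (j + 2))).toSphere univ *
      ∫⁻ t in Ioo 0 (π / 2), ENNReal.ofReal (cos t ^ (i + 1) * sin t ^ (j + 1)) * f t := by
  obtain ⟨C, hC0, hCt, hC⟩ := lintegral_norms (i + 2) (j + 2) (by omega) (by omega)
  have key : ∀ g : ℝ → ENNReal, Measurable g →
      SF i j g * Measure.volumeIoiPow (Module.finrank ℝ (Sp (i + 2) (j + 2)) - 1)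
        (Iio ⟨1, mem_Ioi.2 one_pos⟩) =
      C * ((∫⁻ r in Ioo (0 : ℝ) 1, ENNReal.ofReal (r ^ (i + j + 3))) * TF i j g) := by
    intro g hg
    rw [← sphere_side i j hg, hC (FF g) (FF_meas hg), ← polar_side i j hg]
    rfl
  have hS1 : SF i j (fun _ => 1) = (volume : Measure (Sp (i + 2) (j + 2))).toSphere univ := by
    simp [SF]
  have hk1 := key (fun _ => 1) measurable_const
  have hkf := key f hf
  rw [hS1] at hk1
  rw [← TF_one]
  change SF i j f * TF i j (fun _ => 1) =
    (volume : Measure (Sp (i + 2) (j + 2))).toSphere univ * TF i j f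
  set c := Measure.volumeIoiPow (Module.finrank ℝ (Sp (i + 2) (j + 2)) - 1)
        (Iio ⟨1, mem_Ioi.2 one_pos⟩) with hc
  have hcv : c = ENNReal.ofReal (1 ^ (Module.finrank ℝ (Sp (i + 2) (j + 2)) - 1 + 1) /
      (((Module.finrank ℝ (Sp (i + 2) (j + 2)) - 1 : ℕ) : ℝ) + 1)) := by
    rw [hc, Measure.volumeIoiPow_apply_Iio]
  have hc0 : c ≠ 0 := by
    rw [hcv]
    have : (0 : ℝ) < 1 ^ (Module.finrank ℝ (Sp (i + 2) (j + 2)) - 1 + 1) /
      (((Module.finrank ℝ (Sp (i + 2) (j + 2)) - 1 : ℕ) : ℝ) + 1) := by positivity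
    simpa using this
  have hct : c ≠ ⊤ := by rw [hcv]; exact ENNReal.ofReal_ne_top
  rw [← ENNReal.mul_right_inj hc0 hct]
  set I := ∫⁻ r in Ioo (0 : ℝ) 1, ENNReal.ofReal (r ^ (i + j + 3)) with hI
  calc c * (SF i j f * TF i j (fun _ => 1)) = (SF i j f * c) * TF i j (fun _ => 1) := by ring
    _ = (C * (I * TF i j f)) * TF i j (fun _ => 1) := by rw [hkf]
    _ = (C * (I * TF i j (fun _ => 1))) * TF i j f := by ring
    _ = _ := by rw [← hk1]; ring

end Pool.Agent.Lib.MP_c3a607_gt.Rp
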