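import Mathlib

namespace Pool.Agent.Lib.MP_c3a607_gt.Rp

open Set Real

/-- A Householder reflection which maps the first basis vector to a given unit vector. -/
private theorem so_trans_refl (n : ℕ) (u : Fin (n + 2) → ℝ) (hu : ∑ s, u s ^ 2 = 1) :
    ∃ H ∈ Matrix.orthogonalGroup (Fin (n + 2)) ℝ, H.mulVec (Pi.single 0 1) = u := by
  by_cases h : u = Pi.single 0 1
  · exact ⟨1, one_mem _, by rw [Matrix.one_mulVec, h]⟩
  · set w : Fin (n + 2) → ℝ := u - Pi.single 0 1 with hw
    have hw0 : w ≠ 0 := fun h0 => h (sub_eq_zero.1 h0)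
    have hww : w ⬝ᵥ w ≠ 0 := by
      intro h0
      exact hw0 (dotProduct_self_eq_zero.1 h0)
    have huu : u ⬝ᵥ u = 1 := by
      rw [← hu]
      unfold dotProduct
      exact Finset.sum_congr rfl fun s _ => by ring
    have hwe : w ⬝ᵥ (Pi.single 0 1) = u 0 - 1 := by
      rw [hw, sub_dotProduct, dotProduct_single, dotProduct_single]
      simp
    have hww2 : w ⬝ᵥ w = 2 * (1 - u 0) := by
      have h1 : w ⬝ᵥ w = w ⬝ᵥ u - w ⬝ᵥ (Pi.single 0 1) := by
        conv_lhs => rw [hw]
        rw [← hw, dotProduct_sub]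
      have h2 : w ⬝ᵥ u = 1 - u 0 := by
        rw [hw, sub_dotProduct, huu, single_dotProduct]
        simp
      rw [h1, h2, hwe]
      ring
    refine ⟨1 - (2 / (w ⬝ᵥ w)) • Matrix.vecMulVec w w, ?_, ?_⟩
    · rw [Matrix.mem_orthogonalGroup_iff]
      have hst : (1 - (2 / (w ⬝ᵥ w)) • Matrix.vecMulVec w w).transpose =
          1 - (2 / (w ⬝ᵥ w)) • Matrix.vecMulVec w w := by
        ext i j
        simp [Matrix.transpose_apply, Matrix.vecMulVec_apply, Matrix.one_apply, eq_comm, mul_comm]
      rw [hst]
      have hsq : Matrix.vecMulVec w w * Matrix.vecMulVec w w =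
          (w ⬝ᵥ w) • Matrix.vecMulVec w w := by
        ext i j
        simp only [Matrix.mul_apply, Matrix.vecMulVec_apply, Matrix.smul_apply, smul_eq_mul,
          dotProduct, Finset.sum_mul]
        exact Finset.sum_congr rfl fun s _ => by ring
      rw [sub_mul, mul_sub, mul_sub, one_mul, one_mul, mul_one, smul_mul_smul_comm, hsq,
        smul_smul]
      have : 2 / w ⬝ᵥ w * (2 / w ⬝ᵥ w) * w ⬝ᵥ w = 2 / w ⬝ᵥ w + 2 / w ⬝ᵥ w := by
        field_simp
        ring
      rw [this, add_smul]
      abel
    · rw [Matrix.sub_mulVec, Matrix.one_mulVec, Matrix.smul_mulVec,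
        Matrix.vecMulVec_mulVec]
      have h1 : (2 / (w ⬝ᵥ w)) * (w ⬝ᵥ (Pi.single 0 1)) = -1 := by
        have : (1 - u 0) ≠ 0 := by
          intro h0
          rw [hww2, h0, mul_zero] at hww
          exact hww rfl
        rw [hwe, hww2]
        field_simp
        ring
      ext i
      have h2 := congrFun hw i
      simp only [Pi.sub_apply] at h2
      simp only [Pi.sub_apply, Pi.smul_apply, smul_eq_mul, MulOpposite.smul_eq_mul_unop,
        MulOpposite.unop_op]
      linear_combination (-(w i)) * h1 + h2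

/-- SO(n + 2) is transitive on the vectors of given length. -/
theorem so_trans (n : ℕ) (v : Fin (n + 2) → ℝ) :
    ∃ A ∈ Matrix.orthogonalGroup (Fin (n + 2)) ℝ, A.det = 1 ∧
      A.mulVec (fun r => if r = 0 then √(∑ s, v s ^ 2) else 0) = v := by
  have hnn : 0 ≤ ∑ s, v s ^ 2 := Finset.sum_nonneg fun s _ => sq_nonneg _
  by_cases hN : √(∑ s, v s ^ 2) = 0
  · have h0 : ∑ s, v s ^ 2 = 0 := (Real.sqrt_eq_zero hnn).1 hN
    have hv : v = 0 := by
      funext s
      have := (Finset.sum_eq_zero_iff_of_nonneg (fun s _ => sq_nonneg (v s))).1 h0 s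
        (Finset.mem_univ s)
      exact pow_eq_zero_iff (two_ne_zero) |>.1 this
    refine ⟨1, one_mem _, Matrix.det_one, ?_⟩
    rw [Matrix.one_mulVec, hN, hv]
    funext r
    simp
  · set N := √(∑ s, v s ^ 2) with hNdef
    have hN2 : N ^ 2 = ∑ s, v s ^ 2 := Real.sq_sqrt hnn
    obtain ⟨H, hH, hHu⟩ := so_trans_refl n (fun s => v s / N) (by
      have : ∀ s, (v s / N) ^ 2 = v s ^ 2 / N ^ 2 := fun s => div_pow _ _ _
      simp only [this]
      rw [← Finset.sum_div, ← hN2]
      exact div_self (pow_ne_zero 2 hN))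
    have hvec : (fun r : Fin (n + 2) => if r = 0 then N else 0) =
        N • (Pi.single 0 1 : Fin (n + 2) → ℝ) := by
      funext r
      by_cases hr : r = 0
      · subst hr
        simp
      · simp [hr]
    have hfin : ∀ A : Matrix (Fin (n + 2)) (Fin (n + 2)) ℝ,
        A.mulVec (Pi.single 0 1) = (fun s => v s / N) →
        A.mulVec (fun r => if r = 0 then N else 0) = v := by
      intro A hA
      rw [hvec, Matrix.mulVec_smul, hA]
      funext s
      simp only [Pi.smul_apply, smul_eq_mul]
      field_simp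
    have hdet : H.det = 1 ∨ H.det = -1 := by
      have h1 := (Matrix.mem_orthogonalGroup_iff (Fin (n + 2)) ℝ).1 hH
      have h2 := congrArg Matrix.det h1
      rw [Matrix.det_mul, Matrix.det_one] at h2
      rw [Matrix.det_transpose] at h2
      have h4 : (H.det - 1) * (H.det + 1) = 0 := by linear_combination h2
      rcases mul_eq_zero.1 h4 with h5 | h5
      · left; linarith
      · right; linarith
    rcases hdet with hd | hd
    · exact ⟨H, hH, hd, hfin H hHu⟩
    · set K : Matrix (Fin (n + 2)) (Fin (n + 2)) ℝ :=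
        Matrix.diagonal (fun i => if i = 1 then -1 else 1) with hK
      have hKO : K ∈ Matrix.orthogonalGroup (Fin (n + 2)) ℝ := by
        rw [Matrix.mem_orthogonalGroup_iff, hK,
          Matrix.diagonal_transpose, Matrix.diagonal_mul_diagonal]
        rw [← Matrix.diagonal_one]
        congr 1
        funext i
        by_cases hi : i = 1 <;> simp [hi]
      have hKd : K.det = -1 := by
        rw [hK, Matrix.det_diagonal]
        simp
      refine ⟨H * K, mul_mem hH hKO, ?_, ?_⟩
      · rw [Matrix.det_mul, hd, hKd]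
        norm_num
      · apply hfin
        rw [← Matrix.mulVec_mulVec]
        have hKe : K.mulVec (Pi.single 0 1) = Pi.single 0 1 := by
          rw [hK]
          funext i
          rw [Matrix.mulVec_diagonal]
          by_cases hi : i = 0
          · subst hi
            simp
          · simp [hi]
        rw [hKe, hHu]

end Pool.Agent.Lib.MP_c3a607_gt.Rp
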