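import Pool.Agent.Lib.MP_c3a607_gt.Rp.GeoBasic
import Pool.Agent.Lib.MP_c3a607_gt.Rp.SoTrans

namespace Pool.Agent.Lib.MP_c3a607_gt.Rp

open Set Real MeasureTheory

/-- Every point of the sphere is in the orbit of some x0 t. -/
theorem exists_act {i j : ℕ} {x : Sp (i + 2) (j + 2)}
    (hx : x ∈ Metric.sphere (0 : Sp (i + 2) (j + 2)) 1) :
    ∃ A ∈ Matrix.orthogonalGroup (Fin (i + 2)) ℝ, A.det = 1 ∧
    ∃ B ∈ Matrix.orthogonalGroup (Fin (j + 2)) ℝ, B.det = 1 ∧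
      act A B (x0 i j (arccos (nrm1 x))) = x := by
  have hsum : ∑ r : Fin (i + 2), x (Sum.inl r) ^ 2 + ∑ r : Fin (j + 2), x (Sum.inr r) ^ 2 = 1 := by
    have h1 : ‖x‖ = 1 := by simpa using hx
    have h2 : ‖x‖ ^ 2 = 1 := by rw [h1]; norm_num
    rw [EuclideanSpace.norm_sq_eq, Fintype.sum_sum_type] at h2
    simpa using h2
  have hS1 : 0 ≤ ∑ r : Fin (i + 2), x (Sum.inl r) ^ 2 := Finset.sum_nonneg fun _ _ => sq_nonneg _
  have hS2 : 0 ≤ ∑ r : Fin (j + 2), x (Sum.inr r) ^ 2 := Finset.sum_nonneg fun _ _ => sq_nonneg _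
  have hn0 : 0 ≤ nrm1 x := Real.sqrt_nonneg _
  have hnsq : nrm1 x ^ 2 = ∑ r : Fin (i + 2), x (Sum.inl r) ^ 2 := Real.sq_sqrt hS1
  have hn1 : nrm1 x ≤ 1 := by nlinarith
  have hcos : cos (arccos (nrm1 x)) = √(∑ r : Fin (i + 2), x (Sum.inl r) ^ 2) := by
    rw [Real.cos_arccos (by linarith) hn1]
    rfl
  have hsin : sin (arccos (nrm1 x)) = √(∑ r : Fin (j + 2), x (Sum.inr r) ^ 2) := by
    rw [Real.sin_arccos, hnsq]
    congr 1
    linarith
  obtain ⟨A, hA, hAd, hAv⟩ := so_trans i (fun r => x (Sum.inl r))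
  obtain ⟨B, hB, hBd, hBv⟩ := so_trans j (fun r => x (Sum.inr r))
  refine ⟨A, hA, hAd, B, hB, hBd, ?_⟩
  unfold act x0 vec4
  rw [hcos, hsin]
  show WithLp.toLp 2 ((Matrix.fromBlocks A 0 0 B).mulVec _) = x
  rw [Matrix.fromBlocks_mulVec]
  have e1 : (Sum.elim
      (fun r : Fin (i + 2) => if r = 0 then √(∑ r : Fin (i + 2), x (Sum.inl r) ^ 2) else
        if r = 1 then 0 else 0)
      (fun r : Fin (j + 2) => if r = 0 then √(∑ r : Fin (j + 2), x (Sum.inr r) ^ 2) else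
        if r = 1 then 0 else 0)) ∘ Sum.inl =
      fun r : Fin (i + 2) => if r = 0 then √(∑ r : Fin (i + 2), x (Sum.inl r) ^ 2) else 0 := by
    funext r
    simp
  have e2 : (Sum.elim
      (fun r : Fin (i + 2) => if r = 0 then √(∑ r : Fin (i + 2), x (Sum.inl r) ^ 2) else
        if r = 1 then 0 else 0)
      (fun r : Fin (j + 2) => if r = 0 then √(∑ r : Fin (j + 2), x (Sum.inr r) ^ 2) else
        if r = 1 then 0 else 0)) ∘ Sum.inr =
      fun r : Fin (j + 2) => if r = 0 then √(∑ r : Fin (j + 2), x (Sum.inr r) ^ 2) else 0 := by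
    funext r
    simp
  rw [e1, e2, hAv, hBv, Matrix.zero_mulVec, Matrix.zero_mulVec, add_zero, zero_add]
  ext r
  cases r <;> rfl

end Pool.Agent.Lib.MP_c3a607_gt.Rp
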