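import Pool.Agent.Lib.MP_c3a607_gt.Rp.SliceRefl
import Pool.Agent.Lib.MP_c3a607_gt.Rp.IntegDiag
import Pool.Agent.Lib.MP_c3a607_gt.Rp.IntegPlane
import Pool.Agent.Lib.MP_c3a607_gt.Rp.SliceOk
import Pool.Agent.Lib.MP_c3a607_gt.Rp.SliceSys
import Pool.Agent.Lib.MP_c3a607_gt.Rp.Trans
import Pool.Agent.Lib.MP_c3a607_gt.Rp.Dens
import Pool.Agent.Lib.MP_c3a607_gt.Rp.DensX0
import Pool.Agent.Lib.MP_c3a607_gt.Rp.SphereInt
import Pool.Agent.Lib.MP_c3a607_gt.Rp.Pos

namespace Pool.Agent.Lib.MP_c3a607_gt.Rp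

open Set Real MeasureTheory

variable {i j : ℕ}
  {G : Sp (i + 2) (j + 2) → Matrix (Idx (i + 2) (j + 2)) (Idx (i + 2) (j + 2)) ℝ}

theorem rho_diag {S : Slice} (hS : S.Ok) {t : ℝ} (ht : t ∈ Ioo 0 (π / 2)) (h0 : S.H12 t = 0)
    (a b : ℝ) : S.rho a b t = a ^ 2 / S.H11 t + b ^ 2 / S.H22 t := by
  have h1 := Slice.H11_pos hS ht
  have h2 := Slice.H22_pos hS ht
  unfold Slice.rho Slice.delta
  rw [h0]
  field_simp
  ring

theorem m_diag {S : Slice} (hS : S.Ok) {t : ℝ} (ht : t ∈ Ioo 0 (π / 2)) (h0 : S.H12 t = 0)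
    (i j : ℕ) : S.m t * √(S.H11 t) ^ (i + 1) * √(S.H22 t) ^ (j + 1) =
      √(S.det3 t) * √(S.H11 t) ^ i * √(S.H22 t) ^ j := by
  have h1 := Slice.H11_pos hS ht
  have h2 := Slice.H22_pos hS ht
  have h3 := (Slice.det3_pos hS ht).le
  have hd : S.delta t = S.H11 t * S.H22 t := by unfold Slice.delta; rw [h0]; ring
  have e : S.m t * (√(S.H11 t) * √(S.H22 t)) = √(S.det3 t) := by
    unfold Slice.m
    rw [hd, Real.sqrt_div h3, ← Real.sqrt_mul h1.le]
    have : √(S.H11 t * S.H22 t) ≠ 0 := (Real.sqrt_pos.2 (mul_pos h1 h2)).ne'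
    field_simp
  rw [pow_succ, pow_succ, ← e]
  ring

theorem slice_ineq (hG : IsMetric G) (hI : Invariant G) :
    ENNReal.ofReal ((sys G / π) ^ (i + j + 3) * wal (i + 1) (j + 1)) ≤
      ∫⁻ t in Ioo 0 (π / 2), ENNReal.ofReal (√((slice G).det3 t) * √((slice G).H11 t) ^ i *
        √((slice G).H22 t) ^ j) := by
  have hS := slice_ok hG
  have hL := slice_sys hG hI
  have hp := sys_pos hG
  rcases Nat.eq_zero_or_pos (i + j) with h | h
  · obtain ⟨rfl, rfl⟩ : i = 0 ∧ j = 0 := by omega
    have := integ_plane hS hp (fun a b ha hb => Slice.action hS hL ha hb)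
    simpa using this
  · have h12 : ∀ t, (slice G).H12 t = 0 := fun t => H12_zero hG hI h t
    have key := integ_diag i j hp (m := (slice G).m) (h1 := (slice G).H11) (h2 := (slice G).H22)
      (Slice.cont_m hS) (hS.cH11.mono Ioo_subset_Icc_self) (hS.cH22.mono Ioo_subset_Icc_self)
      (fun t ht => (Slice.m_pos hS ht).le) (fun t ht => Slice.H11_pos hS ht)
      (fun t ht => Slice.H22_pos hS ht) ?_
    · refine key.trans (le_of_eq ?_)
      refine setLIntegral_congr_fun measurableSet_Ioo ?_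
      intro t ht
      simp only
      rw [m_diag hS ht (h12 t)]
    · intro a b ha hb
      refine (Slice.action_pos hS hL ha hb).trans (le_of_eq ?_)
      have hle : (0 : ℝ) ≤ π / 2 := by positivity
      rw [intervalIntegral.integral_of_le hle, intervalIntegral.integral_of_le hle,
        MeasureTheory.integral_Ioc_eq_integral_Ioo, MeasureTheory.integral_Ioc_eq_integral_Ioo]
      refine setIntegral_congr_fun measurableSet_Ioo ?_
      intro t ht
      simp only
      rw [rho_diag hS ht (h12 t)]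

theorem vec4_cont (i j : ℕ) {a a' b b' : ℝ → ℝ} (ha : Continuous a) (ha' : Continuous a')
    (hb : Continuous b) (hb' : Continuous b') :
    Continuous fun t => vec4 i j (a t) (a' t) (b t) (b' t) := by
  unfold vec4
  refine (PiLp.continuous_toLp 2 _).comp (continuous_pi fun p => ?_)
  rcases p with r | r
  · simp only [Sum.elim_inl]
    split_ifs <;> fun_prop
  · simp only [Sum.elim_inr]
    split_ifs <;> fun_prop

theorem x0_cont : Continuous (x0 i j) := by
  unfold x0
  exact vec4_cont i j continuous_cos continuous_const continuous_sin continuous_const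

theorem dens_cont_x0 (hG : IsMetric G) : Continuous fun t => dens G (x0 i j t) := by
  have h1 : Continuous fun t => G (x0 i j t) :=
    hG.cont.comp_continuous x0_cont (fun t => x0_mem t)
  have h2 : Continuous fun t => (x0 i j t).ofLp := (PiLp.continuous_ofLp 2 _).comp x0_cont
  have h3 : Continuous fun t => Matrix.vecMulVec (x0 i j t).ofLp (x0 i j t).ofLp :=
    h2.matrix_vecMulVec h2
  have h4 : Continuous fun t => proj (x0 i j t) := by
    unfold proj
    exact continuous_const.sub h3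
  unfold dens
  exact Real.continuous_sqrt.comp
    (((h4.matrix_mul h1).matrix_mul h4).add h3).matrix_det

theorem dens_eq_x0 (hI : Invariant G) {x : Sp (i + 2) (j + 2)}
    (hx : x ∈ Metric.sphere (0 : Sp (i + 2) (j + 2)) 1) :
    dens G x = dens G (x0 i j (arccos (nrm1 x))) := by
  obtain ⟨A, hA, hA1, B, hB, hB1, h⟩ := exists_act hx
  have := dens_act hI hA hA1 hB hB1 (x0_mem (i := i) (j := j) (arccos (nrm1 x)))
  rw [h] at this
  exact this

theorem nrm1_cont {k l : ℕ} : Continuous (nrm1 (k := k) (l := l)) := by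
  unfold nrm1
  refine Real.continuous_sqrt.comp (continuous_finsetSum _ fun r _ => ?_)
  fun_prop

theorem lint_dens (hG : IsMetric G) (hI : Invariant G) :
    (volume : Measure (Sp (i + 2) (j + 2))).toSphere univ *
        ENNReal.ofReal ((sys G / π) ^ (i + j + 3)) ≤
      ∫⁻ x : Metric.sphere (0 : Sp (i + 2) (j + 2)) 1, ENNReal.ofReal (dens G x.val)
        ∂(volume : Measure (Sp (i + 2) (j + 2))).toSphere := by
  have hp := sys_pos hG
  have e1 : (∫⁻ x : Metric.sphere (0 : Sp (i + 2) (j + 2)) 1, ENNReal.ofReal (dens G x.val)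
        ∂(volume : Measure (Sp (i + 2) (j + 2))).toSphere) =
      ∫⁻ x : Metric.sphere (0 : Sp (i + 2) (j + 2)) 1,
        (fun t => ENNReal.ofReal (dens G (x0 i j t))) (arccos (nrm1 x.val))
        ∂(volume : Measure (Sp (i + 2) (j + 2))).toSphere := by
    refine lintegral_congr fun x => ?_
    simp only
    rw [dens_eq_x0 hI x.2]
  have hw := wal_pos (i + 1) (j + 1)
  have e2 := sphere_lintegral i j (f := fun t => ENNReal.ofReal (dens G (x0 i j t)))
    (ENNReal.measurable_ofReal.comp (dens_cont_x0 hG).measurable)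
  rw [← e1] at e2
  have e3 : (∫⁻ t in Ioo 0 (π / 2), ENNReal.ofReal (cos t ^ (i + 1) * sin t ^ (j + 1)) *
      ENNReal.ofReal (dens G (x0 i j t))) =
      ∫⁻ t in Ioo 0 (π / 2), ENNReal.ofReal (√((slice G).det3 t) * √((slice G).H11 t) ^ i *
        √((slice G).H22 t) ^ j) := by
    refine setLIntegral_congr_fun measurableSet_Ioo ?_
    intro t ht
    simp only
    have hc : 0 < cos t := Real.cos_pos_of_mem_Ioo ⟨by linarith [ht.1, Real.pi_pos], ht.2⟩
    have hs : 0 < sin t := Real.sin_pos_of_pos_of_lt_pi ht.1 (by linarith [ht.2, Real.pi_pos])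
    rw [← ENNReal.ofReal_mul (by positivity), dens_x0 hG hI ht]
    congr 1
    field_simp
  rw [e3] at e2
  have e4 := slice_ineq hG hI
  have hw0 : ENNReal.ofReal (wal (i + 1) (j + 1)) ≠ 0 := by
    rw [Ne, ENNReal.ofReal_eq_zero, not_le]; exact hw
  have hwt : ENNReal.ofReal (wal (i + 1) (j + 1)) ≠ ⊤ := ENNReal.ofReal_ne_top
  rw [← ENNReal.mul_le_mul_iff_left hw0 hwt, e2, mul_assoc, ← ENNReal.ofReal_mul (by positivity)]
  gcongr

theorem main_ineq (hG : IsMetric G) (hI : Invariant G) :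
    (1 / 2) * ((volume : Measure (Sp (i + 2) (j + 2))).toSphere univ).toReal *
      (sys G / π) ^ (i + j + 3) ≤ vol G := by
  have hp := sys_pos hG
  have h := lint_dens hG hI
  have hm : AEStronglyMeasurable (fun x : Metric.sphere (0 : Sp (i + 2) (j + 2)) 1 =>
      dens G x.val) ((volume : Measure (Sp (i + 2) (j + 2))).toSphere) := by
    have : (fun x : Metric.sphere (0 : Sp (i + 2) (j + 2)) 1 => dens G x.val) =
        fun x => dens G (x0 i j (arccos (nrm1 x.val))) := by
      funext x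
      exact dens_eq_x0 hI x.2
    rw [this]
    exact ((dens_cont_x0 hG).comp (Real.continuous_arccos.comp
      (nrm1_cont.comp continuous_subtype_val))).aestronglyMeasurable
  have hn : 0 ≤ᵐ[(volume : Measure (Sp (i + 2) (j + 2))).toSphere]
      fun x : Metric.sphere (0 : Sp (i + 2) (j + 2)) 1 => dens G x.val :=
    Filter.Eventually.of_forall fun x => Real.sqrt_nonneg _
  have hfin : (∫⁻ x : Metric.sphere (0 : Sp (i + 2) (j + 2)) 1, ENNReal.ofReal (dens G x.val)
        ∂(volume : Measure (Sp (i + 2) (j + 2))).toSphere) ≠ ⊤ := by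
    have hb : ∃ C : ℝ, ∀ t ∈ Icc 0 π, dens G (x0 i j t) ≤ C := by
      obtain ⟨C, hC⟩ := (isCompact_Icc.image_of_continuousOn
        (dens_cont_x0 hG).continuousOn).bddAbove
      exact ⟨C, fun t ht => hC ⟨t, ht, rfl⟩⟩
    obtain ⟨C, hC⟩ := hb
    refine ne_top_of_le_ne_top (b := ENNReal.ofReal C *
      (volume : Measure (Sp (i + 2) (j + 2))).toSphere univ) ?_ ?_
    · exact ENNReal.mul_ne_top ENNReal.ofReal_ne_top (measure_ne_top _ _)
    · refine (lintegral_mono (g := fun _ => ENNReal.ofReal C) fun x => ?_).trans (by simp)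
      refine ENNReal.ofReal_le_ofReal ?_
      rw [dens_eq_x0 hI x.2]
      exact hC _ ⟨Real.arccos_nonneg _, Real.arccos_le_pi _⟩
  unfold vol
  rw [integral_eq_lintegral_of_nonneg_ae hn hm]
  have h2 := ENNReal.toReal_mono hfin h
  rw [ENNReal.toReal_mul, ENNReal.toReal_ofReal (by positivity)] at h2
  nlinarith [h2]

end Pool.Agent.Lib.MP_c3a607_gt.Rp
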