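import Pool.Agent.Lib.MP_c3a607_gt.Rp.Geo

namespace Pool.Agent.Lib.MP_c3a607_gt.Rp

open Set Real MeasureTheory

/-- Polar coordinates for functions of the norm, nonnegative integral. -/
private theorem lintegral_norm_polar {E : Type*} [NormedAddCommGroup E] [NormedSpace ℝ E]
    [MeasurableSpace E] [BorelSpace E] [FiniteDimensional ℝ E] [Nontrivial E]
    (μ : Measure E) [μ.IsAddHaarMeasure] (f : ℝ → ENNReal) (hf : Measurable f) :
    ∫⁻ x, f ‖x‖ ∂μ = μ.toSphere univ *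
      ∫⁻ y in Ioi (0 : ℝ), ENNReal.ofReal (y ^ (Module.finrank ℝ E - 1)) * f y := by
  calc
    ∫⁻ x, f ‖x‖ ∂μ = ∫⁻ x : ({(0)}ᶜ : Set E), f (‖x.1‖) ∂(μ.comap (↑)) := by
      rw [lintegral_subtype_comap (measurableSet_singleton _).compl fun x ↦ f (‖x‖),
        restrict_compl_singleton]
    _ = ∫⁻ x, f x.2 ∂μ.toSphere.prod (.volumeIoiPow (Module.finrank ℝ E - 1)) := by
      simpa using μ.measurePreserving_homeomorphUnitSphereProd.lintegral_comp_emb
        (Homeomorph.measurableEmbedding _) (f ∘ Subtype.val ∘ Prod.snd)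
    _ = μ.toSphere univ *
        ∫⁻ x : Ioi (0 : ℝ), f x ∂.volumeIoiPow (Module.finrank ℝ E - 1) := by
      rw [lintegral_prod _ (by fun_prop)]
      simp [mul_comm]
    _ = _ := by
      congr 1
      rw [Measure.volumeIoiPow, lintegral_withDensity_eq_lintegral_mul _ (by fun_prop)
        (by fun_prop)]
      exact lintegral_subtype_comap measurableSet_Ioi
        (fun a : ℝ ↦ ENNReal.ofReal (a ^ (Module.finrank ℝ E - 1)) * f a)

/-- The same for functions of the square root of the sum of the squares of the coordinates. -/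
private theorem lintegral_sqrt_polar {n : ℕ} (hn : 0 < n) :
    ∃ C : ENNReal, C ≠ 0 ∧ C ≠ ⊤ ∧ ∀ f : ℝ → ENNReal, Measurable f →
      ∫⁻ y : Fin n → ℝ, f (√(∑ r, y r ^ 2)) =
        C * ∫⁻ r in Ioi (0 : ℝ), ENNReal.ofReal (r ^ (n - 1)) * f r := by
  have : Nonempty (Fin n) := ⟨⟨0, hn⟩⟩
  have : Nontrivial (EuclideanSpace ℝ (Fin n)) := inferInstance
  refine ⟨(volume : Measure (EuclideanSpace ℝ (Fin n))).toSphere univ, ?_, ?_, ?_⟩
  · rw [Ne, Measure.measure_univ_eq_zero]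
    exact Measure.toSphere_ne_zero _
  · exact measure_ne_top _ _
  · intro f hf
    have h := lintegral_norm_polar (volume : Measure (EuclideanSpace ℝ (Fin n))) f hf
    rw [finrank_euclideanSpace_fin] at h
    rw [← h]
    have h2 := (PiLp.volume_preserving_ofLp (Fin n)).lintegral_comp_emb
      (MeasurableEquiv.toLp 2 (Fin n → ℝ)).symm.measurableEmbedding
      (fun y : Fin n → ℝ => f (√(∑ r, y r ^ 2)))
    rw [← h2]
    refine lintegral_congr fun x => ?_
    simp [EuclideanSpace.norm_eq]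

/-- Integrals over R^k x R^l of functions of the two norms (volume-preserving identification
with a product, and polar coordinates in each factor). -/
theorem lintegral_norms (k l : ℕ) (hk : 0 < k) (hl : 0 < l) :
    ∃ C : ENNReal, C ≠ 0 ∧ C ≠ ⊤ ∧ ∀ F : ℝ → ℝ → ENNReal, Measurable (Function.uncurry F) →
      ∫⁻ x : Sp k l, F (nrm1 x) (√(∑ s : Fin l, x (Sum.inr s) ^ 2)) =
        C * ∫⁻ r in Ioi (0 : ℝ), ∫⁻ s in Ioi (0 : ℝ),
          ENNReal.ofReal (r ^ (k - 1) * s ^ (l - 1)) * F r s := by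
  obtain ⟨C₁, h10, h1t, h1⟩ := lintegral_sqrt_polar hk
  obtain ⟨C₂, h20, h2t, h2⟩ := lintegral_sqrt_polar hl
  refine ⟨C₁ * C₂, mul_ne_zero h10 h20, ENNReal.mul_ne_top h1t h2t, ?_⟩
  intro F hF
  have hF' : ∀ r : ℝ, Measurable (F r) := fun r => hF.comp (by fun_prop : Measurable fun s => (r, s))
  have e1 : ∫⁻ x : Sp k l, F (nrm1 x) (√(∑ s : Fin l, x (Sum.inr s) ^ 2)) =
      ∫⁻ y : Idx k l → ℝ, F (√(∑ r : Fin k, y (Sum.inl r) ^ 2))
        (√(∑ s : Fin l, y (Sum.inr s) ^ 2)) := by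
    exact (PiLp.volume_preserving_ofLp (Idx k l)).lintegral_comp_emb
      (MeasurableEquiv.toLp 2 (Idx k l → ℝ)).symm.measurableEmbedding
      (fun y : Idx k l → ℝ => F (√(∑ r : Fin k, y (Sum.inl r) ^ 2))
        (√(∑ s : Fin l, y (Sum.inr s) ^ 2)))
  have e2 : ∫⁻ y : Idx k l → ℝ, F (√(∑ r : Fin k, y (Sum.inl r) ^ 2))
        (√(∑ s : Fin l, y (Sum.inr s) ^ 2)) =
      ∫⁻ z : (Fin k → ℝ) × (Fin l → ℝ), F (√(∑ r : Fin k, z.1 r ^ 2))
        (√(∑ s : Fin l, z.2 s ^ 2)) := by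
    exact (volume_measurePreserving_sumPiEquivProdPi (fun _ : Idx k l => ℝ)).lintegral_comp_emb
      (MeasurableEquiv.sumPiEquivProdPi (fun _ : Idx k l => ℝ)).measurableEmbedding
      (fun z : (Fin k → ℝ) × (Fin l → ℝ) => F (√(∑ r : Fin k, z.1 r ^ 2))
        (√(∑ s : Fin l, z.2 s ^ 2)))
  rw [e1, e2, Measure.volume_eq_prod, lintegral_prod _ ?_]
  · have e3 : ∀ y : Fin k → ℝ, ∫⁻ w : Fin l → ℝ, F (√(∑ r : Fin k, y r ^ 2))
        (√(∑ s : Fin l, w s ^ 2)) = C₂ * ∫⁻ s in Ioi (0 : ℝ), ENNReal.ofReal (s ^ (l - 1)) *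
          F (√(∑ r : Fin k, y r ^ 2)) s := fun y => h2 _ (hF' _)
    have hmeas : Measurable fun r : ℝ => ∫⁻ s in Ioi (0 : ℝ), ENNReal.ofReal (s ^ (l - 1)) * F r s := by
      apply Measurable.lintegral_prod_right' (f := fun p : ℝ × ℝ => ENNReal.ofReal (p.2 ^ (l - 1)) * F p.1 p.2)
      exact (by fun_prop : Measurable fun p : ℝ × ℝ => ENNReal.ofReal (p.2 ^ (l - 1))).mul hF
    simp only [e3]
    rw [h1 (fun r => C₂ * ∫⁻ s in Ioi (0 : ℝ), ENNReal.ofReal (s ^ (l - 1)) * F r s)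
      (hmeas.const_mul _)]
    rw [mul_assoc]
    congr 1
    rw [← lintegral_const_mul _ ?_]
    · refine setLIntegral_congr_fun measurableSet_Ioi fun r hr => ?_
      have hr' : 0 ≤ r ^ (k - 1) := pow_nonneg (le_of_lt hr) _
      show ENNReal.ofReal (r ^ (k - 1)) * (C₂ * ∫⁻ s in Ioi (0 : ℝ), ENNReal.ofReal (s ^ (l - 1)) * F r s) =
        C₂ * ∫⁻ s in Ioi (0 : ℝ), ENNReal.ofReal (r ^ (k - 1) * s ^ (l - 1)) * F r s
      rw [mul_left_comm]
      congr 1
      have hm : Measurable fun s : ℝ => ENNReal.ofReal (s ^ (l - 1)) * F r s :=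
        (by fun_prop : Measurable fun s : ℝ => ENNReal.ofReal (s ^ (l - 1))).mul (hF' r)
      rw [← lintegral_const_mul _ hm]
      refine lintegral_congr fun s => ?_
      rw [ENNReal.ofReal_mul hr', mul_assoc]
    · apply Measurable.lintegral_prod_right' (f := fun p : ℝ × ℝ => ENNReal.ofReal (p.1 ^ (k - 1) * p.2 ^ (l - 1)) * F p.1 p.2)
      exact (by fun_prop : Measurable fun p : ℝ × ℝ => ENNReal.ofReal (p.1 ^ (k - 1) * p.2 ^ (l - 1))).mul hF
  · apply Measurable.aemeasurable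
    exact hF.comp (f := fun z : (Fin k → ℝ) × (Fin l → ℝ) => (√(∑ r : Fin k, z.1 r ^ 2), √(∑ s : Fin l, z.2 s ^ 2))) (by fun_prop)

end Pool.Agent.Lib.MP_c3a607_gt.Rp
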