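import Pool.Agent.Lib.MP_c3a607_gt.Rp.IntSimplex

namespace Pool.Agent.Lib.MP_c3a607_gt.Rp

open Set Real MeasureTheory

private theorem planeAbs_two (F : ℝ → ENNReal) :
    ∫⁻ b : ℝ, F |b| = 2 * ∫⁻ b in Ioi (0 : ℝ), F b := by
  rw [← lintegral_add_compl (fun b : ℝ => F |b|) (measurableSet_Ioi (a := (0 : ℝ))), two_mul]
  have h1 : ∫⁻ b in Ioi (0 : ℝ), F |b| = ∫⁻ b in Ioi (0 : ℝ), F b := by
    apply setLIntegral_congr_fun measurableSet_Ioi
    intro b hb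
    simp only
    rw [abs_of_pos hb]
  have h2 : ∫⁻ b in (Ioi (0 : ℝ))ᶜ, F |b| = ∫⁻ b in Ioi (0 : ℝ), F b := by
    rw [compl_Ioi, ← setLIntegral_congr Iio_ae_eq_Iic, ← lintegral_indicator measurableSet_Iio,
      ← lintegral_neg_eq_self, ← h1, ← lintegral_indicator measurableSet_Ioi]
    apply lintegral_congr
    intro b
    simp only [indicator, mem_Iio, mem_Ioi, Left.neg_neg_iff, abs_neg]
  rw [h1, h2]

theorem int_plane_abs {L : ℝ} (hL : 0 < L) :
    ∫⁻ a : ℝ, ∫⁻ b : ℝ, ENNReal.ofReal (L - π * (|a| + |b|)) =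
      ENNReal.ofReal (2 * π / 3 * (L / π) ^ 3) := by
  have h1 : ∀ a : ℝ, ∫⁻ b : ℝ, ENNReal.ofReal (L - π * (|a| + |b|)) =
      2 * ∫⁻ b in Ioi (0 : ℝ), ENNReal.ofReal (L - π * (|a| + b)) := fun a =>
    planeAbs_two (fun b => ENNReal.ofReal (L - π * (|a| + b)))
  simp only [h1]
  rw [planeAbs_two (fun a => 2 * ∫⁻ b in Ioi (0 : ℝ), ENNReal.ofReal (L - π * (a + b)))]
  have h2 : ∀ a b : ℝ, ENNReal.ofReal (L - π * (a + b)) =
      ENNReal.ofReal π * ENNReal.ofReal (L / π - (a + b)) := by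
    intro a b
    rw [← ENNReal.ofReal_mul pi_pos.le]
    congr 1
    field_simp
  simp only [h2]
  have h3 : ∀ a : ℝ, ∫⁻ b in Ioi (0 : ℝ), ENNReal.ofReal π * ENNReal.ofReal (L / π - (a + b)) =
      ENNReal.ofReal π * ∫⁻ b in Ioi (0 : ℝ), ENNReal.ofReal (L / π - (a + b)) := fun a =>
    lintegral_const_mul' _ _ ENNReal.ofReal_ne_top
  simp only [h3]
  rw [lintegral_const_mul' _ _ (by norm_num), lintegral_const_mul' _ _ ENNReal.ofReal_ne_top]
  have h4 := int_simplex 0 0 (c := L / π) (by positivity)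
  simp only [pow_zero, one_mul, zero_add, Nat.factorial_zero, Nat.cast_one, mul_one] at h4
  rw [h4]
  have h5 : (2 : ENNReal) = ENNReal.ofReal 2 := by norm_num
  rw [h5, ← ENNReal.ofReal_mul pi_pos.le, ← ENNReal.ofReal_mul (by norm_num),
    ← ENNReal.ofReal_mul (by norm_num)]
  congr 1
  have : ((Nat.factorial 3 : ℕ) : ℝ) = 6 := by norm_num [Nat.factorial]
  rw [this]
  ring

end Pool.Agent.Lib.MP_c3a607_gt.Rp
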