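import Pool.Agent.Lib.MP_c3a607_gt.Rp.Defs

namespace Pool.Agent.Lib.MP_c3a607_gt.Rp

open Set Real MeasureTheory

variable {k l : ℕ}

private theorem form_round (x v : Sp k l) : form roundG x v v = ‖v‖ ^ 2 := by
  rw [EuclideanSpace.norm_sq_eq]
  simp [form, roundG, Matrix.one_mulVec, dotProduct, sq]

private theorem len_round (γ : ℝ → Sp k l) : len roundG γ = ∫ s in (0:ℝ)..1, ‖deriv γ s‖ := by
  unfold len
  congr 1
  ext s
  rw [form_round, Real.sqrt_sq (norm_nonneg _)]

private theorem arccos_step {γ : ℝ → Sp k l} (hγ : IsLoop γ) {q : ℝ} (hq0 : 0 < q) (hq1 : q < 1) :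
    arccos (-q) - arccos q ≤ ∫ s in (0:ℝ)..1, ‖deriv γ s‖ := by
  have hdiff : Differentiable ℝ γ := hγ.smooth.differentiable (by norm_num)
  have hdc : Continuous (deriv γ) := hγ.smooth.continuous_deriv (by norm_num)
  have hnorm : ∀ s ∈ Icc (0 : ℝ) 1, ‖γ s‖ = 1 := fun s hs => by
    simpa using hγ.mem s hs
  have h0 : ‖γ 0‖ = 1 := hnorm 0 ⟨le_rfl, zero_le_one⟩
  set f : ℝ → ℝ := fun s => inner ℝ (γ 0) (γ s) with hf
  have hfd : ∀ s, HasDerivAt f (inner ℝ (γ 0) (deriv γ s)) s := by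
    intro s
    have := (hasDerivAt_const s (γ 0)).inner ℝ (hdiff s).hasDerivAt
    simpa using this
  have hf0 : f 0 = 1 := by
    simp only [hf]
    rw [real_inner_self_eq_norm_sq, h0]; norm_num
  have hf1 : f 1 = -1 := by
    simp only [hf]
    rw [hγ.anti, inner_neg_right, real_inner_self_eq_norm_sq, h0]; norm_num
  have hfabs : ∀ s ∈ Icc (0 : ℝ) 1, |f s| ≤ 1 := by
    intro s hs
    have := abs_real_inner_le_norm (γ 0) (γ s)
    rw [h0, hnorm s hs] at this
    simpa using this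
  -- the derivative is orthogonal
  have horth : ∀ s ∈ Ioo (0 : ℝ) 1, inner ℝ (γ s) (deriv γ s) = 0 := by
    intro s hs
    have h1 : HasDerivAt (fun u => inner ℝ (γ u) (γ u))
        (inner ℝ (γ s) (deriv γ s) + inner ℝ (deriv γ s) (γ s)) s :=
      (hdiff s).hasDerivAt.inner ℝ (hdiff s).hasDerivAt
    have h2 : HasDerivAt (fun u => inner ℝ (γ u) (γ u)) (0 : ℝ) s := by
      apply (hasDerivAt_const s (1 : ℝ)).congr_of_eventuallyEq
      filter_upwards [Ioo_mem_nhds hs.1 hs.2] with u hu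
      rw [real_inner_self_eq_norm_sq, hnorm u ⟨hu.1.le, hu.2.le⟩]; norm_num
    have h3 := h1.unique h2
    rw [real_inner_comm (γ s) (deriv γ s)] at h3
    linarith
  -- bound
  have hbd : ∀ s ∈ Ioo (0 : ℝ) 1, |inner ℝ (γ 0) (deriv γ s)| ≤ √(1 - f s ^ 2) * ‖deriv γ s‖ := by
    intro s hs
    have e1 : inner ℝ (γ 0) (deriv γ s) = inner ℝ (γ 0 - f s • γ s) (deriv γ s) := by
      rw [inner_sub_left, inner_smul_left, horth s hs]; simp
    have e2 : ‖γ 0 - f s • γ s‖ = √(1 - f s ^ 2) := by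
      have e3 : ‖γ 0 - f s • γ s‖ ^ 2 = 1 - f s ^ 2 := by
        rw [norm_sub_sq_real, inner_smul_right, norm_smul, h0, hnorm s ⟨hs.1.le, hs.2.le⟩]
        simp only [hf, mul_one, Real.norm_eq_abs, sq_abs]
        ring
      rw [← e3, Real.sqrt_sq (norm_nonneg _)]
    rw [e1, ← e2]
    exact abs_real_inner_le_norm _ _
  have hqf : ∀ s ∈ Icc (0 : ℝ) 1, |q * f s| ≤ q := by
    intro s hs
    rw [abs_mul, abs_of_pos hq0]
    nlinarith [hfabs s hs, abs_nonneg (f s)]
  have hlt : ∀ s ∈ Icc (0 : ℝ) 1, 0 < 1 - (q * f s) ^ 2 := by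
    intro s hs
    have h1 := hqf s hs
    have h2 : (q * f s) ^ 2 ≤ q ^ 2 := by
      rw [← sq_abs (q * f s)]
      exact pow_le_pow_left₀ (abs_nonneg _) h1 2
    nlinarith
  set g' : ℝ → ℝ := fun s => -(1 / √(1 - (q * f s) ^ 2)) * (q * inner ℝ (γ 0) (deriv γ s)) with hg'
  have hgd : ∀ s ∈ Icc (0 : ℝ) 1, HasDerivAt (fun u => arccos (q * f u)) (g' s) s := by
    intro s hs
    have h1 : HasDerivAt (fun u => q * f u) (q * inner ℝ (γ 0) (deriv γ s)) s :=
      (hfd s).const_mul q
    have h2 := hqf s hs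
    have h3 := abs_le.1 h2
    exact (Real.hasDerivAt_arccos (by linarith [h3.1]) (by linarith [h3.2])).comp s h1
  have hfc : Continuous f := continuous_iff_continuousAt.2 fun s => (hfd s).continuousAt
  have hgc : ContinuousOn g' (Icc 0 1) := by
    apply ContinuousOn.mul
    · apply ContinuousOn.neg
      apply ContinuousOn.div continuousOn_const
      · exact (Real.continuous_sqrt.comp (by fun_prop)).continuousOn
      · intro s hs
        exact (Real.sqrt_pos.2 (hlt s hs)).ne'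
    · exact (continuous_const.mul (continuous_const.inner hdc)).continuousOn
  have hint : IntervalIntegrable g' volume 0 1 :=
    ContinuousOn.intervalIntegrable (by rwa [uIcc_of_le zero_le_one])
  have hint2 : IntervalIntegrable (fun s => ‖deriv γ s‖) volume 0 1 :=
    hdc.norm.intervalIntegrable 0 1
  have hval : ∫ s in (0:ℝ)..1, g' s = arccos (q * f 1) - arccos (q * f 0) :=
    intervalIntegral.integral_eq_sub_of_hasDerivAt
      (fun s hs => hgd s (by rwa [uIcc_of_le zero_le_one] at hs)) hint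
  rw [hf1, hf0, mul_neg_one, mul_one] at hval
  rw [← hval]
  apply intervalIntegral.integral_mono_on_of_le_Ioo zero_le_one hint hint2
  intro s hs
  have hs' : s ∈ Icc (0 : ℝ) 1 := ⟨hs.1.le, hs.2.le⟩
  have hpos := hlt s hs'
  have hsq := Real.sqrt_pos.2 hpos
  have h1 : q * √(1 - f s ^ 2) ≤ √(1 - (q * f s) ^ 2) := by
    have : q * √(1 - f s ^ 2) = √(q ^ 2 * (1 - f s ^ 2)) := by
      rw [Real.sqrt_mul (sq_nonneg q), Real.sqrt_sq hq0.le]
    rw [this]
    apply Real.sqrt_le_sqrt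
    nlinarith
  calc g' s ≤ |g' s| := le_abs_self _
    _ = (1 / √(1 - (q * f s) ^ 2)) * (q * |inner ℝ (γ 0) (deriv γ s)|) := by
        simp only [hg']
        rw [abs_mul, abs_neg, abs_of_pos (by positivity), abs_mul, abs_of_pos hq0]
    _ ≤ (1 / √(1 - (q * f s) ^ 2)) * (q * (√(1 - f s ^ 2) * ‖deriv γ s‖)) := by
        have := hbd s hs
        gcongr
    _ = (q * √(1 - f s ^ 2)) / √(1 - (q * f s) ^ 2) * ‖deriv γ s‖ := by ring
    _ ≤ 1 * ‖deriv γ s‖ := by
        apply mul_le_mul_of_nonneg_right _ (norm_nonneg _)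
        rw [div_le_one hsq]; exact h1
    _ = ‖deriv γ s‖ := one_mul _

/-- Curves of the round sphere which join antipodal points have length at least π. -/
theorem round_len {γ : ℝ → Sp k l} (hγ : IsLoop γ) : π ≤ len roundG γ := by
  rw [len_round]
  have hlim : Filter.Tendsto (fun q : ℝ => arccos (-q) - arccos q) (nhdsWithin 1 (Iio 1))
      (nhds π) := by
    have h1 : Continuous (fun q : ℝ => arccos (-q) - arccos q) :=
      (Real.continuous_arccos.comp continuous_neg).sub Real.continuous_arccos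
    have h2 := h1.tendsto 1
    simp only [arccos_neg_one, arccos_one, sub_zero] at h2
    exact h2.mono_left nhdsWithin_le_nhds
  apply le_of_tendsto hlim
  filter_upwards [Ioo_mem_nhdsLT (show (0 : ℝ) < 1 by norm_num)] with q hq
  exact arccos_step hγ hq.1 hq.2

end Pool.Agent.Lib.MP_c3a607_gt.Rp
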