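import Pool.Agent.Lib.MP_c3a607_gt.Rp.GeoBasic
import Pool.Agent.Lib.MP_c3a607_gt.Rp.RoundLen

namespace Pool.Agent.Lib.MP_c3a607_gt.Rp

open Set Real MeasureTheory

variable {k l : ℕ}

private theorem round_form (x v w : Sp k l) : form roundG x v w = inner ℝ v w := by
  simp only [form, roundG, Matrix.one_mulVec]
  rw [EuclideanSpace.inner_eq_star_dotProduct, dotProduct_comm]
  simp

theorem round_metric : IsMetric (roundG : Sp k l → Matrix (Idx k l) (Idx k l) ℝ) := by
  refine ⟨continuousOn_const, ?_, ?_, ?_⟩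
  · intro x _
    exact Matrix.isSymm_one
  · intro x _ v _ hv
    rw [round_form]
    exact real_inner_self_pos.2 hv
  · intro x _ v w _ _
    rfl

theorem round_invariant : Invariant (roundG : Sp k l → Matrix (Idx k l) (Idx k l) ℝ) := by
  intro A hA _ B hB _ x _ v w _ _
  rw [round_form, round_form, inner_act hA hB]

theorem round_dens {x : Sp k l} (hx : x ∈ Metric.sphere (0 : Sp k l) 1) :
    dens roundG x = 1 := by
  have h1 : x.ofLp ⬝ᵥ x.ofLp = 1 := by
    have h := round_form x x x
    rw [real_inner_self_eq_norm_sq] at h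
    simp only [form, roundG, Matrix.one_mulVec] at h
    rw [h]
    simp at hx
    rw [hx]; norm_num
  have h2 : Matrix.vecMulVec x.ofLp x.ofLp * Matrix.vecMulVec x.ofLp x.ofLp =
      Matrix.vecMulVec x.ofLp x.ofLp := by
    rw [Matrix.vecMulVec_mul_vecMulVec, h1, one_smul]
  have h3 : proj x * roundG x * proj x + Matrix.vecMulVec x.ofLp x.ofLp = 1 := by
    simp only [proj, roundG, mul_one]
    rw [sub_mul, mul_sub, mul_sub, h2]
    simp
  rw [dens, h3]; simp

/-- Half a great circle. -/
theorem round_half (i j : ℕ) : ∃ γ : ℝ → Sp (i + 2) (j + 2), IsLoop γ ∧ len roundG γ = π := by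
  set e0 : Sp (i + 2) (j + 2) := vec4 i j 1 0 0 0 with he0
  set e1 : Sp (i + 2) (j + 2) := vec4 i j 0 1 0 0 with he1
  have h00 : inner ℝ e0 e0 = (1 : ℝ) := by rw [he0, inner_vec4]; norm_num
  have h01 : inner ℝ e0 e1 = (0 : ℝ) := by rw [he0, he1, inner_vec4]; norm_num
  have h10 : inner ℝ e1 e0 = (0 : ℝ) := by rw [he0, he1, inner_vec4]; norm_num
  have h11 : inner ℝ e1 e1 = (1 : ℝ) := by rw [he1, inner_vec4]; norm_num
  have hin : ∀ a b : ℝ, inner ℝ (a • e0 + b • e1) (a • e0 + b • e1) = a ^ 2 + b ^ 2 := by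
    intro a b
    simp only [inner_add_left, inner_add_right, real_inner_smul_left, real_inner_smul_right,
      h00, h01, h10, h11]
    ring
  have hd : ∀ s : ℝ, HasDerivAt (fun s : ℝ => cos (π * s) • e0 + sin (π * s) • e1)
      ((-sin (π * s) * π) • e0 + (cos (π * s) * π) • e1) s := by
    intro s
    have h1 : HasDerivAt (fun s : ℝ => π * s) π s := by
      simpa using (hasDerivAt_id s).const_mul π
    exact (h1.cos.smul_const e0).add (h1.sin.smul_const e1)
  refine ⟨fun s => cos (π * s) • e0 + sin (π * s) • e1, ⟨?_, ?_, ?_⟩, ?_⟩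
  · fun_prop
  · intro s _
    rw [mem_sphere_zero_iff_norm, ← sq_eq_sq₀ (norm_nonneg _) (by norm_num),
      ← real_inner_self_eq_norm_sq, hin]
    simp
  · simp
  · rw [len]
    have : ∀ s : ℝ, √(form roundG (cos (π * s) • e0 + sin (π * s) • e1)
        (deriv (fun s : ℝ => cos (π * s) • e0 + sin (π * s) • e1) s)
        (deriv (fun s : ℝ => cos (π * s) • e0 + sin (π * s) • e1) s)) = π := by
      intro s
      rw [(hd s).deriv, round_form, hin]
      have : (-sin (π * s) * π) ^ 2 + (cos (π * s) * π) ^ 2 = π ^ 2 := by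
        have := sin_sq_add_cos_sq (π * s)
        linear_combination π ^ 2 * this
      rw [this, sqrt_sq pi_pos.le]
    simp only [this]
    simp

theorem round_sys (i j : ℕ) :
    sys (roundG : Sp (i + 2) (j + 2) → Matrix (Idx (i + 2) (j + 2)) (Idx (i + 2) (j + 2)) ℝ) =
      π := by
  obtain ⟨γ, hγ, hl⟩ := round_half i j
  apply le_antisymm
  · rw [sys, ← hl]
    apply csInf_le
    · refine ⟨π, ?_⟩
      rintro r ⟨δ, hδ, rfl⟩
      exact round_len hδ
    · exact ⟨γ, hγ, rfl⟩
  · apply le_csInf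
    · exact ⟨_, γ, hγ, rfl⟩
    · rintro r ⟨δ, hδ, rfl⟩
      exact round_len hδ

theorem round_vol : vol (roundG : Sp k l → Matrix (Idx k l) (Idx k l) ℝ) =
    (1 / 2) * ((volume : Measure (Sp k l)).toSphere univ).toReal := by
  rw [vol]
  congr 1
  have : ∀ x : Metric.sphere (0 : Sp k l) 1, dens roundG (x : Sp k l) = 1 :=
    fun x => round_dens x.2
  simp only [this]
  simp [Measure.real]

end Pool.Agent.Lib.MP_c3a607_gt.Rp
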