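import Pool.Agent.Lib.MP_c3a607_gt.Rp.SliceAlg

namespace Pool.Agent.Lib.MP_c3a607_gt.Rp.Slice

open Set Real

variable {S : Slice}

/-- Half turns in both circles at constant θ. -/
theorem level_bound (hS : S.Ok) {L : ℝ} (hL : S.SysGe L) {t : ℝ} (ht : t ∈ Ioo 0 (π / 2)) :
    L ≤ π * √(S.H11 t + 2 * S.H12 t + S.H22 t) := by
  have h := hL (fun _ => t) (fun s => π * s) (fun s => π * s) contDiff_const
    (contDiff_const.mul contDiff_id) (contDiff_const.mul contDiff_id) (fun _ => ht) rfl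
    (Or.inl (by simp)) (Or.inl (by simp))
  have hd : ∀ s : ℝ, deriv (fun s : ℝ => π * s) s = π := by
    intro s
    simpa using ((hasDerivAt_id s).const_mul π).deriv
  have h2 : ∀ s : ℝ, √(S.Q t (deriv (fun _ : ℝ => t) s) (deriv (fun s : ℝ => π * s) s)
      (deriv (fun s : ℝ => π * s) s)) = π * √(S.H11 t + 2 * S.H12 t + S.H22 t) := by
    intro s
    rw [hd s, deriv_const]
    have h3 : S.Q t 0 π π = π ^ 2 * (S.H11 t + 2 * S.H12 t + S.H22 t) := by
      unfold Q; ring
    rw [h3, Real.sqrt_mul (by positivity), Real.sqrt_sq pi_pos.le]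
  simp only [h2] at h
  simpa using h

/-- Where ρ ≥ 1 the dual vector is not parallel to (1, 1): otherwise, with
H = H11 + 2 H12 + H22, ρ = (a + b)² / H ≤ (a + b)² π² / L² < 1. -/
theorem not_diag (hS : S.Ok) {L : ℝ} (hL : S.SysGe L) {a b : ℝ} (ha : 0 < a) (hb : 0 < b)
    (hab : π * (a + b) < L) {t : ℝ} (ht : t ∈ Ioo 0 (π / 2)) (hρ : 1 ≤ S.rho a b t) :
    S.u2 a b t - S.u1 a b t ≠ 0 := by
  intro h0
  have hδ : 0 < S.delta t := delta_pos hS ht
  have hu : S.u2 a b t = S.u1 a b t := sub_eq_zero.mp h0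
  set w : ℝ := S.u1 a b t with hw
  have ha1 : a = (S.H11 t + S.H12 t) * w := by
    have h1 : S.H11 t * S.u1 a b t + S.H12 t * S.u2 a b t = a := by
      unfold u1 u2
      field_simp
      unfold delta
      ring
    rw [hu] at h1
    rw [← h1]; ring
  have hb1 : b = (S.H12 t + S.H22 t) * w := by
    have h1 : S.H12 t * S.u1 a b t + S.H22 t * S.u2 a b t = b := by
      unfold u1 u2
      field_simp
      unfold delta
      ring
    rw [hu] at h1
    rw [← h1]; ring
  have hρ1 : S.rho a b t = (a + b) * w := by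
    rw [rho_eq, hu, ← hw]; ring
  set H : ℝ := S.H11 t + 2 * S.H12 t + S.H22 t with hH
  have hsum : a + b = H * w := by
    rw [hH]
    linear_combination ha1 + hb1
  have hHpos : 0 < H := by
    have h1 := hS.pos t ht 0 1 1 (Or.inr (Or.inl one_ne_zero))
    unfold Q at h1
    rw [hH]
    nlinarith
  have hlev := level_bound hS hL ht
  rw [← hH] at hlev
  have h2 : a + b < √H := by
    have h3 : π * (a + b) < π * √H := lt_of_lt_of_le hab hlev
    exact lt_of_mul_lt_mul_left h3 pi_pos.le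
  have h4 : (a + b) ^ 2 < H := by
    have h5 : (a + b) ^ 2 < √H ^ 2 := pow_lt_pow_left₀ h2 (by positivity) two_ne_zero
    rwa [Real.sq_sqrt hHpos.le] at h5
  have h6 : H * ((a + b) * w) = (a + b) ^ 2 := by
    rw [sq]
    nth_rewrite 3 [hsum]
    ring
  rw [hρ1] at hρ
  nlinarith

end Pool.Agent.Lib.MP_c3a607_gt.Rp.Slice
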