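import Pool.Agent.Lib.MP_c3a607_gt.Rp.Slice

namespace Pool.Agent.Lib.MP_c3a607_gt.Rp.Slice

open Set Real

variable {S : Slice}

private noncomputable def sp (x : ℝ) : ℝ := 6 * max 0 (x * (1 - x))

private noncomputable def sg (x : ℝ) : ℝ := ∫ u in (0 : ℝ)..x, sp u

private lemma sp_cont : Continuous sp := by
  unfold sp; fun_prop

private lemma sp_nonneg (x : ℝ) : 0 ≤ sp x := by
  unfold sp; positivity

private lemma sp_zero {x : ℝ} (h : x ≤ 0 ∨ 1 ≤ x) : sp x = 0 := by
  unfold sp
  have : x * (1 - x) ≤ 0 := by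
    rcases h with h | h
    · exact mul_nonpos_of_nonpos_of_nonneg h (by linarith)
    · exact mul_nonpos_of_nonneg_of_nonpos (by linarith) (by linarith)
  rw [max_eq_left this, mul_zero]

private lemma sg_deriv (x : ℝ) : HasDerivAt sg (sp x) x :=
  intervalIntegral.integral_hasDerivAt_right (sp_cont.intervalIntegrable _ _)
    (sp_cont.stronglyMeasurableAtFilter _ _) sp_cont.continuousAt

private lemma sg_mono : Monotone sg := by
  apply monotone_of_deriv_nonneg
  · exact fun x => (sg_deriv x).differentiableAt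
  · intro x; rw [(sg_deriv x).deriv]; exact sp_nonneg x

private lemma sg_le {x : ℝ} (h : x ≤ 0) : sg x = 0 := by
  unfold sg
  rw [intervalIntegral.integral_congr (g := fun _ => (0 : ℝ))]
  · simp
  · intro u hu
    rw [uIcc_of_ge h] at hu
    exact sp_zero (Or.inl hu.2)

private lemma sg_one : sg 1 = 1 := by
  unfold sg
  rw [intervalIntegral.integral_congr (g := fun u : ℝ => 6 * u - 6 * u ^ 2)]
  · rw [intervalIntegral.integral_sub
      (Continuous.intervalIntegrable (by fun_prop) _ _)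
      (Continuous.intervalIntegrable (by fun_prop) _ _),
      intervalIntegral.integral_const_mul, intervalIntegral.integral_const_mul, integral_id,
      integral_pow]
    norm_num
  · intro u hu
    rw [uIcc_of_le (by norm_num)] at hu
    have : 0 ≤ u * (1 - u) := mul_nonneg hu.1 (by linarith [hu.2])
    simp only [sp, max_eq_right this]
    ring

private lemma sg_ge {x : ℝ} (h : 1 ≤ x) : sg x = 1 := by
  have h1 : sg x = sg 1 + ∫ u in (1 : ℝ)..x, sp u := by
    unfold sg
    rw [intervalIntegral.integral_add_adjacent_intervals (sp_cont.intervalIntegrable _ _)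
      (sp_cont.intervalIntegrable _ _)]
  rw [h1, sg_one, intervalIntegral.integral_congr (g := fun _ => (0 : ℝ))]
  · simp
  · intro u hu
    rw [uIcc_of_le h] at hu
    exact sp_zero (Or.inr hu.1)

private lemma sg_zero : sg 0 = 0 := sg_le le_rfl

private lemma sg_mem (x : ℝ) : 0 ≤ sg x ∧ sg x ≤ 1 := by
  constructor
  · rcases le_total x 0 with h | h
    · rw [sg_le h]
    · have := sg_mono h; rwa [sg_zero] at this
  · rcases le_total 1 x with h | h
    · rw [sg_ge h]
    · have := sg_mono h; rwa [sg_one] at this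

private noncomputable def th (c d s : ℝ) : ℝ := c + (d - c) * (sg (4 * s - 1) - sg (4 * s - 3))

private lemma th_mem {c d : ℝ} (hcd : c ≤ d) (s : ℝ) : th c d s ∈ Icc c d := by
  have h1 : sg (4 * s - 3) ≤ sg (4 * s - 1) := sg_mono (by linarith)
  have h2 := sg_mem (4 * s - 3)
  have h3 := sg_mem (4 * s - 1)
  have h4 : 0 ≤ (d - c) * (sg (4 * s - 1) - sg (4 * s - 3)) :=
    mul_nonneg (by linarith) (by linarith)
  have h5 : (d - c) * (sg (4 * s - 1) - sg (4 * s - 3)) ≤ (d - c) * 1 :=
    mul_le_mul_of_nonneg_left (by linarith) (by linarith)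
  constructor <;> unfold th <;> linarith

private lemma sg_deriv' (i s : ℝ) : HasDerivAt (fun s => sg (4 * s - i)) (4 * sp (4 * s - i)) s := by
  have h : HasDerivAt (fun s : ℝ => 4 * s - i) 4 s := by
    simpa using ((hasDerivAt_id s).const_mul 4).sub_const i
  have := (sg_deriv (4 * s - i)).comp s h
  rw [mul_comm] at this
  exact this

private lemma th_deriv (c d s : ℝ) : HasDerivAt (th c d)
    ((d - c) * (4 * sp (4 * s - 1) - 4 * sp (4 * s - 3))) s :=
  (((sg_deriv' 1 s).sub (sg_deriv' 3 s)).const_mul (d - c)).const_add c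

private lemma th_cont (c d : ℝ) : Continuous (th c d) :=
  continuous_iff_continuousAt.2 fun s => (th_deriv c d s).continuousAt

private lemma int_bump (i : ℝ) : ∫ s in (i / 4)..((i + 1) / 4), 4 * sp (4 * s - i) = 1 := by
  have hc : Continuous fun s => 4 * sp (4 * s - i) := by
    have := sp_cont
    fun_prop
  rw [intervalIntegral.integral_eq_sub_of_hasDerivAt (fun s _ => sg_deriv' i s)
    (hc.intervalIntegrable _ _)]
  rw [show 4 * ((i + 1) / 4) - i = (1 : ℝ) by ring, show 4 * (i / 4) - i = (0 : ℝ) by ring,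
    sg_one, sg_zero]
  norm_num

private lemma four {c d : ℝ} (hcd : c ≤ d) {h G1 G3 : ℝ → ℝ} (G0 G2 : ℝ)
    (c1 : ContinuousOn G1 (Icc c d)) (c3 : ContinuousOn G3 (Icc c d))
    (h0 : ∀ u ∈ Icc (0 : ℝ) (1 / 4), h u = 4 * sp (4 * u) * G0)
    (h1 : ∀ u ∈ Icc (1 / 4 : ℝ) (1 / 2), h u = (d - c) * (4 * sp (4 * u - 1)) * G1 (th c d u))
    (h2 : ∀ u ∈ Icc (1 / 2 : ℝ) (3 / 4), h u = 4 * sp (4 * u - 2) * G2)
    (h3 : ∀ u ∈ Icc (3 / 4 : ℝ) 1, h u = (d - c) * (4 * sp (4 * u - 3)) * G3 (th c d u)) :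
    ∫ u in (0 : ℝ)..1, h u = G0 + G2 + ∫ t in c..d, (G1 t + G3 t) := by
  have csp := sp_cont
  have k1 : Continuous fun u => G1 (th c d u) :=
    c1.comp_continuous (th_cont c d) (fun s => th_mem hcd s)
  have k3 : Continuous fun u => G3 (th c d u) :=
    c3.comp_continuous (th_cont c d) (fun s => th_mem hcd s)
  have e0 : ∫ u in (0 : ℝ)..(1 / 4), h u = G0 := by
    rw [intervalIntegral.integral_congr (g := fun u => 4 * sp (4 * u - 0) * G0)]
    · rw [intervalIntegral.integral_mul_const]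
      have := int_bump 0
      rw [zero_div, zero_add] at this
      rw [this, one_mul]
    · intro u hu
      rw [uIcc_of_le (by norm_num)] at hu
      simp only [sub_zero]
      exact h0 u hu
  have i0 : IntervalIntegrable h MeasureTheory.volume 0 (1 / 4) := by
    apply ContinuousOn.intervalIntegrable
    rw [uIcc_of_le (by norm_num)]
    refine ContinuousOn.congr ?_ h0
    fun_prop
  have e2 : ∫ u in (1 / 2 : ℝ)..(3 / 4), h u = G2 := by
    rw [intervalIntegral.integral_congr (g := fun u => 4 * sp (4 * u - 2) * G2)]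
    · rw [intervalIntegral.integral_mul_const]
      have := int_bump 2
      rw [show (2 / 4 : ℝ) = 1 / 2 by norm_num, show ((2 + 1) / 4 : ℝ) = 3 / 4 by norm_num] at this
      rw [this, one_mul]
    · intro u hu
      rw [uIcc_of_le (by norm_num)] at hu
      exact h2 u hu
  have i2 : IntervalIntegrable h MeasureTheory.volume (1 / 2) (3 / 4) := by
    apply ContinuousOn.intervalIntegrable
    rw [uIcc_of_le (by norm_num)]
    refine ContinuousOn.congr ?_ h2
    fun_prop
  have i1 : IntervalIntegrable h MeasureTheory.volume (1 / 4) (1 / 2) := by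
    apply ContinuousOn.intervalIntegrable
    rw [uIcc_of_le (by norm_num)]
    refine ContinuousOn.congr ?_ h1
    have : Continuous fun u => (d - c) * (4 * sp (4 * u - 1)) := by fun_prop
    exact (this.mul k1).continuousOn
  have i3 : IntervalIntegrable h MeasureTheory.volume (3 / 4) 1 := by
    apply ContinuousOn.intervalIntegrable
    rw [uIcc_of_le (by norm_num)]
    refine ContinuousOn.congr ?_ h3
    have : Continuous fun u => (d - c) * (4 * sp (4 * u - 3)) := by fun_prop
    exact (this.mul k3).continuousOn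
  have t1 : th c d (1 / 4) = c := by
    unfold th
    rw [sg_le (by norm_num), sg_le (by norm_num)]; ring
  have t2 : th c d (1 / 2) = d := by
    unfold th
    rw [sg_ge (by norm_num), sg_le (by norm_num)]; ring
  have t3 : th c d (3 / 4) = d := by
    unfold th
    rw [sg_ge (by norm_num), sg_le (by norm_num)]; ring
  have t4 : th c d 1 = c := by
    unfold th
    rw [sg_ge (by norm_num), sg_ge (by norm_num)]; ring
  have hd' : Continuous fun s => (d - c) * (4 * sp (4 * s - 1) - 4 * sp (4 * s - 3)) := by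
    fun_prop
  have e1 : ∫ u in (1 / 4 : ℝ)..(1 / 2), h u = ∫ t in c..d, G1 t := by
    have key := intervalIntegral.integral_comp_mul_deriv' (a := (1 / 4 : ℝ)) (b := 1 / 2)
      (f := th c d) (g := G1) (fun s _ => th_deriv c d s) hd'.continuousOn
      (c1.mono (by rintro _ ⟨s, _, rfl⟩; exact th_mem hcd s))
    rw [t1, t2] at key
    rw [← key]
    apply intervalIntegral.integral_congr
    intro u hu
    rw [uIcc_of_le (by norm_num)] at hu
    simp only [Function.comp]
    rw [h1 u hu, sp_zero (x := 4 * u - 3) (Or.inl (by linarith [hu.2]))]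
    ring
  have e3 : ∫ u in (3 / 4 : ℝ)..1, h u = ∫ t in c..d, G3 t := by
    have key := intervalIntegral.integral_comp_mul_deriv' (a := (3 / 4 : ℝ)) (b := 1)
      (f := th c d) (g := G3) (fun s _ => th_deriv c d s) hd'.continuousOn
      (c3.mono (by rintro _ ⟨s, _, rfl⟩; exact th_mem hcd s))
    rw [t3, t4] at key
    have ks := intervalIntegral.integral_symm (f := G3) (μ := MeasureTheory.volume) c d
    have key2 : ∫ t in c..d, G3 t = -∫ u in (3 / 4 : ℝ)..1, (G3 ∘ th c d) u *
        ((d - c) * (4 * sp (4 * u - 1) - 4 * sp (4 * u - 3))) := by linarith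
    rw [key2, ← intervalIntegral.integral_neg]
    apply intervalIntegral.integral_congr
    intro u hu
    rw [uIcc_of_le (by norm_num)] at hu
    simp only [Function.comp]
    rw [h3 u hu, sp_zero (x := 4 * u - 1) (Or.inr (by linarith [hu.1]))]
    ring
  rw [intervalIntegral.integral_add
    ((c1.mono (by rw [uIcc_of_le hcd])).intervalIntegrable)
    ((c3.mono (by rw [uIcc_of_le hcd])).intervalIntegrable), ← e1, ← e3,
    ← intervalIntegral.integral_add_adjacent_intervals i0 (i1.trans (i2.trans i3)),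
    ← intervalIntegral.integral_add_adjacent_intervals i1 (i2.trans i3),
    ← intervalIntegral.integral_add_adjacent_intervals i2 i3, e0, e2]
  ring

private lemma Q_smul (t p τ x y : ℝ) (hp : 0 ≤ p) :
    √(S.Q t (p * τ) (p * x) (p * y)) = p * √(S.Q t τ x y) := by
  have : S.Q t (p * τ) (p * x) (p * y) = p ^ 2 * S.Q t τ x y := by
    unfold Q; ring
  rw [this, Real.sqrt_mul (by positivity), Real.sqrt_sq hp]

private lemma Q_cont (hS : S.Ok) {c d : ℝ} (hc : 0 < c) (hd : d < π / 2) (τ : ℝ) {f g : ℝ → ℝ}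
    (cf : ContinuousOn f (Icc c d)) (cg : ContinuousOn g (Icc c d)) :
    ContinuousOn (fun t => √(S.Q t τ (f t) (g t))) (Icc c d) := by
  have hs : Icc c d ⊆ Icc 0 (π / 2) := Icc_subset_Icc hc.le hd.le
  have h1 := hS.cE.mono hs
  have h2 := hS.cF1.mono hs
  have h3 := hS.cF2.mono hs
  have h4 := hS.cH11.mono hs
  have h5 := hS.cH12.mono hs
  have h6 := hS.cH22.mono hs
  unfold Q
  fun_prop

/-- The velocity in one of the two circles. -/
private noncomputable def ve (c d x1 x2 : ℝ) (f g : ℝ → ℝ) (u : ℝ) : ℝ :=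
  4 * sp (4 * u) * x1 + (d - c) * (4 * sp (4 * u - 1)) * f (th c d u) +
    4 * sp (4 * u - 2) * x2 + (d - c) * (4 * sp (4 * u - 3)) * g (th c d u)

private lemma ve_cont {c d x1 x2 : ℝ} (hcd : c ≤ d) {f g : ℝ → ℝ}
    (cf : ContinuousOn f (Icc c d)) (cg : ContinuousOn g (Icc c d)) :
    Continuous (ve c d x1 x2 f g) := by
  have csp := sp_cont
  have k1 : Continuous fun u => f (th c d u) :=
    cf.comp_continuous (th_cont c d) (fun s => th_mem hcd s)
  have k3 : Continuous fun u => g (th c d u) :=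
    cg.comp_continuous (th_cont c d) (fun s => th_mem hcd s)
  have m1 : Continuous fun u => 4 * sp (4 * u) * x1 := by fun_prop
  have m2 : Continuous fun u => (d - c) * (4 * sp (4 * u - 1)) := by fun_prop
  have m3 : Continuous fun u => 4 * sp (4 * u - 2) * x2 := by fun_prop
  have m4 : Continuous fun u => (d - c) * (4 * sp (4 * u - 3)) := by fun_prop
  exact ((m1.add (m2.mul k1)).add m3).add (m4.mul k3)

private lemma ve0 (c d x1 x2 : ℝ) (f g : ℝ → ℝ) {u : ℝ} (hu : u ∈ Icc (0 : ℝ) (1 / 4)) :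
    ve c d x1 x2 f g u = 4 * sp (4 * u) * x1 := by
  unfold ve
  rw [sp_zero (x := 4 * u - 1) (Or.inl (by linarith [hu.2])),
    sp_zero (x := 4 * u - 2) (Or.inl (by linarith [hu.2])),
    sp_zero (x := 4 * u - 3) (Or.inl (by linarith [hu.2]))]
  ring

private lemma ve1 (c d x1 x2 : ℝ) (f g : ℝ → ℝ) {u : ℝ} (hu : u ∈ Icc (1 / 4 : ℝ) (1 / 2)) :
    ve c d x1 x2 f g u = (d - c) * (4 * sp (4 * u - 1)) * f (th c d u) := by
  unfold ve
  rw [sp_zero (x := 4 * u) (Or.inr (by linarith [hu.1])),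
    sp_zero (x := 4 * u - 2) (Or.inl (by linarith [hu.2])),
    sp_zero (x := 4 * u - 3) (Or.inl (by linarith [hu.2]))]
  ring

private lemma ve2 (c d x1 x2 : ℝ) (f g : ℝ → ℝ) {u : ℝ} (hu : u ∈ Icc (1 / 2 : ℝ) (3 / 4)) :
    ve c d x1 x2 f g u = 4 * sp (4 * u - 2) * x2 := by
  unfold ve
  rw [sp_zero (x := 4 * u) (Or.inr (by linarith [hu.1])),
    sp_zero (x := 4 * u - 1) (Or.inr (by linarith [hu.1])),
    sp_zero (x := 4 * u - 3) (Or.inl (by linarith [hu.2]))]
  ring

private lemma ve3 (c d x1 x2 : ℝ) (f g : ℝ → ℝ) {u : ℝ} (hu : u ∈ Icc (3 / 4 : ℝ) 1) :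
    ve c d x1 x2 f g u = (d - c) * (4 * sp (4 * u - 3)) * g (th c d u) := by
  unfold ve
  rw [sp_zero (x := 4 * u) (Or.inr (by linarith [hu.1])),
    sp_zero (x := 4 * u - 1) (Or.inr (by linarith [hu.1])),
    sp_zero (x := 4 * u - 2) (Or.inr (by linarith [hu.1]))]
  ring

private lemma prim {A : ℝ → ℝ} (hA : Continuous A) :
    ContDiff ℝ 1 (fun s => ∫ u in (0 : ℝ)..s, A u) ∧
      deriv (fun s => ∫ u in (0 : ℝ)..s, A u) = A := by
  have h : ∀ s, HasDerivAt (fun s => ∫ u in (0 : ℝ)..s, A u) (A s) s := fun s =>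
    intervalIntegral.integral_hasDerivAt_right (hA.intervalIntegrable _ _)
      (hA.stronglyMeasurableAtFilter _ _) hA.continuousAt
  have h2 : deriv (fun s => ∫ u in (0 : ℝ)..s, A u) = A := funext fun s => (h s).deriv
  refine ⟨contDiff_one_iff_deriv.2 ⟨fun s => (h s).differentiableAt, ?_⟩, h2⟩
  rw [h2]; exact hA

/-- Lower bound for the length of a closed curve made of four pieces: a piece at level c with
shift (x1, y1), a piece going up from c to d with velocity (1, f1, f2), a piece at level d with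
shift (x2, y2), a piece going down from d to c with velocity (-1, g1, g2). -/
theorem loop_bound (hS : S.Ok) {L : ℝ} (hL : S.SysGe L) {c d : ℝ} (hc : 0 < c) (hcd : c ≤ d)
    (hd : d < π / 2) {f1 f2 g1 g2 : ℝ → ℝ} (cf1 : ContinuousOn f1 (Icc c d))
    (cf2 : ContinuousOn f2 (Icc c d)) (cg1 : ContinuousOn g1 (Icc c d))
    (cg2 : ContinuousOn g2 (Icc c d)) {x1 y1 x2 y2 : ℝ}
    (hx : x1 + x2 + ∫ t in c..d, (f1 t + g1 t) = π)
    (hy : y1 + y2 + ∫ t in c..d, (f2 t + g2 t) = π) :
    L ≤ √(S.Q c 0 x1 y1) + √(S.Q d 0 x2 y2) +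
      ∫ t in c..d, (√(S.Q t 1 (f1 t) (f2 t)) + √(S.Q t (-1) (g1 t) (g2 t))) := by
  obtain ⟨hα, dα⟩ := prim (ve_cont (x1 := x1) (x2 := x2) hcd cf1 cg1)
  obtain ⟨hβ, dβ⟩ := prim (ve_cont (x1 := y1) (x2 := y2) hcd cf2 cg2)
  have csp := sp_cont
  have dth : deriv (th c d) = fun s => (d - c) * (4 * sp (4 * s - 1) - 4 * sp (4 * s - 3)) :=
    funext fun s => (th_deriv c d s).deriv
  have hth : ContDiff ℝ 1 (th c d) := by
    refine contDiff_one_iff_deriv.2 ⟨fun s => (th_deriv c d s).differentiableAt, ?_⟩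
    rw [dth]; fun_prop
  have key := hL (th c d) _ _ hth hα hβ
    (fun s => ⟨lt_of_lt_of_le hc (th_mem hcd s).1, lt_of_le_of_lt (th_mem hcd s).2 hd⟩)
    (by
      unfold th
      rw [sg_ge (by norm_num), sg_ge (by norm_num), sg_le (by norm_num), sg_le (by norm_num)]
      ring)
    (Or.inl (by
      rw [intervalIntegral.integral_same, zero_add,
        four hcd x1 x2 cf1 cg1 (fun u hu => ve0 _ _ _ _ _ _ hu) (fun u hu => ve1 _ _ _ _ _ _ hu)
          (fun u hu => ve2 _ _ _ _ _ _ hu) (fun u hu => ve3 _ _ _ _ _ _ hu)]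
      exact hx))
    (Or.inl (by
      rw [intervalIntegral.integral_same, zero_add,
        four hcd y1 y2 cf2 cg2 (fun u hu => ve0 _ _ _ _ _ _ hu) (fun u hu => ve1 _ _ _ _ _ _ hu)
          (fun u hu => ve2 _ _ _ _ _ _ hu) (fun u hu => ve3 _ _ _ _ _ _ hu)]
      exact hy))
  rw [dα, dβ, dth] at key
  rw [four hcd (G1 := fun t => √(S.Q t 1 (f1 t) (f2 t)))
    (G3 := fun t => √(S.Q t (-1) (g1 t) (g2 t))) (√(S.Q c 0 x1 y1)) (√(S.Q d 0 x2 y2))
    (Q_cont hS hc hd 1 cf1 cf2) (Q_cont hS hc hd (-1) cg1 cg2)] at key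
  · exact key
  · intro u hu
    have hp : 0 ≤ 4 * sp (4 * u) := by have := sp_nonneg (4 * u); positivity
    have e : th c d u = c := by
      unfold th
      rw [sg_le (by linarith [hu.2]), sg_le (by linarith [hu.2])]; ring
    simp only [ve0 _ _ _ _ _ _ hu, e, ← Q_smul c (4 * sp (4 * u)) 0 x1 y1 hp,
      sp_zero (x := 4 * u - 1) (Or.inl (by linarith [hu.2])),
      sp_zero (x := 4 * u - 3) (Or.inl (by linarith [hu.2]))]
    ring_nf
  · intro u hu
    have hp : 0 ≤ (d - c) * (4 * sp (4 * u - 1)) := by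
      have := sp_nonneg (4 * u - 1)
      have : 0 ≤ d - c := by linarith
      positivity
    rw [← Q_smul _ _ _ _ _ hp]
    simp only [ve1 _ _ _ _ _ _ hu, sp_zero (x := 4 * u - 3) (Or.inl (by linarith [hu.2]))]
    ring_nf
  · intro u hu
    have hp : 0 ≤ 4 * sp (4 * u - 2) := by have := sp_nonneg (4 * u - 2); positivity
    have e : th c d u = d := by
      unfold th
      rw [sg_ge (by linarith [hu.1]), sg_le (by linarith [hu.2])]; ring
    simp only [ve2 _ _ _ _ _ _ hu, e, ← Q_smul d (4 * sp (4 * u - 2)) 0 x2 y2 hp,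
      sp_zero (x := 4 * u - 1) (Or.inr (by linarith [hu.1])),
      sp_zero (x := 4 * u - 3) (Or.inl (by linarith [hu.2]))]
    ring_nf
  · intro u hu
    have hp : 0 ≤ (d - c) * (4 * sp (4 * u - 3)) := by
      have := sp_nonneg (4 * u - 3)
      have : 0 ≤ d - c := by linarith
      positivity
    rw [← Q_smul _ _ _ _ _ hp]
    simp only [ve3 _ _ _ _ _ _ hu, sp_zero (x := 4 * u - 1) (Or.inr (by linarith [hu.1]))]
    ring_nf

end Pool.Agent.Lib.MP_c3a607_gt.Rp.Slice
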