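import Pool.Agent.Lib.MP_c3a607_gt.Rp.SliceCont
import Pool.Agent.Lib.MP_c3a607_gt.Rp.SliceLoop
import Pool.Agent.Lib.MP_c3a607_gt.Rp.SliceLevel
import Pool.Agent.Lib.MP_c3a607_gt.Rp.Core

namespace Pool.Agent.Lib.MP_c3a607_gt.Rp.Slice

open Set Real

variable {S : Slice}

private theorem sqrt_Q_smul (hS : S.Ok) (a b : ℝ) {t lam : ℝ} (ht : t ∈ Ioo 0 (π / 2))
    (hl : 0 ≤ lam) :
    √(S.Q t 0 (lam * S.u1 a b t) (lam * S.u2 a b t)) = lam * √(S.rho a b t) := by
  have h1 : S.Q t 0 (lam * S.u1 a b t) (lam * S.u2 a b t)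
      = lam ^ 2 * S.Q t 0 (S.u1 a b t) (S.u2 a b t) := by
    unfold Q
    ring
  rw [h1, Q_side hS a b ht, Real.sqrt_mul (sq_nonneg lam), Real.sqrt_sq hl]

/-- Apply core with T = π / 2, ρ = S.rho a b, m = S.m, u1 = S.u1 a b, u2 = S.u2 a b; its
hypothesis hL is loop_bound for (x1, y1) = lam (u1 c, u2 c), (x2, y2) = mu (u1 d, u2 d),
f = -n + m / √(1 - ρ) u, g = n + m / √(1 - ρ) u, with Q_side, Q_up, Q_down. If
L ≤ π (a + b), the right side is nonnegative. -/
theorem action_pos (hS : S.Ok) {L : ℝ} (hL : S.SysGe L) {a b : ℝ} (ha : 0 < a) (hb : 0 < b) :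
    L - π * (a + b) ≤ ∫ t in (0 : ℝ)..(π / 2), 2 * S.m t * √(1 - S.rho a b t) := by
  have hpi : (0 : ℝ) < π / 2 := by positivity
  by_cases hcase : π * (a + b) < L
  · refine core hpi ha hb (cont_rho hS a b) (cont_m hS) (cont_u1 hS a b) (cont_u2 hS a b)
      (fun t ht => m_pos hS ht) (fun t _ => rho_eq a b t) (fun t ht => rho_pos hS ha.ne' ht)
      (near_left hS ha hb) (near_right hS ha hb)
      (fun t ht h => not_diag hS hL ha hb hcase ht h) ?_
    intro c d hc hcd hd hlt lam mu hlam hmu hx hy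
    have hsub : Icc c d ⊆ Ioo 0 (π / 2) := fun t ht =>
      ⟨lt_of_lt_of_le hc ht.1, lt_of_le_of_lt ht.2 hd⟩
    have hcm : c ∈ Ioo 0 (π / 2) := hsub ⟨le_rfl, hcd⟩
    have hdm : d ∈ Ioo 0 (π / 2) := hsub ⟨hcd, le_rfl⟩
    have cq : ContinuousOn (fun t => S.m t / √(1 - S.rho a b t)) (Icc c d) := by
      refine ((cont_m hS).mono hsub).div ?_ ?_
      · exact Real.continuous_sqrt.comp_continuousOn
          (continuousOn_const.sub ((cont_rho hS a b).mono hsub))
      · intro t ht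
        exact (Real.sqrt_pos.mpr (by linarith [hlt t ht])).ne'
    have cn1 := (cont_n1 hS).mono hsub
    have cn2 := (cont_n2 hS).mono hsub
    have cu1 := (cont_u1 hS a b).mono hsub
    have cu2 := (cont_u2 hS a b).mono hsub
    have hmain := loop_bound hS hL hc hcd hd
      (f1 := fun t => -S.n1 t + S.m t / √(1 - S.rho a b t) * S.u1 a b t)
      (f2 := fun t => -S.n2 t + S.m t / √(1 - S.rho a b t) * S.u2 a b t)
      (g1 := fun t => S.n1 t + S.m t / √(1 - S.rho a b t) * S.u1 a b t)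
      (g2 := fun t => S.n2 t + S.m t / √(1 - S.rho a b t) * S.u2 a b t)
      (cn1.neg.add (cq.mul cu1)) (cn2.neg.add (cq.mul cu2))
      (cn1.add (cq.mul cu1)) (cn2.add (cq.mul cu2))
      (x1 := lam * S.u1 a b c) (y1 := lam * S.u2 a b c)
      (x2 := mu * S.u1 a b d) (y2 := mu * S.u2 a b d) (by
        rw [← hx]
        congr 1
        refine intervalIntegral.integral_congr fun t _ => ?_
        show _ = _
        ring) (by
        rw [← hy]
        congr 1
        refine intervalIntegral.integral_congr fun t _ => ?_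
        show _ = _
        ring)
    rw [sqrt_Q_smul hS a b hcm hlam, sqrt_Q_smul hS a b hdm hmu] at hmain
    refine hmain.trans (le_of_eq ?_)
    congr 1
    refine intervalIntegral.integral_congr fun t ht => ?_
    rw [uIcc_of_le hcd] at ht
    show √(S.Q t 1 (-S.n1 t + S.m t / √(1 - S.rho a b t) * S.u1 a b t)
      (-S.n2 t + S.m t / √(1 - S.rho a b t) * S.u2 a b t)) +
      √(S.Q t (-1) (S.n1 t + S.m t / √(1 - S.rho a b t) * S.u1 a b t)
      (S.n2 t + S.m t / √(1 - S.rho a b t) * S.u2 a b t)) = 2 * S.m t / √(1 - S.rho a b t)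
    rw [Q_up hS (hsub ht) (hlt t ht), Q_down hS (hsub ht) (hlt t ht)]
    ring
  · have h0 : L - π * (a + b) ≤ 0 := by linarith
    refine h0.trans ?_
    refine intervalIntegral.integral_nonneg hpi.le fun t _ => ?_
    have hm : 0 ≤ S.m t := Real.sqrt_nonneg _
    positivity

end Pool.Agent.Lib.MP_c3a607_gt.Rp.Slice
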