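import Pool.Agent.Lib.MP_c3a607_gt.Rp.Slice

namespace Pool.Agent.Lib.MP_c3a607_gt.Rp.Slice

open Set Real

variable (S : Slice)

/-- First component of the vector dual to the covector (a, b). -/
noncomputable def u1 (a b t : ℝ) : ℝ := (S.H22 t * a - S.H12 t * b) / S.delta t

/-- Second component of the vector dual to the covector (a, b). -/
noncomputable def u2 (a b t : ℝ) : ℝ := (S.H11 t * b - S.H12 t * a) / S.delta t

/-- First component of the shift. -/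
noncomputable def n1 (t : ℝ) : ℝ := (S.H22 t * S.F1 t - S.H12 t * S.F2 t) / S.delta t

/-- Second component of the shift. -/
noncomputable def n2 (t : ℝ) : ℝ := (S.H11 t * S.F2 t - S.H12 t * S.F1 t) / S.delta t

variable {S}

theorem H11_pos (hS : S.Ok) {t : ℝ} (ht : t ∈ Ioo 0 (π / 2)) : 0 < S.H11 t := by
  have h := hS.pos t ht 0 1 0 (Or.inr (Or.inl one_ne_zero))
  unfold Slice.Q at h
  linarith

theorem H22_pos (hS : S.Ok) {t : ℝ} (ht : t ∈ Ioo 0 (π / 2)) : 0 < S.H22 t := by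
  have h := hS.pos t ht 0 0 1 (Or.inr (Or.inr one_ne_zero))
  unfold Slice.Q at h
  linarith

theorem delta_pos (hS : S.Ok) {t : ℝ} (ht : t ∈ Ioo 0 (π / 2)) : 0 < S.delta t := by
  have h22 := H22_pos hS ht
  have h := hS.pos t ht 0 (S.H22 t) (-S.H12 t) (Or.inr (Or.inl h22.ne'))
  have e : S.Q t 0 (S.H22 t) (-S.H12 t) = S.H22 t * S.delta t := by
    unfold Slice.Q Slice.delta
    ring
  rw [e] at h
  exact (pos_iff_pos_of_mul_pos h).1 h22

theorem det3_pos (hS : S.Ok) {t : ℝ} (ht : t ∈ Ioo 0 (π / 2)) : 0 < S.det3 t := by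
  have hd := delta_pos hS ht
  have h := hS.pos t ht (S.delta t) (-(S.H22 t * S.F1 t - S.H12 t * S.F2 t))
    (-(S.H11 t * S.F2 t - S.H12 t * S.F1 t)) (Or.inl hd.ne')
  have e : S.Q t (S.delta t) (-(S.H22 t * S.F1 t - S.H12 t * S.F2 t))
      (-(S.H11 t * S.F2 t - S.H12 t * S.F1 t)) = S.delta t * S.det3 t := by
    unfold Slice.Q Slice.det3 Slice.delta
    ring
  rw [e] at h
  exact (pos_iff_pos_of_mul_pos h).1 hd

theorem m_pos (hS : S.Ok) {t : ℝ} (ht : t ∈ Ioo 0 (π / 2)) : 0 < S.m t := by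
  unfold Slice.m
  exact Real.sqrt_pos.2 (div_pos (det3_pos hS ht) (delta_pos hS ht))

theorem rho_eq (a b t : ℝ) : S.rho a b t = a * S.u1 a b t + b * S.u2 a b t := by
  unfold Slice.rho Slice.u1 Slice.u2
  ring

theorem rho_pos (hS : S.Ok) {a b : ℝ} (ha : a ≠ 0) {t : ℝ}
    (ht : t ∈ Ioo 0 (π / 2)) : 0 < S.rho a b t := by
  have h := hS.pos t ht 0 b (-a) (Or.inr (Or.inr (neg_ne_zero.2 ha)))
  unfold Slice.rho
  refine div_pos ?_ (delta_pos hS ht)
  unfold Slice.Q at h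
  linarith

private theorem alg_key (E F G p q r a b k D : ℝ) (h0 : D ≠ 0) (hD : D = p * r - q ^ 2) :
    E * 1 ^ 2 + 2 * F * 1 * (-((r * F - q * G) / D) + k * ((r * a - q * b) / D)) +
      2 * G * 1 * (-((p * G - q * F) / D) + k * ((p * b - q * a) / D)) +
      p * (-((r * F - q * G) / D) + k * ((r * a - q * b) / D)) ^ 2 +
      2 * q * (-((r * F - q * G) / D) + k * ((r * a - q * b) / D)) *
        (-((p * G - q * F) / D) + k * ((p * b - q * a) / D)) +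
      r * (-((p * G - q * F) / D) + k * ((p * b - q * a) / D)) ^ 2 =
    (E * D - (r * F ^ 2 - 2 * q * F * G + p * G ^ 2)) / D +
      k ^ 2 * ((r * a ^ 2 - 2 * q * a * b + p * b ^ 2) / D) := by
  field_simp
  rw [hD]
  ring

private theorem alg_side (E F G p q r a b D : ℝ) (h0 : D ≠ 0) (hD : D = p * r - q ^ 2) :
    E * 0 ^ 2 + 2 * F * 0 * ((r * a - q * b) / D) + 2 * G * 0 * ((p * b - q * a) / D) +
      p * ((r * a - q * b) / D) ^ 2 + 2 * q * ((r * a - q * b) / D) * ((p * b - q * a) / D) +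
      r * ((p * b - q * a) / D) ^ 2 = (r * a ^ 2 - 2 * q * a * b + p * b ^ 2) / D := by
  field_simp
  rw [hD]
  ring

/-- Norm of the dual vector. -/
theorem Q_side (hS : S.Ok) (a b : ℝ) {t : ℝ} (ht : t ∈ Ioo 0 (π / 2)) :
    S.Q t 0 (S.u1 a b t) (S.u2 a b t) = S.rho a b t := by
  exact alg_side (S.E t) (S.F1 t) (S.F2 t) _ _ _ a b (S.delta t) (delta_pos hS ht).ne' rfl

private theorem Q_key (hS : S.Ok) (a b : ℝ) {t : ℝ} (ht : t ∈ Ioo 0 (π / 2)) (k : ℝ) :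
    S.Q t 1 (-S.n1 t + k * S.u1 a b t) (-S.n2 t + k * S.u2 a b t) =
      S.det3 t / S.delta t + k ^ 2 * S.rho a b t := by
  exact alg_key _ _ _ _ _ _ a b k (S.delta t) (delta_pos hS ht).ne' rfl

private theorem k_sq (hS : S.Ok) {a b : ℝ} {t : ℝ} (ht : t ∈ Ioo 0 (π / 2))
    (hρ : S.rho a b t < 1) :
    (S.m t / √(1 - S.rho a b t)) ^ 2 * (1 - S.rho a b t) = S.det3 t / S.delta t := by
  have h1 : 0 < 1 - S.rho a b t := by linarith
  have h2 : 0 ≤ S.det3 t / S.delta t := (div_pos (det3_pos hS ht) (delta_pos hS ht)).le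
  rw [div_pow, Real.sq_sqrt h1.le, div_mul_cancel₀ _ h1.ne']
  unfold Slice.m
  rw [Real.sq_sqrt h2]

/-- Speed on the way up. -/
theorem Q_up (hS : S.Ok) {a b : ℝ} {t : ℝ} (ht : t ∈ Ioo 0 (π / 2))
    (hρ : S.rho a b t < 1) :
    √(S.Q t 1 (-S.n1 t + S.m t / √(1 - S.rho a b t) * S.u1 a b t)
      (-S.n2 t + S.m t / √(1 - S.rho a b t) * S.u2 a b t)) = S.m t / √(1 - S.rho a b t) := by
  have hk := k_sq hS ht hρ
  have e := Q_key hS a b ht (S.m t / √(1 - S.rho a b t))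
  have h0 : 0 ≤ S.m t / √(1 - S.rho a b t) := div_nonneg (m_pos hS ht).le (Real.sqrt_nonneg _)
  rw [e, ← hk, ← mul_add, sub_add_cancel, mul_one, Real.sqrt_sq h0]

/-- Speed on the way down. -/
theorem Q_down (hS : S.Ok) {a b : ℝ} {t : ℝ} (ht : t ∈ Ioo 0 (π / 2))
    (hρ : S.rho a b t < 1) :
    √(S.Q t (-1) (S.n1 t + S.m t / √(1 - S.rho a b t) * S.u1 a b t)
      (S.n2 t + S.m t / √(1 - S.rho a b t) * S.u2 a b t)) = S.m t / √(1 - S.rho a b t) := by
  have e : S.Q t (-1) (S.n1 t + S.m t / √(1 - S.rho a b t) * S.u1 a b t)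
      (S.n2 t + S.m t / √(1 - S.rho a b t) * S.u2 a b t) =
      S.Q t 1 (-S.n1 t + (-(S.m t / √(1 - S.rho a b t))) * S.u1 a b t)
        (-S.n2 t + (-(S.m t / √(1 - S.rho a b t))) * S.u2 a b t) := by
    unfold Slice.Q
    ring
  have hk := k_sq hS ht hρ
  have e2 := Q_key hS a b ht (-(S.m t / √(1 - S.rho a b t)))
  have h0 : 0 ≤ S.m t / √(1 - S.rho a b t) := div_nonneg (m_pos hS ht).le (Real.sqrt_nonneg _)
  rw [e, e2, neg_sq, ← hk, ← mul_add, sub_add_cancel, mul_one, Real.sqrt_sq h0]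

end Pool.Agent.Lib.MP_c3a607_gt.Rp.Slice
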