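import Pool.Agent.Lib.MP_c3a607_gt.Rp.SliceAction

namespace Pool.Agent.Lib.MP_c3a607_gt.Rp.Slice

open Set Real

variable {S : Slice}

/-- The slice after the reflection α ↦ -α. -/
def refl (S : Slice) : Slice :=
  { S with F1 := fun t => -S.F1 t, H12 := fun t => -S.H12 t }

private theorem refl_Q (S : Slice) (t τ x y : ℝ) : S.refl.Q t τ x y = S.Q t τ (-x) y := by
  simp only [Q, refl]
  ring

private theorem refl_delta (S : Slice) (t : ℝ) : S.refl.delta t = S.delta t := by
  simp only [delta, refl]
  ring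

private theorem refl_det3 (S : Slice) (t : ℝ) : S.refl.det3 t = S.det3 t := by
  rw [det3, det3, refl_delta]
  simp only [refl]
  ring

private theorem refl_m (S : Slice) (t : ℝ) : S.refl.m t = S.m t := by
  rw [m, m, refl_det3, refl_delta]

private theorem refl_rho (S : Slice) (a b t : ℝ) : S.refl.rho a b t = S.rho (-a) b t := by
  rw [rho, rho, refl_delta]
  simp only [refl]
  congr 1
  ring

private theorem rho_neg (S : Slice) (a b t : ℝ) : S.rho (-a) (-b) t = S.rho a b t := by
  rw [rho, rho]
  congr 1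
  ring

private theorem refl_ok (hS : S.Ok) : S.refl.Ok where
  cE := hS.cE
  cF1 := hS.cF1.neg
  cF2 := hS.cF2
  cH11 := hS.cH11
  cH12 := hS.cH12.neg
  cH22 := hS.cH22
  pos := by
    intro t ht τ x y h
    rw [refl_Q]
    refine hS.pos t ht τ (-x) y ?_
    rcases h with h | h | h
    · exact Or.inl h
    · exact Or.inr (Or.inl (neg_ne_zero.2 h))
    · exact Or.inr (Or.inr h)
  left11 := hS.left11
  left12 := by
    show -S.H12 0 = 0
    rw [hS.left12, neg_zero]
  left22 := hS.left22
  right11 := hS.right11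
  right12 := by
    show -S.H12 (π / 2) = 0
    rw [hS.right12, neg_zero]
  right22 := hS.right22

private theorem refl_sysGe {L : ℝ} (hL : S.SysGe L) : S.refl.SysGe L := by
  intro θ α β hθ hα hβ h1 h2 h3 h4
  have h := hL θ (fun s => -α s) β hθ hα.neg hβ h1 h2 (by
    rcases h3 with h3 | h3
    · right
      show -α 1 = -α 0 - π
      rw [h3]
      ring
    · left
      show -α 1 = -α 0 + π
      rw [h3]
      ring) h4
  refine h.trans (le_of_eq ?_)
  refine intervalIntegral.integral_congr fun s _ => ?_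
  show √(S.Q (θ s) (deriv θ s) (deriv (fun s => -α s) s) (deriv β s)) =
    √(S.refl.Q (θ s) (deriv θ s) (deriv α s) (deriv β s))
  rw [refl_Q]
  have : deriv (fun s => -α s) s = -deriv α s := deriv.fun_neg
  rw [this]

/-- The action bound for both signs of a and b: apply action_pos to S or to S.refl. -/
theorem action (hS : S.Ok) {L : ℝ} (hL : S.SysGe L) {a b : ℝ} (ha : a ≠ 0) (hb : b ≠ 0) :
    L - π * (|a| + |b|) ≤ ∫ t in (0 : ℝ)..(π / 2), 2 * S.m t * √(1 - S.rho a b t) := by
  rcases lt_or_gt_of_ne ha with ha' | ha' <;> rcases lt_or_gt_of_ne hb with hb' | hb'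
  · have h := action_pos hS hL (neg_pos.2 ha') (neg_pos.2 hb')
    rw [abs_of_neg ha', abs_of_neg hb']
    refine h.trans (le_of_eq ?_)
    refine intervalIntegral.integral_congr fun s _ => ?_
    show 2 * S.m s * √(1 - S.rho (-a) (-b) s) = 2 * S.m s * √(1 - S.rho a b s)
    rw [rho_neg]
  · have h := action_pos (refl_ok hS) (refl_sysGe hL) (neg_pos.2 ha') hb'
    rw [abs_of_neg ha', abs_of_pos hb']
    refine h.trans (le_of_eq ?_)
    refine intervalIntegral.integral_congr fun s _ => ?_
    show 2 * S.refl.m s * √(1 - S.refl.rho (-a) b s) = 2 * S.m s * √(1 - S.rho a b s)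
    rw [refl_m, refl_rho, neg_neg]
  · have h := action_pos (refl_ok hS) (refl_sysGe hL) ha' (neg_pos.2 hb')
    rw [abs_of_pos ha', abs_of_neg hb']
    refine h.trans (le_of_eq ?_)
    refine intervalIntegral.integral_congr fun s _ => ?_
    show 2 * S.refl.m s * √(1 - S.refl.rho a (-b) s) = 2 * S.m s * √(1 - S.rho a b s)
    rw [refl_m, refl_rho, rho_neg]
  · have h := action_pos hS hL ha' hb'
    rw [abs_of_pos ha', abs_of_pos hb']
    exact h

end Pool.Agent.Lib.MP_c3a607_gt.Rp.Slice
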