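import Mathlib

namespace Pool.Agent.Lib.MP_c3a607_gt.Rp

open Set

/-- Existence of a well (t0, t1) of ρ < 1 with D > 0 at the left end and D < 0 at the right end. -/
theorem well_exists {T : ℝ} (hT : 0 < T) {ρ D : ℝ → ℝ}
    (hρ : ContinuousOn ρ (Ioo 0 T)) (hD : ContinuousOn D (Ioo 0 T))
    (h0 : ∃ ε > 0, ∀ t, 0 < t → t < ε → t < T → 1 ≤ ρ t ∧ 0 < D t)
    (h1 : ∃ ε > 0, ∀ t, 0 < t → T - ε < t → t < T → 1 ≤ ρ t ∧ D t < 0)
    (hB : ∀ t ∈ Ioo 0 T, 1 ≤ ρ t → D t ≠ 0) :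
    ∃ t0 t1, 0 < t0 ∧ t0 < t1 ∧ t1 < T ∧ ρ t0 = 1 ∧ ρ t1 = 1 ∧
      (∀ t ∈ Ioo t0 t1, ρ t < 1) ∧ 0 < D t0 ∧ D t1 < 0 := by
  obtain ⟨ε, hε, h0⟩ := h0
  obtain ⟨δ, hδ, h1⟩ := h1
  obtain ⟨a, ha0, haε, haT⟩ : ∃ a, 0 < a ∧ a < ε ∧ a < T := by
    refine ⟨min ε T / 2, ?_, ?_, ?_⟩
    · have := lt_min hε hT
      linarith
    · have := min_le_left ε T
      have := lt_min hε hT
      linarith
    · have := min_le_right ε T
      have := lt_min hε hT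
      linarith
  obtain ⟨b, hb0, hbδ, hbT⟩ : ∃ b, 0 < b ∧ T - δ < b ∧ b < T := by
    refine ⟨max (T - δ / 2) (T / 2), ?_, ?_, ?_⟩
    · exact lt_of_lt_of_le (by linarith) (le_max_right _ _)
    · exact lt_of_lt_of_le (by linarith) (le_max_left _ _)
    · exact max_lt (by linarith) (by linarith)
  have hab : a < b := by
    by_contra hcon
    push Not at hcon
    have h2 := (h0 a ha0 haε haT).2
    have h3 := (h1 a ha0 (by linarith) haT).2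
    linarith
  have hsub : Icc a b ⊆ Ioo 0 T := fun t ht => ⟨lt_of_lt_of_le ha0 ht.1, lt_of_le_of_lt ht.2 hbT⟩
  have hclosed : ∀ c, a ≤ c → IsClosed (Icc c b ∩ (fun t => (ρ t, D t)) ⁻¹' (Ici 1 ×ˢ Ici 0)) ∧
      IsClosed (Icc c b ∩ (fun t => (ρ t, D t)) ⁻¹' (Ici 1 ×ˢ Iic 0)) := by
    intro c hc
    have hcont : ContinuousOn (fun t => (ρ t, D t)) (Icc c b) :=
      ((hρ.mono hsub).prodMk (hD.mono hsub)).mono (Icc_subset_Icc_left hc)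
    exact ⟨hcont.preimage_isClosed_of_isClosed isClosed_Icc (isClosed_Ici.prod isClosed_Ici),
      hcont.preimage_isClosed_of_isClosed isClosed_Icc (isClosed_Ici.prod isClosed_Iic)⟩
  obtain ⟨t0, ⟨ht0m, ht0r, ht0D⟩, ht0max⟩ :=
    (isCompact_Icc.of_isClosed_subset (hclosed a le_rfl).1 inter_subset_left).exists_isGreatest
      ⟨a, ⟨le_rfl, hab.le⟩, (h0 a ha0 haε haT).1, (h0 a ha0 haε haT).2.le⟩
  have hbD := h1 b hb0 hbδ hbT
  have ht0r' : 1 ≤ ρ t0 := ht0r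
  have ht0D' : 0 ≤ D t0 := ht0D
  have ht0D2 : 0 < D t0 := lt_of_le_of_ne ht0D' (Ne.symm (hB t0 (hsub ht0m) ht0r'))
  have ht0b : t0 < b := by
    refine lt_of_le_of_ne ht0m.2 ?_
    rintro rfl
    linarith [hbD.2]
  obtain ⟨t1, ⟨ht1m, ht1r, ht1D⟩, ht1min⟩ :=
    (isCompact_Icc.of_isClosed_subset (hclosed t0 ht0m.1).2 inter_subset_left).exists_isLeast
      ⟨b, ⟨ht0b.le, le_rfl⟩, hbD.1, hbD.2.le⟩
  have ht1r' : 1 ≤ ρ t1 := ht1r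
  have ht1D' : D t1 ≤ 0 := ht1D
  have ht01 : t0 < t1 := by
    refine lt_of_le_of_ne ht1m.1 ?_
    rintro rfl
    linarith
  have ht1s : t1 ∈ Ioo 0 T := hsub ⟨ht0m.1.trans ht1m.1, ht1m.2⟩
  have ht1D2 : D t1 < 0 := lt_of_le_of_ne ht1D' (hB t1 ht1s ht1r')
  have hwell : ∀ t ∈ Ioo t0 t1, ρ t < 1 := by
    intro t ht
    by_contra hcon
    push Not at hcon
    have htb : t ≤ b := ht.2.le.trans ht1m.2
    have hta : a ≤ t := ht0m.1.trans ht.1.le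
    rcases le_total 0 (D t) with h | h
    · have := ht0max ⟨⟨hta, htb⟩, hcon, h⟩
      linarith [ht.1]
    · have := ht1min ⟨⟨ht.1.le, htb⟩, hcon, h⟩
      linarith [ht.2]
  have hcl : ∀ t ∈ Icc t0 t1, ρ t ≤ 1 := by
    intro t ht
    rw [← closure_Ioo ht01.ne] at ht
    refine le_on_closure (f := ρ) (g := fun _ => (1 : ℝ)) (s := Ioo t0 t1)
      (fun u hu => (hwell u hu).le) ?_ continuousOn_const ht
    rw [closure_Ioo ht01.ne]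
    exact hρ.mono fun u hu => hsub ⟨ht0m.1.trans hu.1, hu.2.trans ht1m.2⟩
  exact ⟨t0, t1, (hsub ht0m).1, ht01, ht1s.2,
    le_antisymm (hcl t0 ⟨le_rfl, ht01.le⟩) ht0r', le_antisymm (hcl t1 ⟨ht01.le, le_rfl⟩) ht1r',
    hwell, ht0D2, ht1D2⟩

end Pool.Agent.Lib.MP_c3a607_gt.Rp
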